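import Pool.Agent.H790Z.PT.Defs

/-! Task T6: a tree-shelled polycube is homeomorphic to the closed ball (written by helper922). -/

set_option autoImplicit false

namespace Pool.Agent.H790Z.PT

open Set Topology Filter

namespace Ball

section General

variable {E : Type*} [NormedAddCommGroup E] [NormedSpace ℝ E]

lemma rescale0 {K K' : Set E} (hK : Convex ℝ K) (hK' : Convex ℝ K') (hc : IsCompact K)
    (hc' : IsCompact K') (h0 : K ∈ 𝓝 (0 : E)) (hsub : K ⊆ K') :
    ∃ h : E ≃ₜ E, h '' K' = K ∧ ∀ x ∈ K, x ∉ interior K' → h x = x := by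
  have h0' : K' ∈ 𝓝 (0 : E) := mem_of_superset h0 hsub
  have hb : Bornology.IsVonNBounded ℝ K := (NormedSpace.isVonNBounded_iff ℝ).2 hc.isBounded
  have hb' : Bornology.IsVonNBounded ℝ K' := (NormedSpace.isVonNBounded_iff ℝ).2 hc'.isBounded
  refine ⟨gaugeRescaleHomeomorph K' K hK' h0' hb' hK h0 hb, ?_, fun x hx hx' => ?_⟩
  · have := image_gaugeRescaleHomeomorph_closure hK' h0' hb' hK h0 hb
    rwa [hc.isClosed.closure_eq, hc'.isClosed.closure_eq] at this
  · have h1 : gauge K x = 1 := (gauge_eq_one_iff_mem_frontier hK h0).2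
      ⟨subset_closure hx, fun h => hx' (interior_mono hsub h)⟩
    have h2 : gauge K' x = 1 := (gauge_eq_one_iff_mem_frontier hK' h0').2
      ⟨subset_closure (hsub hx), hx'⟩
    change gaugeRescale K' K x = x
    rw [gaugeRescale_def, h1, h2]
    simp

lemma rescale {K K' : Set E} (hK : Convex ℝ K) (hK' : Convex ℝ K') (hc : IsCompact K)
    (hc' : IsCompact K') {o : E} (h0 : K ∈ 𝓝 o) (hsub : K ⊆ K') :
    ∃ h : E ≃ₜ E, h '' K' = K ∧ ∀ x ∈ K, x ∉ interior K' → h x = x := by
  let τ : E ≃ₜ E := Homeomorph.addRight o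
  have hτ : ∀ x, τ x = x + o := fun _ => rfl
  have c1 : Convex ℝ (τ ⁻¹' K) := hK.translate_preimage_left o
  have c2 : Convex ℝ (τ ⁻¹' K') := hK'.translate_preimage_left o
  have n1 : τ ⁻¹' K ∈ 𝓝 (0 : E) := τ.continuous.continuousAt.preimage_mem_nhds (by
    rw [hτ, zero_add]; exact h0)
  obtain ⟨g, hg, hfix⟩ := rescale0 c1 c2 (τ.isCompact_preimage.2 hc) (τ.isCompact_preimage.2 hc')
    n1 (preimage_mono hsub)
  refine ⟨(τ.symm.trans g).trans τ, ?_, fun x hx hx' => ?_⟩
  · have e1 : ((τ.symm.trans g).trans τ) '' K' = τ '' (g '' (τ.symm '' K')) := by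
      rw [image_image, image_image]; rfl
    rw [e1, τ.image_symm, hg, τ.image_preimage]
  · have h1 : τ.symm x ∈ τ ⁻¹' K := by simpa using hx
    have h2 : τ.symm x ∉ interior (τ ⁻¹' K') := by
      rw [← τ.preimage_interior]; simpa using hx'
    change τ (g (τ.symm x)) = x
    rw [hfix _ h1 h2, τ.apply_symm_apply]

lemma glue {X : Type*} [TopologicalSpace X] [T2Space X] {K K' Y : Set X} (h : X ≃ₜ X)
    (hc' : IsCompact K') (hY : IsCompact Y) (him : h '' K' = K) (hsub : K ⊆ K')
    (hfix : ∀ x ∈ Y, x ∈ K' → h x = x) :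
    Nonempty (↥(Y ∪ K') ≃ₜ ↥(Y ∪ K)) := by
  classical
  let f : X → X := fun x => if x ∈ K' then h x else x
  have fY : ∀ x ∈ Y, f x = x := by
    intro x hx
    by_cases hx' : x ∈ K'
    · simp only [f, if_pos hx']; exact hfix x hx hx'
    · simp only [f, if_neg hx']
  have fK : ∀ x ∈ K', f x = h x := fun x hx => by simp only [f, if_pos hx]
  have hK : ∀ x ∈ K', h x ∈ K := fun x hx => him ▸ mem_image_of_mem h hx
  have hcont : ContinuousOn f (Y ∪ K') :=
    ContinuousOn.union_of_isClosed (continuousOn_id.congr fY) (h.continuous.continuousOn.congr fK)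
      hY.isClosed hc'.isClosed
  have hbij : BijOn f (Y ∪ K') (Y ∪ K) := by
    refine ⟨?_, ?_, ?_⟩
    · rintro x (hx | hx)
      · rw [fY x hx]; exact Or.inl hx
      · rw [fK x hx]; exact Or.inr (hK x hx)
    · intro x _ y _ hxy
      by_cases h1 : x ∈ K' <;> by_cases h2 : y ∈ K'
      · rw [fK x h1, fK y h2] at hxy; exact h.injective hxy
      · simp only [f, if_pos h1, if_neg h2] at hxy
        exact absurd (hsub (hxy ▸ hK x h1)) h2
      · simp only [f, if_neg h1, if_pos h2] at hxy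
        exact absurd (hsub (hxy ▸ hK y h2)) h1
      · simpa only [f, if_neg h1, if_neg h2] using hxy
    · rintro y (hy | hy)
      · exact ⟨y, Or.inl hy, fY y hy⟩
      · rw [← him] at hy
        obtain ⟨x, hx, rfl⟩ := hy
        exact ⟨x, Or.inr hx, fK x hx⟩
  have : CompactSpace ↥(Y ∪ K') := isCompact_iff_compactSpace.1 (hY.union hc')
  refine ⟨Continuous.homeoOfEquivCompactToT2 (f := hbij.equiv f) ?_⟩
  exact hcont.mapsToRestrict hbij.mapsTo

end General

variable {D : ℕ}

/-- a closed box -/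
def box (lo hi : Fin D → ℝ) : Set (EuclideanSpace ℝ (Fin D)) :=
  {y | ∀ i, lo i ≤ y i ∧ y i ≤ hi i}

/-- a closed unit cube -/
def cube (x : Fin D → ℤ) : Set (EuclideanSpace ℝ (Fin D)) :=
  box (fun i => (x i : ℝ)) (fun i => (x i : ℝ) + 1)

lemma convex_box (lo hi : Fin D → ℝ) : Convex ℝ (box lo hi) := by
  intro x hx y hy a b ha hb hab i
  obtain ⟨h1, h2⟩ := hx i
  obtain ⟨h3, h4⟩ := hy i
  have e : (a • x + b • y) i = a * x i + b * y i := by simp
  rw [e]
  have e1 : lo i = a * lo i + b * lo i := by rw [← add_mul, hab, one_mul]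
  have e2 : hi i = a * hi i + b * hi i := by rw [← add_mul, hab, one_mul]
  constructor
  · rw [e1]; gcongr
  · rw [e2]; gcongr

lemma isCompact_box (lo hi : Fin D → ℝ) : IsCompact (box lo hi) := by
  have e : box lo hi = (EuclideanSpace.equiv (Fin D) ℝ).toHomeomorph ⁻¹' Icc lo hi := by
    ext y
    simp [box, Pi.le_def, forall_and]
  rw [e]
  exact (Homeomorph.isCompact_preimage _).2 isCompact_Icc

/-- the centre of a cube -/
noncomputable def ctr (x : Fin D → ℤ) : EuclideanSpace ℝ (Fin D) :=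
  WithLp.toLp 2 fun i => (x i : ℝ) + 1 / 2

lemma cube_mem_nhds (x : Fin D → ℤ) : cube x ∈ 𝓝 (ctr x) := by
  have ho : IsOpen {y : EuclideanSpace ℝ (Fin D) | ∀ i, (x i : ℝ) < y i ∧ y i < (x i : ℝ) + 1} := by
    rw [setOf_forall]
    refine isOpen_iInter_of_finite fun i => ?_
    have hc : Continuous fun y : EuclideanSpace ℝ (Fin D) => y i := by fun_prop
    exact (isOpen_lt continuous_const hc).inter (isOpen_lt hc continuous_const)
  refine mem_of_superset (ho.mem_nhds fun i => ?_) fun y hy i => ⟨(hy i).1.le, (hy i).2.le⟩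
  simp only [ctr]
  constructor <;> linarith

lemma cube_union (x : Fin D → ℤ) (i : Fin D) :
    cube x ∪ cube (x + Pi.single i 1) =
      box (fun a => (x a : ℝ)) (fun a => ((x + Pi.single i 1 : Fin D → ℤ) a : ℝ) + 1) := by
  have hs : ∀ a, a ≠ i → (x + Pi.single i 1 : Fin D → ℤ) a = x a := fun a ha => by
    simp [Pi.single_eq_of_ne ha]
  have hi : (((x + Pi.single i 1 : Fin D → ℤ) i : ℤ) : ℝ) = x i + 1 := by simp
  ext y
  constructor
  · rintro (hy | hy) a
    · obtain ⟨h1, h2⟩ := hy a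
      by_cases ha : a = i
      · subst ha
        simp only [hi]
        exact ⟨h1, by linarith⟩
      · simp only [hs a ha]
        exact ⟨h1, h2⟩
    · obtain ⟨h1, h2⟩ := hy a
      by_cases ha : a = i
      · subst ha
        simp only [hi] at h1 h2 ⊢
        exact ⟨by linarith, h2⟩
      · simp only [hs a ha] at h1 h2 ⊢
        exact ⟨h1, h2⟩
  · intro hy
    by_cases hyi : y i ≤ x i + 1
    · left
      intro a
      obtain ⟨h1, h2⟩ := hy a
      by_cases ha : a = i
      · subst ha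
        exact ⟨h1, hyi⟩
      · simp only [hs a ha] at h2
        exact ⟨h1, h2⟩
    · right
      intro a
      obtain ⟨h1, h2⟩ := hy a
      by_cases ha : a = i
      · subst ha
        simp only [hi] at h2 ⊢
        exact ⟨by linarith, h2⟩
      · simp only [hs a ha] at h2 ⊢
        exact ⟨h1, h2⟩

lemma convex_union {c c' : Fin D → ℤ} {i : Fin D}
    (h : c = c' + Pi.single i 1 ∨ c = c' - Pi.single i 1) : Convex ℝ (cube c ∪ cube c') := by
  rcases h with h | h
  · rw [h, union_comm, cube_union]; exact convex_box _ _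
  · have : c' = c + Pi.single i 1 := by rw [h]; simp
    rw [this, cube_union]; exact convex_box _ _

lemma eq_of_open_meet {y c : Fin D → ℤ} {q : EuclideanSpace ℝ (Fin D)}
    (h1 : ∀ i, (y i : ℝ) < q i ∧ q i < (y i : ℝ) + 1) (h2 : q ∈ cube c) : y = c := by
  funext i
  obtain ⟨a1, a2⟩ := h1 i
  obtain ⟨b1, b2⟩ := h2 i
  have c1 : (y i : ℝ) < (c i : ℝ) + 1 := lt_of_lt_of_le a1 b2
  have c2 : (c i : ℝ) < (y i : ℝ) + 1 := lt_of_le_of_lt b1 a2
  have d1 : y i < c i + 1 := by exact_mod_cast c1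
  have d2 : c i < y i + 1 := by exact_mod_cast c2
  omega

lemma not_mem_interior {y c c' : Fin D → ℤ} (hc : y ≠ c) (hc' : y ≠ c')
    {p : EuclideanSpace ℝ (Fin D)} (hp : p ∈ cube y) : p ∉ interior (cube c ∪ cube c') := by
  intro hint
  have hn : cube c ∪ cube c' ∈ 𝓝 p := mem_interior_iff_mem_nhds.1 hint
  have hcont : Continuous fun t : ℝ => p + t • (ctr y - p) := by fun_prop
  have h0 : (fun t : ℝ => p + t • (ctr y - p)) ⁻¹' (cube c ∪ cube c') ∈ 𝓝 (0 : ℝ) :=
    hcont.continuousAt.preimage_mem_nhds (by simpa using hn)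
  have h1 : (fun t : ℝ => p + t • (ctr y - p)) ⁻¹' (cube c ∪ cube c') ∩ Ioo 0 1 ∈ 𝓝[>] (0 : ℝ) :=
    inter_mem (mem_nhdsWithin_of_mem_nhds h0) (Ioo_mem_nhdsGT one_pos)
  obtain ⟨t, ht, ht0, ht1⟩ := Filter.nonempty_of_mem h1
  have ho : ∀ i, (y i : ℝ) < (p + t • (ctr y - p)) i ∧
      (p + t • (ctr y - p)) i < (y i : ℝ) + 1 := by
    intro i
    obtain ⟨a1, a2⟩ := hp i
    have e : (p + t • (ctr y - p)) i = p i + t * ((y i : ℝ) + 1 / 2 - p i) := by simp [ctr]
    rw [e]
    simp only at a1 a2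
    constructor <;> nlinarith
  rcases ht with ht | ht
  · exact hc (eq_of_open_meet ho ht)
  · exact hc' (eq_of_open_meet ho ht)

lemma cubes_eq (X : Set (Fin D → ℤ)) : cubes X = ⋃ x ∈ X, cube x := by
  ext y
  simp [cubes, cube, box]

lemma isCompact_cubes {X : Set (Fin D → ℤ)} (hX : X.Finite) : IsCompact (cubes X) := by
  rw [cubes_eq]
  exact hX.isCompact_biUnion fun x _ => isCompact_box _ _

lemma step {X : Set (Fin D → ℤ)} (hX : X.Finite) {c c' : Fin D → ℤ} {i : Fin D} (hc' : c' ∈ X)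
    (h : c = c' + Pi.single i 1 ∨ c = c' - Pi.single i 1)
    (hnear : ∀ y ∈ X, (∀ a, |y a - c a| ≤ 1) → y i = c' i) :
    Nonempty (cubes (insert c X) ≃ₜ cubes X) := by
  have hci : c i = c' i + 1 ∨ c i = c' i - 1 := by
    rcases h with h | h
    · left; rw [h]; simp
    · right; rw [h]; simp
  have hca : ∀ a, a ≠ i → c a = c' a := by
    intro a ha
    rcases h with h | h <;> rw [h] <;> simp [Pi.single_eq_of_ne ha]
  have hcX : ∀ y ∈ X, y ≠ c := by
    rintro y hy rfl
    have := hnear y hy (fun a => by simp)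
    omega
  have hK : IsCompact (cube c') := isCompact_box _ _
  have hK' : IsCompact (cube c ∪ cube c') := (isCompact_box _ _).union hK
  obtain ⟨g, hg, hfix⟩ := rescale (convex_box _ _) (convex_union h) hK hK' (cube_mem_nhds c')
    subset_union_right
  have hY : IsCompact (cubes (X \ {c'})) := isCompact_cubes (hX.subset diff_subset)
  have key : ∀ x ∈ cubes (X \ {c'}), x ∈ cube c ∪ cube c' → g x = x := by
    rintro p ⟨y, ⟨hy, hy'⟩, hp⟩ hp'
    refine hfix p ?_ (not_mem_interior (hcX y hy) hy' hp)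
    rcases hp' with hp' | hp'
    · have hn : ∀ a, |y a - c a| ≤ 1 := by
        intro a
        obtain ⟨a1, a2⟩ := hp a
        obtain ⟨b1, b2⟩ := hp' a
        have c1 : (y a : ℝ) ≤ (c a : ℝ) + 1 := le_trans a1 b2
        have c2 : (c a : ℝ) ≤ (y a : ℝ) + 1 := le_trans b1 a2
        have d1 : y a ≤ c a + 1 := by exact_mod_cast c1
        have d2 : c a ≤ y a + 1 := by exact_mod_cast c2
        rw [abs_le]; constructor <;> omega
      have hyi := hnear y hy hn
      intro a
      by_cases ha : a = i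
      · subst ha
        have := hp a
        rw [hyi] at this
        exact this
      · have := hp' a
        simp only [hca a ha] at this
        exact this
    · exact hp'
  obtain ⟨φ⟩ := glue g hK' hY hg subset_union_right key
  have e1 : cubes (insert c X) = cubes (X \ {c'}) ∪ (cube c ∪ cube c') := by
    ext p
    constructor
    · rintro ⟨y, hy | hy, hp⟩
      · subst hy; exact Or.inr (Or.inl hp)
      · by_cases hyc : y = c'
        · subst hyc; exact Or.inr (Or.inr hp)
        · exact Or.inl ⟨y, ⟨hy, hyc⟩, hp⟩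
    · rintro (⟨y, hy, hp⟩ | hp | hp)
      · exact ⟨y, Or.inr hy.1, hp⟩
      · exact ⟨c, Or.inl rfl, hp⟩
      · exact ⟨c', Or.inr hc', hp⟩
  have e2 : cubes X = cubes (X \ {c'}) ∪ cube c' := by
    ext p
    constructor
    · rintro ⟨y, hy, hp⟩
      by_cases hyc : y = c'
      · subst hyc; exact Or.inr hp
      · exact Or.inl ⟨y, ⟨hy, hyc⟩, hp⟩
    · rintro (⟨y, hy, hp⟩ | hp)
      · exact ⟨y, hy.1, hp⟩
      · exact ⟨c', hc', hp⟩
  exact ⟨((Homeomorph.setCongr e1).trans φ).trans (Homeomorph.setCongr e2.symm)⟩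

lemma base (x : Fin D → ℤ) :
    Nonempty (cubes {x} ≃ₜ Metric.closedBall (0 : EuclideanSpace ℝ (Fin D)) 1) := by
  have e : cubes {x} = cube x := by rw [cubes_eq]; simp
  have hc : IsCompact (cube x) := isCompact_box _ _
  obtain ⟨h, -, h2, -⟩ := exists_homeomorph_image_interior_closure_frontier_eq_unitBall
    (s := cube x) (convex_box _ _) ⟨ctr x, mem_interior_iff_mem_nhds.2 (cube_mem_nhds x)⟩
    hc.isBounded
  rw [hc.isClosed.closure_eq] at h2
  exact ⟨((Homeomorph.setCongr e).trans (h.image _)).trans (Homeomorph.setCongr h2)⟩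

end Ball

theorem ball_of_tree {D : ℕ} {J : Type} (pos : J → Fin D → ℤ) (rk : J → ℕ) (s : Set J) (j0 : J)
    (hs : s.Finite) (h : Tree pos rk s j0) :
    Nonempty (cubes (pos '' s) ≃ₜ Metric.closedBall (0 : EuclideanSpace ℝ (Fin D)) 1) := by
  induction hn : s.ncard using Nat.strong_induction_on generalizing s with
  | _ n ih =>
    obtain ⟨h0, hr0, hT⟩ := h
    by_cases hne : (s \ {j0}).Nonempty
    · obtain ⟨j, ⟨hjs, hj0⟩, hmax⟩ :=
        Set.exists_max_image (s \ {j0}) rk (hs.subset diff_subset) hne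
      have hj0' : j ≠ j0 := hj0
      have hle : ∀ k ∈ s, rk k ≤ rk j := by
        intro k hk
        by_cases hk0 : k = j0
        · rw [hk0, hr0]; exact Nat.zero_le _
        · exact hmax k ⟨hk, hk0⟩
      have hT' : Tree pos rk (s \ {j}) j0 := by
        refine ⟨⟨h0, fun e => hj0' (Eq.symm e)⟩, hr0, ?_⟩
        rintro j1 ⟨hj1, -⟩ hj10
        obtain ⟨j', hj', i, hlt, hpos, hnear⟩ := hT j1 hj1 hj10
        refine ⟨j', ⟨hj', ?_⟩, i, hlt, hpos, fun k hk => hnear k hk.1⟩
        intro e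
        have e' : j' = j := e
        have := hle j1 hj1
        rw [e'] at hlt
        omega
      have hfin : (s \ {j}).Finite := hs.subset diff_subset
      have hlt : (s \ {j}).ncard < n := by
        rw [← hn]
        exact Set.ncard_diff_singleton_lt_of_mem hjs hs
      obtain ⟨ψ⟩ := ih _ hlt (s \ {j}) hfin hT' rfl
      obtain ⟨j', hj', i, hlt', hpos, hnear⟩ := hT j hjs hj0'
      have hj'j : j' ≠ j := by
        rintro rfl
        omega
      obtain ⟨φ⟩ := Ball.step (X := pos '' (s \ {j})) (hfin.image _) (c := pos j) (c' := pos j')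
        (i := i) ⟨j', ⟨hj', hj'j⟩, rfl⟩ hpos (by
          rintro y ⟨k, ⟨hk, hkj⟩, rfl⟩ hy
          exact hnear k hk hkj (hle k hk) hy)
      have e : pos '' s = insert (pos j) (pos '' (s \ {j})) := by
        rw [← image_insert_eq, insert_diff_singleton, insert_eq_of_mem hjs]
      rw [e]
      exact ⟨φ.trans ψ⟩
    · have e : s = {j0} := by
        rw [not_nonempty_iff_eq_empty, diff_eq_empty] at hne
        exact subset_antisymm hne (singleton_subset_iff.2 h0)
      rw [e, image_singleton]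
      exact Ball.base _

end Pool.Agent.H790Z.PT
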