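import Mathlib

/-!
Definitions shared by the files that build an aperiodic translational tile which is a
topological ball.
-/

set_option autoImplicit false

namespace Pool.Agent.H790Z.PT

/-- `A ⊕ F = G`: every point is covered by exactly one translate `a + F` with `a ∈ A`. -/
def Tiles {G : Type*} [AddCommGroup G] (A F : Set G) : Prop :=
  ∀ x : G, ∃! a, a ∈ A ∧ x - a ∈ F

/-- `A` is invariant under `N • G` for some `N ≥ 1`. -/
def Per {G : Type*} [AddCommGroup G] (A : Set G) : Prop :=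
  ∃ N : ℕ, 0 < N ∧ ∀ a ∈ A, ∀ g : G, a + N • g ∈ A

/-- A finite tile which tiles, but never periodically. -/
def Aper {G : Type*} [AddCommGroup G] (F : Set G) : Prop :=
  F.Finite ∧ (∃ A, Tiles A F) ∧ ∀ A, Tiles A F → ¬ Per A

/-- Sudoku-type constraints on `φ : ℤ² → (I → S)`: every value lies in `Ω`, and the `n`-th
component is invariant in the direction `w n`. -/
def Sol {I S : Type*} (w : I → ℤ × ℤ) (Ω : Set (I → S)) (φ : ℤ × ℤ → I → S) : Prop :=
  (∀ x, φ x ∈ Ω) ∧ ∀ x n, φ (x + w n) n = φ x n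

/-- A puzzle with a solution whose columns run through all residues, and without a periodic
solution whose columns show `q` different digits in `q` consecutive cells. -/
def Puzzle {I S : Type*} (q : ℕ) (w : I → ℤ × ℤ) (d : S → ZMod q) (Ω : Set (I → S)) : Prop :=
  (∃ φ, Sol w Ω φ ∧
    ∀ x n, Function.Injective fun k : Fin q => d (φ (x + (0, ((k : ℕ) : ℤ))) n)) ∧
  ∀ φ, Sol w Ω φ → (∀ x n, Function.Injective fun k : Fin q => φ (x + (0, ((k : ℕ) : ℤ))) n) →
    ∀ N : ℕ, 0 < N → ¬ ∀ x g, φ (x + N • g) = φ x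

/-- Differences of points of a tiling set avoid `N ℤ^C + e_i`. -/
def Rigid {C : Type*} [DecidableEq C] (X : Set (C → ℤ)) : Prop :=
  ∃ N : ℕ, 0 < N ∧ ∀ A, Tiles A X → ∀ a ∈ A, ∀ a' ∈ A, ∀ (z : C → ℤ) (i : C),
    a' ≠ a + N • z + Pi.single i 1

/-- The unit cubes at `pos j`, `j ∈ s`, can be added in the order of `rk`, each new cube being
glued to its parent along one facet and meeting the earlier cubes only inside that facet. -/
def Tree {J C : Type*} [DecidableEq C] (pos : J → C → ℤ) (rk : J → ℕ) (s : Set J) (j0 : J) :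
    Prop :=
  j0 ∈ s ∧ rk j0 = 0 ∧ ∀ j ∈ s, j ≠ j0 → ∃ j' ∈ s, ∃ i : C, rk j' < rk j ∧
    (pos j = pos j' + Pi.single i 1 ∨ pos j = pos j' - Pi.single i 1) ∧
    ∀ k ∈ s, k ≠ j → rk k ≤ rk j → (∀ c, |pos k c - pos j c| ≤ 1) → pos k i = pos j' i

/-- The union of the closed unit cubes with lower corners in `X`. -/
def cubes {D : ℕ} (X : Set (Fin D → ℤ)) : Set (EuclideanSpace ℝ (Fin D)) :=
  {y | ∃ x ∈ X, ∀ i, (x i : ℝ) ≤ y i ∧ y i ≤ (x i : ℝ) + 1}

end Pool.Agent.H790Z.PT
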