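import Mathlib
import Pool.Agent.H790Z.PT.Defs

/-! A finite system of tiling equations without periodic solutions gives one aperiodic tile. -/

set_option autoImplicit false

namespace Pool.Agent.H790Z.PT

namespace Concat

/-- The split quadratic form in four variables. -/
def Q {K : Type} [Field K] (z : (K × K) × (K × K)) : K := z.1.1 * z.1.2 + z.2.1 * z.2.2

theorem key {K : Type} [Field K] (h : (K × K) × (K × K)) (hh : h ≠ 0) (i j : K) :
    ∃ z, Q z = i ∧ Q (z + h) = j := by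
  obtain ⟨⟨a, b⟩, ⟨c, d⟩⟩ := h
  by_cases ha : a = 0
  · by_cases hb : b = 0
    · by_cases hc : c = 0
      · have hd : d ≠ 0 := by
          rintro rfl
          subst ha hb hc
          exact hh rfl
        refine ⟨((1, i), ((j - (1 + a) * (i + b)) / d - c, 0)), by simp [Q], ?_⟩
        simp only [Q, Prod.mk_add_mk]
        field_simp
        ring
      · refine ⟨((1, i), (0, (j - (1 + a) * (i + b)) / c - d)), by simp [Q], ?_⟩
        simp only [Q, Prod.mk_add_mk]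
        field_simp
        ring
    · refine ⟨(((j - (1 + c) * (i + d)) / b - a, 0), (1, i)), by simp [Q], ?_⟩
      simp only [Q, Prod.mk_add_mk]
      field_simp
      ring
  · refine ⟨((0, (j - (1 + c) * (i + d)) / a - b), (1, i)), by simp [Q], ?_⟩
    simp only [Q, Prod.mk_add_mk]
    field_simp
    ring

theorem surj {K : Type} [Field K] (n : (K × K) × (K × K)) (i : K) : ∃ z, Q (z - n) = i :=
  ⟨((1, i), (0, 0)) + n, by rw [add_sub_cancel_right]; simp [Q]⟩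

theorem exists_col {α : Type} (S : Set α) (hS : S.Finite) (hne : S.Nonempty) :
    ∃ P : ℕ, P.Prime ∧ ∃ col : ZMod P → α, (∀ i, col i ∈ S) ∧ ∀ F ∈ S, ∃ i, col i = F := by
  haveI : Finite S := hS.to_subtype
  haveI : Nonempty S := hne.to_subtype
  obtain ⟨P, hP, hp⟩ := Nat.exists_infinite_primes (Nat.card S)
  haveI : NeZero P := ⟨hp.ne_zero⟩
  haveI := Fintype.ofFinite S
  have hc : Fintype.card S ≤ Fintype.card (ZMod P) := by
    rw [ZMod.card, ← Nat.card_eq_fintype_card]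
    exact hP
  obtain ⟨e⟩ := Function.Embedding.nonempty_of_card_le hc
  refine ⟨P, hp, fun i => (Function.invFun e i : S), fun i => (Function.invFun e i).2,
    fun F hF => ⟨e ⟨F, hF⟩, ?_⟩⟩
  exact congrArg Subtype.val (Function.leftInverse_invFun e.injective ⟨F, hF⟩)

theorem tiles_fst {G K : Type} [AddCommGroup G] [Field K] (col : K → Set G)
    (A : Set (G × ((K × K) × (K × K)))) (hA : Tiles A {p | p.1 ∈ col (Q p.2)}) (i : K) :
    Tiles (Prod.fst '' A) (col i) := by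
  have same : ∀ (g : G) (a a' : G × ((K × K) × (K × K))) (i j : K), a ∈ A → a' ∈ A →
      g - a.1 ∈ col i → g - a'.1 ∈ col j → a.2 = a'.2 := by
    intro g a a' i j ha ha' hi hj
    by_contra hne
    obtain ⟨y, hy1, hy2⟩ := key (a.2 - a'.2) (sub_ne_zero.2 hne) i j
    have h1 : (g, y + a.2) - a ∈ {p : G × ((K × K) × (K × K)) | p.1 ∈ col (Q p.2)} := by
      change g - a.1 ∈ col (Q (y + a.2 - a.2))
      rwa [add_sub_cancel_right, hy1]
    have h2 : (g, y + a.2) - a' ∈ {p : G × ((K × K) × (K × K)) | p.1 ∈ col (Q p.2)} := by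
      change g - a'.1 ∈ col (Q (y + a.2 - a'.2))
      rwa [add_sub_assoc, hy2]
    exact hne (congrArg Prod.snd ((hA (g, y + a.2)).unique ⟨ha, h1⟩ ⟨ha', h2⟩))
  intro g
  obtain ⟨a0, ⟨ha0, h0⟩, -⟩ := hA (g, 0)
  obtain ⟨z, hz⟩ := surj a0.2 i
  obtain ⟨a, ⟨ha, h1⟩, huniq⟩ := hA (g, z)
  have h0' : g - a0.1 ∈ col (Q (0 - a0.2)) := h0
  have h1' : g - a.1 ∈ col (Q (z - a.2)) := h1
  have h2 := same g a a0 _ _ ha ha0 h1' h0'
  rw [h2, hz] at h1'
  refine ⟨a.1, ⟨⟨a, ha, rfl⟩, h1'⟩, ?_⟩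
  rintro _ ⟨⟨b, hb, rfl⟩, hb'⟩
  have h3 := same g b a0 _ _ hb ha0 hb' h0'
  have h4 : (g, z) - b ∈ {p : G × ((K × K) × (K × K)) | p.1 ∈ col (Q p.2)} := by
    change g - b.1 ∈ col (Q (z - b.2))
    rwa [h3, hz]
  exact congrArg Prod.fst (huniq b ⟨hb, h4⟩)

end Concat

theorem aper_of_system {G : Type} [AddCommGroup G] [AddGroup.FG G] (A0 T : Set G) (hT : T.Finite)
    (h : ∀ A : Set G, (∀ F ⊆ T, Tiles A0 F → Tiles A F) → ¬ Per A) :
    ∃ (G' : Type) (_ : AddCommGroup G') (_ : AddGroup.FG G') (F : Set G'), Aper F := by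
  have hfin : {F : Set G | F ⊆ T ∧ Tiles A0 F}.Finite :=
    hT.finite_subsets.subset fun F hF => hF.1
  have hne : {F : Set G | F ⊆ T ∧ Tiles A0 F}.Nonempty := by
    by_contra hcon
    refine h ∅ (fun F hF hF' => absurd ⟨F, hF, hF'⟩ hcon) ⟨1, one_pos, fun a ha => ha.elim⟩
  obtain ⟨P, hP, col, hcol, hsurj⟩ := Concat.exists_col _ hfin hne
  haveI : Fact P.Prime := ⟨hP⟩
  haveI : Module.Finite ℤ G := Module.Finite.iff_addGroup_fg.2 inferInstance
  have hfg : AddGroup.FG (G × ((ZMod P × ZMod P) × (ZMod P × ZMod P))) :=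
    Module.Finite.iff_addGroup_fg.1 inferInstance
  refine ⟨G × ((ZMod P × ZMod P) × (ZMod P × ZMod P)), inferInstance, hfg,
    {p | p.1 ∈ col (Concat.Q p.2)}, ?_, ⟨A0 ×ˢ {0}, ?_⟩, ?_⟩
  · exact (hT.prod Set.finite_univ).subset fun p hp => ⟨(hcol _).1 hp, Set.mem_univ _⟩
  · rintro ⟨x, z⟩
    obtain ⟨a, ⟨ha, hx⟩, huniq⟩ := (hcol (Concat.Q z)).2 x
    refine ⟨(a, 0), ⟨⟨ha, rfl⟩, ?_⟩, ?_⟩
    · change x - a ∈ col (Concat.Q (z - 0))
      rwa [sub_zero]
    · rintro ⟨b, n⟩ ⟨⟨hb, hn⟩, hb'⟩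
      have hn' : n = 0 := hn
      subst hn'
      have hb'' : x - b ∈ col (Concat.Q (z - 0)) := hb'
      rw [sub_zero] at hb''
      rw [huniq b ⟨hb, hb''⟩]
  · rintro A hA ⟨N, hN, hper⟩
    refine h (Prod.fst '' A) (fun F hF hF' => ?_) ⟨N, hN, ?_⟩
    · obtain ⟨i, rfl⟩ := hsurj F ⟨hF, hF'⟩
      exact Concat.tiles_fst col A hA i
    · rintro _ ⟨a, ha, rfl⟩ g
      exact ⟨a + N • (g, 0), hper a ha _, rfl⟩

end Pool.Agent.H790Z.PT
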