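import Pool.Agent.H790Z.PT.EncodeA

/-!
Encoding a puzzle as a system of tiling equations.
-/

set_option autoImplicit false

namespace Pool.Agent.H790Z.PT

namespace Encode

abbrev G1 : Type := (ℤ × ℤ) × (ZMod 2 × ZMod 2)

def ee : G1 := (0, (1, 0))

def ff : G1 := (0, (0, 1))

def bv (c : ZMod 2) : ZMod 4 := if c = 1 then 1 else 0

def sg (c : ZMod 2) : ZMod 4 := if c = 1 then 1 else -1

lemma ee_add : ee + ee = 0 := by decide

lemma sub_ee_ee (x : G1) : x - ee - ee = x := by rw [sub_sub, ee_add, sub_zero]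

@[simp] lemma ee1 : ee.1 = 0 := rfl
@[simp] lemma ee2 : ee.2.1 = 1 := rfl
@[simp] lemma ee3 : ee.2.2 = 0 := rfl
@[simp] lemma ff1 : ff.1 = 0 := rfl
@[simp] lemma ff2 : ff.2.1 = 0 := rfl
@[simp] lemma ff3 : ff.2.2 = 1 := rfl

/-- The bit read off from a function whose parity alternates in the direction `ee`. -/
def yb (a : G1 → ZMod 4) (x : G1) : ZMod 2 := if a x = a (x - ee) + 1 then 1 else 0

lemma z4_d1 : ∀ a0 a1 : ZMod 4, 2 * a0 - 2 * a1 = 2 →
    a0 - a1 = sg (if a0 = a1 + 1 then 1 else 0) := by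
  decide

lemma z4_d2 : ∀ a0 a1 a2 a3 : ZMod 4, 2 * a0 - 2 * a1 = 2 → 2 * a2 - 2 * a3 = 2 →
    (a2 = a0 ∨ a2 = a1) → (a3 = a1 ∨ a3 = a0) →
    a0 - a2 = bv (if a0 = a1 + 1 then 1 else 0) - bv (if a2 = a3 + 1 then 1 else 0) := by
  intro a0 a1 a2 a3 h1 h2 h3 h4
  rcases h3 with rfl | rfl <;> rcases h4 with rfl | rfl <;> revert h1 h2 <;> decide +revert

lemma yb_d1 (a : G1 → ZMod 4) (hpar : ∀ x, 2 * a x - 2 * a (x - ee) = 2) (x : G1) :
    a x - a (x - ee) = sg (yb a x) :=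
  z4_d1 _ _ (hpar x)

lemma yb_d2 (a : G1 → ZMod 4) (hpar : ∀ x, 2 * a x - 2 * a (x - ee) = 2) (g : G1)
    (hb : ∀ x, a (x - g) = a x ∨ a (x - g) = a (x - ee)) (x : G1) :
    a x - a (x - g) = bv (yb a x) - bv (yb a (x - g)) := by
  have h := hb (x - ee)
  rw [sub_ee_ee, sub_right_comm] at h
  exact z4_d2 _ _ _ _ (hpar x) (hpar (x - g)) (hb x) h

lemma yb_inv (a : G1 → ZMod 4) (g : G1) (h : ∀ x, a x - a (x - g) = 0) (x : G1) :
    yb a (x - g) = yb a x := by
  unfold yb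
  rw [sub_right_comm, ← sub_eq_zero.mp (h x), ← sub_eq_zero.mp (h (x - ee))]

abbrev Vv (I S : Type) : Type := Option (I × S)

abbrev Uu (I S : Type) : Type := Vv I S ⊕ Unit ⊕ ((Vv I S → ZMod 2) × Vv I S × Bool)

section Model

variable {I S : Type}

open Classical in
noncomputable def bV (ω : I → S) : Vv I S → ZMod 2
  | none => 0
  | some p => if ω p.1 = p.2 then 1 else 0

noncomputable def v0 (ω : I → S) (π : Vv I S → ZMod 2) (t : ZMod 2) : Vv I S :=
  Classical.epsilon fun v => bV ω v + π v = t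

open Classical in
noncomputable def bU (ω : I → S) (t : ZMod 2) : Uu I S → ZMod 2
  | .inl v => bV ω v
  | .inr (.inl _) => t
  | .inr (.inr (π, v, b)) => if decide (v = v0 ω π t) = b then t + 1 else bV ω v + π v

def dig {Q : Type} [Zero Q] (d : S → Q) : Uu I S → Q
  | .inl (some p) => d p.2
  | _ => 0

def mk {Q : Type} [Zero Q] (r : Q) (c : ZMod 2) : ZMod 4 × Q := (bv c, if c = 1 then r else 0)

noncomputable def al0 {Q : Type} [Zero Q] (φ : ℤ × ℤ → I → S) (d : S → Q) (x : G1)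
    (u : Uu I S) : ZMod 4 × Q :=
  mk (dig d u) (bU (φ x.1) x.2.2 u + x.2.1)

def Ok (Ω : Set (I → S)) (π : Vv I S → ZMod 2) : Prop :=
  ∃ ω ∈ Ω, ∀ v, π v + π none = bV ω v

lemma v0_spec {Ω : Set (I → S)} {π : Vv I S → ZMod 2} (h : ¬ Ok Ω π) {ω : I → S} (hω : ω ∈ Ω)
    (t : ZMod 2) : bV ω (v0 ω π t) + π (v0 ω π t) = t := by
  apply Classical.epsilon_spec (p := fun v => bV ω v + π v = t)
  by_contra hc
  push Not at hc
  refine h ⟨ω, hω, fun v => ?_⟩
  have h1 := hc v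
  have h2 : (0 : ZMod 2) + π none ≠ t := hc none
  have : ∀ b p p0 t : ZMod 2, b + p ≠ t → 0 + p0 ≠ t → p + p0 = b := by decide
  exact this _ _ _ _ h1 h2

lemma bV_inj {ω ω' : I → S} {n : I} (h : ∀ σ, bV ω (some (n, σ)) = bV ω' (some (n, σ))) :
    ω n = ω' n := by
  have := h (ω n)
  simp only [bV, if_true] at this
  by_contra hc
  rw [if_neg (fun h' => hc h'.symm)] at this
  exact absurd this (by decide)

variable {Q : Type} [AddCommGroup Q] (φ : ℤ × ℤ → I → S) (d : S → Q)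

lemma al0_par (u : Uu I S) (x : G1) :
    2 * (al0 φ d x u).1 - 2 * (al0 φ d (x - ee) u).1 = 2 := by
  simp only [al0, mk, Prod.fst_sub, Prod.snd_sub, ee1, ee2, ee3, sub_zero]
  have : ∀ b s : ZMod 2, 2 * bv (b + s) - 2 * bv (b + (s - 1)) = 2 := by decide
  exact this _ _

lemma al0_bool (u : Uu I S) (g x : G1) :
    al0 φ d (x - g) u = al0 φ d x u ∨ al0 φ d (x - g) u = al0 φ d (x - ee) u := by
  have : ∀ c b s : ZMod 2, c = b + s ∨ c = b + (s - 1) := by decide
  rcases this (bU (φ (x - g).1) (x - g).2.2 u + (x - g).2.1) (bU (φ x.1) x.2.2 u) x.2.1 with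
    h | h
  · left; unfold al0; rw [h]
  · right; unfold al0; rw [h]; simp

/-- The functional of the four-term relation. -/
def l1 (π : Vv I S → ZMod 2) (v : Vv I S) (η : Uu I S → ZMod 4 × Q) : ZMod 4 :=
  sg (π v) * (η (.inl v)).1 + (η (.inr (.inl ()))).1 + (η (.inr (.inr (π, v, false)))).1 +
    (η (.inr (.inr (π, v, true)))).1

lemma l1_sub (π : Vv I S → ZMod 2) (v : Vv I S) (a b : Uu I S → ZMod 4 × Q) :
    l1 π v (a - b) = l1 π v a - l1 π v b := by
  simp only [l1, Pi.sub_apply, Prod.fst_sub]; ring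

lemma al0_l1 (π : Vv I S → ZMod 2) (v : Vv I S) (x : G1) :
    l1 π v (al0 φ d x) = 1 + bv (π v) := by
  have h1 : ∀ p b s t : ZMod 2,
      sg p * bv (b + s) + bv (t + s) + bv (b + p + s) + bv (t + 1 + s) = 1 + bv p := by decide
  have h2 : ∀ p b s t : ZMod 2,
      sg p * bv (b + s) + bv (t + s) + bv (t + 1 + s) + bv (b + p + s) = 1 + bv p := by decide
  simp only [l1, al0, mk, bU]
  by_cases hv : v = v0 (φ x.1) π x.2.2
  · rw [if_neg (by simp [← hv]), if_pos (by simp [← hv])]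
    exact h1 _ _ _ _
  · rw [if_pos (by simp [hv]), if_neg (by simp [hv])]
    exact h2 _ _ _ _

variable [Fintype I] [Fintype S]

/-- The functional of the parity relation. -/
def l2 (π : Vv I S → ZMod 2) (η : Uu I S → ZMod 4 × Q) : ZMod 4 :=
  ∑ v, (η (.inr (.inr (π, v, false)))).1 +
    ((Fintype.card (Vv I S) : ZMod 4) - 2) * (η (.inr (.inl ()))).1

lemma l2_sub (π : Vv I S → ZMod 2) (a b : Uu I S → ZMod 4 × Q) :
    l2 π (a - b) = l2 π a - l2 π b := by
  simp only [l2, Pi.sub_apply, Prod.fst_sub, Finset.sum_sub_distrib]; ring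

lemma al0_l2 {Ω : Set (I → S)} (hφ : ∀ x, φ x ∈ Ω) {π : Vv I S → ZMod 2} (h : ¬ Ok Ω π)
    (x : G1) : l2 π (al0 φ d x) = (Fintype.card (Vv I S) : ZMod 4) - 1 := by
  classical
  have h0 := v0_spec h (hφ x.1) x.2.2
  have h1 : ∀ v, (al0 φ d x (.inr (.inr (π, v, false)))).1 =
      bv (x.2.2 + 1 + x.2.1) + if v = v0 (φ x.1) π x.2.2 then sg (x.2.2 + x.2.1) else 0 := by
    intro v
    simp only [al0, mk, bU]
    by_cases hv : v = v0 (φ x.1) π x.2.2
    · rw [if_neg (by simp [← hv]), if_pos hv, hv, h0]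
      have : ∀ s t : ZMod 2, bv (t + s) = bv (t + 1 + s) + sg (t + s) := by decide
      exact this _ _
    · rw [if_pos (by simp [hv]), if_neg hv, add_zero]
  have h2 : (al0 φ d x (.inr (.inl ()))).1 = bv (x.2.2 + x.2.1) := rfl
  simp only [l2, h1, h2, Finset.sum_add_distrib, Finset.sum_const, Finset.card_univ,
    Finset.sum_ite_eq', Finset.mem_univ, if_true, nsmul_eq_mul]
  have : ∀ (c : ZMod 4) (s t : ZMod 2),
      c * bv (t + 1 + s) + sg (t + s) + (c - 2) * bv (t + s) = c - 1 := by decide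
  exact this _ _ _

/-- The digit functional. -/
def l3 (n : I) (η : Uu I S → ZMod 4 × Q) : Q := ∑ σ, (η (.inl (some (n, σ)))).2

omit [Fintype I] in
lemma l3_sub (n : I) (a b : Uu I S → ZMod 4 × Q) : l3 n (a - b) = l3 n a - l3 n b := by
  simp only [l3, Pi.sub_apply, Prod.snd_sub, Finset.sum_sub_distrib]

omit [Fintype I] in
lemma al0_l3 (n : I) (x : G1) :
    l3 n (al0 φ d x) = if x.2.1 = 0 then d (φ x.1 n) else ∑ σ, d σ - d (φ x.1 n) := by
  classical
  have hs : ∀ s : ZMod 2, s = 0 ∨ s = 1 := by decide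
  simp only [l3, al0, mk, bU, bV, dig]
  rcases hs x.2.1 with h | h
  · rw [if_pos h, h, Finset.sum_eq_single (φ x.1 n)]
    · simp
    · intro b _ hb
      rw [if_neg (Ne.symm hb)]; simp
    · simp
  · rw [if_neg (by rw [h]; decide), h, eq_sub_iff_add_eq,
      ← Finset.add_sum_erase _ _ (Finset.mem_univ (φ x.1 n)),
      ← Finset.add_sum_erase _ d (Finset.mem_univ (φ x.1 n))]
    rw [if_pos rfl, if_neg (by decide), zero_add, add_comm]
    congr 1
    refine Finset.sum_congr rfl fun b hb => ?_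
    rw [if_neg (Ne.symm (Finset.ne_of_mem_erase hb))]; simp

end Model

end Encode

open Encode in
theorem system_of_puzzle {I S : Type} [Fintype I] [Fintype S] (q : ℕ) (hq : 0 < q)
    (w : I → ℤ × ℤ) (d : S → ZMod q) (Ω : Set (I → S)) (h : Puzzle q w d Ω) :
    ∃ (G : Type) (_ : AddCommGroup G) (_ : AddGroup.FG G) (A0 T : Set G), T.Finite ∧
      ∀ A : Set G, (∀ F ⊆ T, Tiles A0 F → Tiles A F) → ¬ Per A := by
  classical
  have : NeZero q := ⟨hq.ne'⟩
  obtain ⟨⟨φ, hφ, hφi⟩, hno⟩ := h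
  let B0 : Set (ℤ × ℤ) := Set.range w ∪ ({0} ×ˢ Set.Icc (-(q : ℤ)) q)
  let B : Set G1 := B0 ×ˢ Set.univ
  have hB0 : B0.Finite :=
    (Set.finite_range w).union ((Set.finite_singleton _).prod (Set.finite_Icc _ _))
  have hBf : B.Finite := hB0.prod Set.finite_univ
  have hB1 : ∀ (j : ℤ) (r : ZMod 2 × ZMod 2), -(q : ℤ) ≤ j → j ≤ q → (((0, j), r) : G1) ∈ B :=
    fun j r h1 h2 => ⟨Or.inr ⟨rfl, h1, h2⟩, trivial⟩
  have hBz : ∀ r : ZMod 2 × ZMod 2, ((0, r) : G1) ∈ B :=
    fun r => hB1 0 r (by omega) (by omega)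
  have hBw : ∀ n, ((w n, 0) : G1) ∈ B := fun n => ⟨Or.inl ⟨n, rfl⟩, trivial⟩
  have hBe : ∀ g ∈ B, g + ee ∈ B := fun g hg => ⟨by simpa using hg.1, trivial⟩
  have h0 : (0 : G1) ∈ B := hBz 0
  have he : ee ∈ B := hBz _
  have hf : ff ∈ B := hBz _
  refine ⟨G1 × (Uu I S → ZMod 4 × ZMod q), inferInstance,
    Module.Finite.iff_addGroup_fg.mp inferInstance, {p | p.2 = al0 φ d p.1}, B ×ˢ Set.univ,
    hBf.prod Set.finite_univ, ?_⟩
  intro A hA hPer
  obtain ⟨α, rfl, hT⟩ := exists_graph (al0 φ d) B h0 A hA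
  -- inherited properties
  have hpar : ∀ u x, 2 * (α x u).1 - 2 * (α (x - ee) u).1 = 2 := fun u =>
    hT.lin (fun η => 2 * (η u).1) (fun a b => by simp [mul_sub]) h0 ee he 2 (al0_par φ d u)
  have hbool : ∀ u, ∀ g ∈ B, ∀ x, α (x - g) u = α x u ∨ α (x - g) u = α (x - ee) u :=
    fun u g hg => hT.bool (fun η => η u) (fun a b => rfl) h0 ee g he hg (hBe g hg) ee_add
      (al0_par φ d u) (al0_bool φ d u g)
  let y : G1 → Uu I S → ZMod 2 := fun x u => yb (fun x => (α x u).1) x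
  have hd1 : ∀ x u, (α x u).1 - (α (x - ee) u).1 = sg (y x u) := fun x u =>
    yb_d1 (fun x => (α x u).1) (hpar u) x
  have hd2 : ∀ g ∈ B, ∀ x u, (α x u).1 - (α (x - g) u).1 = bv (y x u) - bv (y (x - g) u) :=
    fun g hg x u => yb_d2 (fun x => (α x u).1) (hpar u) g
      (fun x => (hbool u g hg x).imp (congrArg Prod.fst) (congrArg Prod.fst)) x
  have hinv : ∀ u, ∀ g ∈ B, (∀ x, bU (φ (x - g).1) (x - g).2.2 u = bU (φ x.1) x.2.2 u) →
      g.2.1 = 0 → ∀ x, y (x - g) u = y x u := by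
    intro u g hg h1 h2
    refine yb_inv (fun x => (α x u).1) g
      (hT.lin (fun η => (η u).1) (fun a b => rfl) h0 g hg 0 fun x => ?_)
    have h3 : (x - g).2.1 = x.2.1 := by rw [Prod.snd_sub, Prod.fst_sub, h2, sub_zero]
    simp only [al0, h1, h3, sub_self]
  have hyf : ∀ v x, y (x - ff) (.inl v) = y x (.inl v) := fun v =>
    hinv _ ff hf (fun x => by simp [bU]) rfl
  have hrf : ∀ x, y (x - ff) (.inr (.inl ())) = y x (.inr (.inl ())) + 1 := by
    intro x
    have h1 := hT.lin (fun η => 2 * (η (.inr (.inl ()))).1) (fun a b => by simp [mul_sub])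
      h0 ff hf 2 (fun x => by
        simp only [al0, mk, bU, Prod.fst_sub, Prod.snd_sub, ff2, ff3, sub_zero]
        have : ∀ t s : ZMod 2, 2 * bv (t + s) - 2 * bv (t - 1 + s) = 2 := by decide
        exact this _ _) x
    rw [← mul_sub, hd2 ff hf] at h1
    have : ∀ a b : ZMod 2, 2 * (bv a - bv b) = 2 → b = a + 1 := by decide
    exact this _ _ h1
  have hr1 : ∀ π v, ∀ g ∈ B, ∀ x, l1 π v (α x) - l1 π v (α (x - g)) = 0 := fun π v g hg =>
    hT.lin (l1 π v) (l1_sub π v) h0 g hg 0 fun x => by rw [al0_l1, al0_l1, sub_self]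
  have hr2 : ∀ π, ¬ Ok Ω π → ∀ x, l2 π (α x) - l2 π (α (x - ee)) = 0 := fun π hπ =>
    hT.lin (l2 π) (l2_sub π) h0 ee he 0 fun x => by
      rw [al0_l2 φ d hφ.1 hπ, al0_l2 φ d hφ.1 hπ, sub_self]
  have hok1 : ∀ x, y x (.inr (.inl ())) = 1 → Ok Ω fun v => y x (.inl v) := by
    intro x hρ
    by_contra hπ
    set π : Vv I S → ZMod 2 := fun v => y x (.inl v) with hπd
    have hz : ∀ v, y x (.inr (.inr (π, v, false))) = 0 := by
      intro v
      have e1 := hr1 π v ee he (x - ff)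
      have e2 := hr1 π v ff hf x
      rw [← l1_sub] at e1 e2
      simp only [l1, Pi.sub_apply, Prod.fst_sub] at e1 e2
      simp only [hd1] at e1
      simp only [hd2 ff hf] at e2
      rw [hyf, hrf, hρ] at e1 e2
      have hv : y x (.inl v) = π v := rfl
      rw [hv] at e1 e2
      have : ∀ p z z' z1 z1' : ZMod 2, sg p * sg p + sg (1 + 1) + sg z1 + sg z1' = 0 →
          sg p * (bv p - bv p) + (bv 1 - bv (1 + 1)) + (bv z - bv z1) + (bv z' - bv z1') = 0 →
          z = 0 := by decide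
      exact this _ _ _ _ _ e1 e2
    have e3 := hr2 π hπ x
    rw [← l2_sub] at e3
    simp only [l2, Pi.sub_apply, Prod.fst_sub, hd1, hz, hρ, Finset.sum_const, Finset.card_univ,
      nsmul_eq_mul] at e3
    have : ∀ c : ZMod 4, ¬ c * sg 0 + (c - 2) * sg 1 = 0 := by decide
    exact this _ e3
  have hok : ∀ x, Ok Ω fun v => y x (.inl v) := by
    intro x
    by_cases hρ : y x (.inr (.inl ())) = 1
    · exact hok1 x hρ
    · have h1 : y (x - ff) (.inr (.inl ())) = 1 := by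
        rw [hrf]
        have : ∀ a : ZMod 2, a ≠ 1 → a + 1 = 1 := by decide
        exact this _ hρ
      have h2 := hok1 _ h1
      simpa only [hyf] using h2
  choose ψ hψΩ hψ using fun x0 : ℤ × ℤ => hok (x0, 0)
  simp only at hψ
  have hnone : ∀ g ∈ B, g.2.1 = 0 → ∀ x, y (x - g) (.inl none) = y x (.inl none) :=
    fun g hg h2 => hinv _ g hg (fun x => rfl) h2
  have hsol : Sol w Ω ψ := by
    refine ⟨hψΩ, fun x n => bV_inj fun σ => ?_⟩
    rw [← hψ, ← hψ]
    have e1 : ((x, 0) : G1) = (x + w n, 0) - (w n, 0) := by simp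
    rw [e1, hnone _ (hBw n) rfl, hinv (.inl (some (n, σ))) _ (hBw n) (fun x => ?_) rfl]
    have := hφ.2 (x.1 - w n) n
    rw [sub_add_cancel] at this
    simp only [bU, bV, Prod.fst_sub, this]
  have hinj : ∀ x n, Function.Injective fun k : Fin q => ψ (x + (0, ((k : ℕ) : ℤ))) n := by
    intro x n k k' hk
    simp only at hk
    have hp := hT.perm (Z := ZMod q) (κ := Fin q) (by simp) (l3 n) (l3_sub n)
      (fun k => (((0, -((k : ℕ) : ℤ)), 0) : G1))
      (fun k => hB1 _ _ (by have := k.2; omega) (by omega))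
      (fun k k' hk => by
        simp only [Prod.mk.injEq, neg_inj, Nat.cast_inj, true_and, and_true] at hk
        exact Fin.ext hk)
      (fun x k k' hk => by
        simp only [al0_l3, Prod.snd_sub, Prod.fst_sub, sub_zero] at hk
        have e1 : ∀ j : ℤ, x.1 - (0, -j) = x.1 + (0, j) := fun j => by ext <;> simp
        rw [e1, e1] at hk
        apply hφi x.1 n
        simp only
        split_ifs at hk
        · exact hk
        · exact sub_right_injective hk) (x, 0)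
    apply hp
    have e1 : ∀ j : ℤ, ((x, 0) : G1) - ((0, -j), 0) = (x + (0, j), 0) := fun j => by
      ext <;> simp
    simp only [e1, l3]
    refine Finset.sum_congr rfl fun σ _ => ?_
    let g : G1 := ((0, ((k : ℕ) : ℤ) - ((k' : ℕ) : ℤ)), 0)
    have hg : g ∈ B := hB1 _ _ (by have := k'.2; omega) (by have := k.2; omega)
    have e2 : ((x + (0, ((k' : ℕ) : ℤ)), 0) : G1) = (x + (0, ((k : ℕ) : ℤ)), 0) - g := by
      refine Prod.ext (Prod.ext ?_ ?_) ?_
      · simp [g]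
      · simp only [g, Prod.fst_sub, Prod.snd_sub, Prod.snd_add]; ring
      · simp [g]
    have a1 := hψ (x + (0, ((k : ℕ) : ℤ))) (some (n, σ))
    have a2 := hψ (x + (0, ((k' : ℕ) : ℤ))) (some (n, σ))
    have a3 : bV (ψ (x + (0, ((k : ℕ) : ℤ)))) (some (n, σ)) =
        bV (ψ (x + (0, ((k' : ℕ) : ℤ)))) (some (n, σ)) := by simp only [bV, hk]
    rw [e2, hnone g hg rfl, ← a3, ← a1, add_left_inj] at a2
    rw [e2]
    rcases hbool (.inl (some (n, σ))) g hg (x + (0, ((k : ℕ) : ℤ)), 0) with h1 | h1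
    · rw [h1]
    · exfalso
      have a4 := hd2 g hg (x + (0, ((k : ℕ) : ℤ)), 0) (.inl (some (n, σ)))
      rw [h1, hd1, a2, sub_self] at a4
      have : ∀ a : ZMod 2, sg a ≠ 0 := by decide
      exact this _ a4
  obtain ⟨N, hN, hper⟩ := hPer
  have hα : ∀ x g : G1, α (x + N • g) = α x := by
    intro x g
    have := hper (x, α x) rfl (g, 0)
    simpa using this.symm
  refine hno ψ hsol hinj N hN fun x g => funext fun n => bV_inj fun σ => ?_
  rw [← hψ, ← hψ]
  have e1 : ((x + N • g, 0) : G1) = (x, 0) + N • (g, 0) := by simp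
  have e2 : ∀ u, y (x + N • g, 0) u = y (x, 0) u := by
    intro u
    rw [e1]
    simp only [y, yb, add_sub_right_comm _ _ ee, hα]
  rw [e2, e2]

end Pool.Agent.H790Z.PT
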