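import Pool.Agent.H790Z.PT.Defs

/-!
Transfer lemmas: properties of a function `α0 : G → H` that are inherited by every function
`α` solving all tiling equations (supported in a fixed set) which `α0` solves.
-/

set_option autoImplicit false

namespace Pool.Agent.H790Z.PT.Encode

section Generic

variable {G H : Type} [AddCommGroup G] [AddCommGroup H]

/-- The sets `α (x - y) + E y` partition `H` for every `x`. -/
def Solves (α : G → H) (E : G → Set H) : Prop :=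
  ∀ x η, ∃! y, η - α (x - y) ∈ E y

/-- `α` solves every equation supported in `B` which `α0` solves. -/
def Tr (α0 α : G → H) (B : Set G) : Prop :=
  ∀ E : G → Set H, (∀ y η, η ∈ E y → y ∈ B) → Solves α0 E → Solves α E

lemma tiles_iff (α : G → H) (E : G → Set H) :
    Tiles {p : G × H | p.2 = α p.1} {p : G × H | p.2 ∈ E p.1} ↔ Solves α E := by
  constructor
  · intro h x η
    obtain ⟨a, ⟨ha, ha'⟩, hu⟩ := h (x, η)
    simp only [Set.mem_ofPred_eq, Prod.fst_sub, Prod.snd_sub] at ha ha' hu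
    refine ⟨x - a.1, ?_, ?_⟩
    · simp only [sub_sub_cancel]
      rw [← ha]; exact ha'
    · intro y hy
      have := hu (x - y, α (x - y)) ⟨rfl, by simpa using hy⟩
      rw [← this]; simp
  · intro h p
    obtain ⟨y, hy, hu⟩ := h p.1 p.2
    refine ⟨(p.1 - y, α (p.1 - y)), ⟨rfl, by simpa using hy⟩, ?_⟩
    rintro a ⟨ha, ha'⟩
    simp only [Set.mem_ofPred_eq, Prod.fst_sub, Prod.snd_sub] at ha ha'
    have := hu (p.1 - a.1) (by simp only [sub_sub_cancel]; rw [← ha]; exact ha')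
    rw [← this]
    ext
    · simp
    · simp [ha]

lemma exists_graph (α0 : G → H) (B : Set G) (h0 : (0 : G) ∈ B) (A : Set (G × H))
    (hA : ∀ F ⊆ B ×ˢ (Set.univ : Set H), Tiles {p : G × H | p.2 = α0 p.1} F → Tiles A F) :
    ∃ α : G → H, A = {p : G × H | p.2 = α p.1} ∧ Tr α0 α B := by
  have h1 : Tiles A {p : G × H | p.2 ∈ (fun y => {_η : H | y = 0}) p.1} := by
    apply hA
    · rintro p hp
      simp only [Set.mem_ofPred_eq] at hp
      exact ⟨hp ▸ h0, trivial⟩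
    · refine (tiles_iff α0 (fun y => {_η : H | y = 0})).mpr ?_
      intro x η
      exact ⟨0, rfl, fun y hy => hy⟩
  have h2 : ∀ x : G, ∃! a, a ∈ A ∧ a.1 = x := by
    intro x
    obtain ⟨a, ⟨ha, ha'⟩, hu⟩ := h1 (x, 0)
    simp only [Set.mem_ofPred_eq, Prod.fst_sub] at ha' hu
    refine ⟨a, ⟨ha, (sub_eq_zero.mp ha').symm⟩, ?_⟩
    rintro b ⟨hb, hb'⟩
    exact hu b ⟨hb, by rw [hb']; simp⟩
  choose s hs hsu using h2
  have hAeq : A = {p : G × H | p.2 = (s p.1).2} := by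
    ext p
    simp only [Set.mem_ofPred_eq]
    constructor
    · intro hp
      rw [← hsu p.1 p ⟨hp, rfl⟩]
    · intro hp
      have : p = s p.1 := Prod.ext (hs p.1).2.symm hp
      rw [this]; exact (hs p.1).1
  refine ⟨fun x => (s x).2, hAeq, ?_⟩
  intro E hE hS
  rw [← tiles_iff, ← hAeq]
  apply hA
  · intro p hp
    exact ⟨hE _ _ hp, trivial⟩
  · exact (tiles_iff α0 E).mpr hS

lemma Tr.lin {α0 α : G → H} {B : Set G} (h : Tr α0 α B) {Z : Type} [AddCommGroup Z]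
    (l : H → Z) (hl : ∀ a b, l (a - b) = l a - l b) (h0 : (0 : G) ∈ B) (g : G) (hg : g ∈ B)
    (c : Z) (hc : ∀ x, l (α0 x) - l (α0 (x - g)) = c) (x : G) :
    l (α x) - l (α (x - g)) = c := by
  have hS := h (fun y => {η | (y = 0 ∧ l η ≠ 0) ∨ (y = g ∧ l η = c)}) ?_ ?_
  · obtain ⟨y, hy, -⟩ := hS x (α x)
    rcases hy with ⟨rfl, hy⟩ | ⟨rfl, hy⟩
    · exfalso; apply hy; rw [hl]; simp
    · rw [← hl]; exact hy
  · rintro y η (⟨rfl, -⟩ | ⟨rfl, -⟩)
    · exact h0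
    · exact hg
  · intro x η
    by_cases hx : l η = l (α0 x)
    · refine ⟨g, Or.inr ⟨rfl, ?_⟩, ?_⟩
      · rw [hl, hx, hc]
      · rintro y (⟨rfl, hy⟩ | ⟨rfl, -⟩)
        · exfalso; apply hy; rw [hl, hx]; simp
        · rfl
    · refine ⟨0, Or.inl ⟨rfl, ?_⟩, ?_⟩
      · rw [hl, sub_zero]; exact sub_ne_zero.mpr hx
      · rintro y (⟨rfl, -⟩ | ⟨rfl, hy⟩)
        · rfl
        · exfalso; apply hx
          rw [hl, ← hc x] at hy
          exact sub_left_injective hy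

lemma Tr.perm {α0 α : G → H} {B : Set G} (h : Tr α0 α B) {Z κ : Type} [AddCommGroup Z]
    [Fintype Z] [Fintype κ] (hcard : Fintype.card κ = Fintype.card Z)
    (l : H → Z) (hl : ∀ a b, l (a - b) = l a - l b) (g : κ → G) (hg : ∀ k, g k ∈ B)
    (hgi : Function.Injective g)
    (hc : ∀ x, Function.Injective fun k => l (α0 (x - g k))) (x : G) :
    Function.Injective fun k => l (α (x - g k)) := by
  have hS := h (fun y => {η | (∃ k, y = g k) ∧ l η = 0}) ?_ ?_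
  · intro k k' hk
    simp only at hk
    obtain ⟨y, -, hu⟩ := hS x (α (x - g k))
    have h1 := hu (g k) ⟨⟨k, rfl⟩, by rw [hl, sub_self]⟩
    have h2 := hu (g k') ⟨⟨k', rfl⟩, by rw [hl, hk, sub_self]⟩
    exact hgi (h1.trans h2.symm)
  · rintro y η ⟨⟨k, rfl⟩, -⟩
    exact hg k
  · intro x η
    have hb := (Fintype.bijective_iff_injective_and_card _).mpr ⟨hc x, hcard⟩
    obtain ⟨k, hk⟩ := hb.2 (l η)
    simp only at hk
    refine ⟨g k, ⟨⟨k, rfl⟩, by rw [hl, hk, sub_self]⟩, ?_⟩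
    rintro y ⟨⟨k', rfl⟩, hy⟩
    rw [hl, ← hk, sub_eq_zero] at hy
    rw [hc x hy]

lemma z4_par : ∀ a b c : ZMod 4, 2 * b - 2 * c = 2 → (2 * (a - b) = 0 ↔ ¬ 2 * (a - c) = 0) := by
  decide

lemma z4_ne : ∀ b : ZMod 4, ¬ 2 * b - 2 * b = 2 := by
  decide

lemma Tr.bool {α0 α : G → H} {B : Set G} (h : Tr α0 α B) {Q : Type} [AddCommGroup Q]
    (p : H → ZMod 4 × Q) (hp : ∀ a b, p (a - b) = p a - p b) (h0 : (0 : G) ∈ B)
    (e g : G) (he : e ∈ B) (hg : g ∈ B) (hge : g + e ∈ B) (hee : e + e = 0)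
    (hpar : ∀ x, 2 * (p (α0 x)).1 - 2 * (p (α0 (x - e))).1 = 2)
    (hc : ∀ x, p (α0 (x - g)) = p (α0 x) ∨ p (α0 (x - g)) = p (α0 (x - e))) (x : G) :
    p (α (x - g)) = p (α x) ∨ p (α (x - g)) = p (α (x - e)) := by
  have hpar' : ∀ x, 2 * (p (α x)).1 - 2 * (p (α (x - e))).1 = 2 :=
    h.lin (fun η => 2 * (p η).1) (fun a b => by rw [hp, Prod.fst_sub, mul_sub]) h0 e he 2 hpar
  have hS := h (fun y => {η | (y = 0 ∧ p η = 0) ∨ (y = e ∧ p η = 0) ∨
    (y = g ∧ p η ≠ 0 ∧ 2 * (p η).1 = 0) ∨ (y = g + e ∧ p η ≠ 0 ∧ 2 * (p η).1 = 0)}) ?_ ?_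
  · obtain ⟨y, hy, -⟩ := hS x (α (x - g))
    rcases hy with ⟨rfl, hy⟩ | ⟨rfl, hy⟩ | ⟨rfl, hy, -⟩ | ⟨rfl, -, hy⟩
    · left; rw [hp, sub_zero, sub_eq_zero] at hy; exact hy
    · right; rw [hp, sub_eq_zero] at hy; exact hy
    · exfalso; apply hy; rw [hp, sub_self]
    · exfalso
      have := hpar' (x - g)
      rw [hp, Prod.fst_sub, mul_sub, ← sub_sub, this] at hy
      exact absurd hy (by decide)
  · rintro y η (⟨rfl, -⟩ | ⟨rfl, -⟩ | ⟨rfl, -⟩ | ⟨rfl, -⟩)
    · exact h0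
    · exact he
    · exact hg
    · exact hge
  · intro x η
    have e1 : x - e - e = x := by rw [sub_sub, hee, sub_zero]
    have e2 : x - e - g = x - (g + e) := by abel
    have e3 : x - g - e = x - (g + e) := by abel
    have h1 := hpar x
    have h2 := hpar (x - g)
    have h3 := hc x
    have h4 := hc (x - e)
    rw [e1, e2] at h4
    rw [e3] at h2
    have key : ∀ y, η - α0 (x - y) ∈ {η | (y = 0 ∧ p η = 0) ∨ (y = e ∧ p η = 0) ∨
        (y = g ∧ p η ≠ 0 ∧ 2 * (p η).1 = 0) ∨ (y = g + e ∧ p η ≠ 0 ∧ 2 * (p η).1 = 0)} ↔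
        (y = 0 ∧ p η = p (α0 x)) ∨ (y = e ∧ p η = p (α0 (x - e))) ∨
        (y = g ∧ p η ≠ p (α0 (x - g)) ∧ 2 * ((p η).1 - (p (α0 (x - g))).1) = 0) ∨
        (y = g + e ∧ p η ≠ p (α0 (x - (g + e))) ∧
          2 * ((p η).1 - (p (α0 (x - (g + e)))).1) = 0) := by
      intro y
      simp only [Set.mem_ofPred_eq, hp, sub_eq_zero, ne_eq, Prod.fst_sub]
      refine or_congr ?_ (or_congr ?_ (or_congr ?_ ?_)) <;>
        refine and_congr_right ?_ <;> rintro rfl
      · rw [sub_zero]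
      · rfl
      · rfl
      · rfl
    simp only [key]
    generalize p η = k at *
    generalize p (α0 x) = k0 at *
    generalize p (α0 (x - e)) = k1 at *
    generalize p (α0 (x - g)) = k2 at *
    generalize p (α0 (x - (g + e))) = k3 at *
    have n01 : k0 ≠ k1 := by rintro rfl; exact z4_ne _ h1
    have n23 : k2 ≠ k3 := by rintro rfl; exact z4_ne _ h2
    have hz := z4_par k.1 _ _ h2
    have hz2 : k = k2 → 2 * (k.1 - k2.1) = 0 := by rintro rfl; simp
    have hz3 : k = k3 → 2 * (k.1 - k3.1) = 0 := by rintro rfl; simp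
    have h01 : k = k0 → k = k2 ∨ k = k3 := by grind
    have h11 : k = k1 → k = k2 ∨ k = k3 := by grind
    by_cases c0 : k = k0
    · refine ⟨0, Or.inl ⟨rfl, c0⟩, ?_⟩
      intro y hy
      grind
    by_cases c1 : k = k1
    · refine ⟨e, Or.inr (Or.inl ⟨rfl, c1⟩), ?_⟩
      intro y hy
      grind
    by_cases c2 : 2 * (k.1 - k2.1) = 0
    · refine ⟨g, Or.inr (Or.inr (Or.inl ⟨rfl, by grind, c2⟩)), ?_⟩
      intro y hy
      grind
    · refine ⟨g + e, Or.inr (Or.inr (Or.inr ⟨rfl, by grind, by grind⟩)), ?_⟩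
      intro y hy
      grind

end Generic

end Pool.Agent.H790Z.PT.Encode
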