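import Pool.Agent.H790Z.PT.Defs

/-!
Lifting an aperiodic tile from a finitely generated abelian group to `ℤ^d`, with a hub point.
-/

set_option autoImplicit false

namespace Pool.Agent.H790Z.PT

namespace Lift

theorem aper_image {G G' : Type} [AddCommGroup G] [AddCommGroup G'] (e : G ≃+ G') {F : Set G}
    (h : Aper F) : Aper (e '' F) := by
  obtain ⟨h1, ⟨A, hA⟩, h3⟩ := h
  have mem : ∀ (B : Set G) (x : G'), x ∈ e '' B ↔ e.symm x ∈ B := by
    intro B x
    constructor
    · rintro ⟨y, hy, rfl⟩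
      simpa using hy
    · intro hx
      exact ⟨_, hx, by simp⟩
  refine ⟨h1.image _, ⟨e '' A, fun x => ?_⟩, fun A' hA' hP => h3 (e ⁻¹' A') (fun x => ?_) ?_⟩
  · obtain ⟨a, ⟨ha1, ha2⟩, hu⟩ := hA (e.symm x)
    refine ⟨e a, ⟨⟨a, ha1, rfl⟩, by rw [mem]; simpa using ha2⟩, ?_⟩
    rintro b ⟨hb1, hb2⟩
    rw [mem] at hb1 hb2
    rw [← hu (e.symm b) ⟨hb1, by simpa using hb2⟩]
    simp
  · obtain ⟨a, ⟨ha1, ha2⟩, hu⟩ := hA' (e x)
    rw [mem] at ha2
    refine ⟨e.symm a, ⟨by simpa using ha1, by simpa using ha2⟩, ?_⟩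
    rintro b ⟨hb1, hb2⟩
    rw [← hu (e b) ⟨hb1, by rw [mem]; simpa using hb2⟩]
    simp
  · obtain ⟨N, hN, hP⟩ := hP
    refine ⟨N, hN, fun a ha g => ?_⟩
    have := hP (e a) ha (e g)
    simpa using this

open Classical in
/-- the sections -/
noncomputable def sec {G G' : Type} [AddCommGroup G'] (s : G → G') (l : G') (f0 : G) (f : G)
    (t : ℤ) : G' := if f = f0 ∧ t = 2 then s f - l else s f

/-- the lifted tile -/
def liftSet {G G' : Type} [AddCommGroup G'] (s : G → G') (l : G') (f0 : G) (F : Set G) :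
    Set (G' × ℤ) := {p | ∃ f ∈ F, 0 ≤ p.2 ∧ p.2 < 5 ∧ p.1 = sec s l f0 f p.2}

theorem step {G G' : Type} [AddCommGroup G] [AddCommGroup G'] (φ : G' →+ G) (s : G → G')
    (hs : ∀ x, φ (s x) = x) (l : G') (hl : ∀ x, φ x = 0 ↔ x ∈ AddSubgroup.zmultiples l)
    {F : Set G} (h : Aper F) {f0 : G} (hf0 : f0 ∈ F) : Aper (liftSet s l f0 F) := by
  obtain ⟨h1, ⟨A, hA⟩, h3⟩ := h
  have hl0 : φ l = 0 := (hl l).2 (AddSubgroup.mem_zmultiples l)
  have hsec : ∀ f t, φ (sec s l f0 f t) = f := by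
    intro f t
    unfold sec
    split_ifs <;> simp [hs, hl0]
  refine ⟨?_, ⟨{p | φ p.1 ∈ A ∧ p.2 % 5 = 0}, ?_⟩, ?_⟩
  · refine ((h1.prod (Set.finite_Ico (0 : ℤ) 5)).image
      (fun q => (sec s l f0 q.1 q.2, q.2))).subset ?_
    rintro ⟨x, t⟩ ⟨f, hf, h0, h5, hx⟩
    exact ⟨(f, t), ⟨hf, h0, h5⟩, Prod.ext hx.symm rfl⟩
  · rintro ⟨x, n⟩
    obtain ⟨a, ⟨ha1, ha2⟩, hu⟩ := hA (φ x)
    refine ⟨(x - sec s l f0 (φ x - a) (n % 5), n - n % 5), ⟨⟨by simpa [hsec] using ha1,
      by show (n - n % 5) % 5 = 0; omega⟩, φ x - a, ha2, ?_, ?_, ?_⟩, ?_⟩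
    · show 0 ≤ n - (n - n % 5)
      omega
    · show n - (n - n % 5) < 5
      omega
    · show x - (x - _) = sec s l f0 (φ x - a) (n - (n - n % 5))
      rw [sub_sub_cancel, sub_sub_cancel]
    · rintro ⟨b, m⟩ ⟨⟨hb1, hb2⟩, f, hf, h0, h5, hx⟩
      simp only [Prod.snd_sub, Prod.fst_sub] at hb1 hb2 h0 h5 hx
      have e1 : φ x - φ b = f := by rw [← map_sub, hx, hsec]
      have e2 : φ b = a := hu (φ b) ⟨hb1, e1 ▸ hf⟩
      have e3 : n - m = n % 5 := by omega
      rw [← e2, e1, ← e3, ← hx]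
      simp
  · rintro B hB ⟨N, hN, hP⟩
    have hadd : ∀ a n, (a, n) ∈ B → (a + l, n) ∈ B := by
      intro a n han
      obtain ⟨⟨b, m⟩, ⟨hb, f, hf, h0, h5, hx⟩, -⟩ := hB (a + s f0, n + 2)
      simp only [Prod.snd_sub, Prod.fst_sub] at h0 h5 hx
      by_cases hc : f = f0 ∧ n + 2 - m = 2
      · rw [sec, if_pos hc, hc.1] at hx
        have e1 : b = a + l := by
          have : b = a + s f0 - (s f0 - l) := by rw [← hx]; abel
          rw [this]; abel
        have e2 : m = n := by omega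
        rw [← e1, ← e2]
        exact hb
      · rw [sec, if_neg hc] at hx
        obtain ⟨δ, hδ, k0, k5, kc⟩ : ∃ δ : ℤ, (δ = 1 ∨ δ = -1) ∧ 0 ≤ n + 2 + δ - m ∧
            n + 2 + δ - m < 5 ∧ n + 2 + δ - m ≠ 2 := by
          by_cases c : n + 2 - m = 0 ∨ n + 2 - m = 3
          · exact ⟨1, Or.inl rfl, by omega, by omega, by omega⟩
          · exact ⟨-1, Or.inr rfl, by omega, by omega, by omega⟩
        have e := (hB (a + s f0, n + 2 + δ)).unique (y₁ := (b, m)) (y₂ := (a, n))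
          ⟨hb, f, hf, k0, k5, by
            show a + s f0 - b = sec s l f0 f (n + 2 + δ - m)
            rw [sec, if_neg (fun h => kc h.2), hx]⟩
          ⟨han, f0, hf0, by show 0 ≤ n + 2 + δ - n; omega, by show n + 2 + δ - n < 5; omega, by
            show a + s f0 - a = sec s l f0 f0 (n + 2 + δ - n)
            rw [sec, if_neg (fun h => by have := h.2; omega), add_sub_cancel_left]⟩
        obtain ⟨rfl, rfl⟩ := Prod.mk.inj e
        exfalso
        apply hc
        rw [add_sub_cancel_left] at hx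
        exact ⟨by rw [← hs f, ← hx, hs], by omega⟩
    have hnat : ∀ (k : ℕ) a n, (a, n) ∈ B → (a + k • l, n) ∈ B := by
      intro k
      induction k with
      | zero => intro a n h; simpa using h
      | succ k ih =>
        intro a n h
        rw [succ_nsmul, ← add_assoc]
        exact hadd _ _ (ih a n h)
    have hker : ∀ a a' n, (a, n) ∈ B → φ a' = φ a → (a', n) ∈ B := by
      intro a a' n h he
      obtain ⟨k, hk⟩ := AddSubgroup.mem_zmultiples_iff.1
        ((hl (a' - a)).1 (by rw [map_sub, he, sub_self]))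
      have e1 := hP (a, n) h (-(k.natAbs • l), 0)
      have e2 := hnat (k + N * k.natAbs).toNat _ _ e1
      have e3 : ((k + N * k.natAbs).toNat : ℤ) = k + N * k.natAbs := by
        apply Int.toNat_of_nonneg
        have : (k.natAbs : ℤ) ≤ N * k.natAbs :=
          le_mul_of_one_le_left (by positivity) (by exact_mod_cast hN)
        omega
      convert e2 using 2
      · rw [← natCast_zsmul l (k + N * k.natAbs).toNat, e3, add_smul, hk, mul_smul, natCast_zsmul,
          natCast_zsmul]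
        simp only [Prod.smul_fst, smul_neg]
        abel
      · simp
    refine h3 {x | ∃ a t, 0 ≤ t ∧ t < 5 ∧ (a, -t) ∈ B ∧ φ a = x} (fun x => ?_) ⟨N, hN, ?_⟩
    · obtain ⟨⟨b, m⟩, ⟨hb, f, hf, h0, h5, hx⟩, hu⟩ := hB (s x, 0)
      simp only [Prod.snd_sub, Prod.fst_sub] at h0 h5 hx
      refine ⟨φ b, ⟨⟨b, 0 - m, h0, h5, by simpa using hb, rfl⟩, ?_⟩, ?_⟩
      · rw [← hs x, ← map_sub, hx, hsec]
        exact hf
      · rintro _ ⟨⟨a, t, t0, t5, ha, rfl⟩, hf'⟩
        have e1 : φ (s x - sec s l f0 (x - φ a) t) = φ a := by simp [hs, hsec]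
        have e2 := hu (s x - sec s l f0 (x - φ a) t, -t) ⟨hker _ _ _ ha e1, x - φ a, hf',
          by simpa using t0, by simpa using t5, by simp⟩
        rw [← e1, (Prod.mk.inj e2).1]
    · rintro _ ⟨a, t, t0, t5, ha, rfl⟩ g
      refine ⟨a + N • s g, t, t0, t5, ?_, by simp [hs]⟩
      simpa using hP _ ha (s g, 0)

theorem Aper.nonempty' {G : Type} [AddCommGroup G] {F : Set G} (h : Aper F) : F.Nonempty := by
  obtain ⟨-, ⟨A, hA⟩, -⟩ := h
  obtain ⟨a, ⟨-, ha⟩, -⟩ := hA 0
  exact ⟨_, ha⟩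

theorem step' {G G' : Type} [AddCommGroup G] [AddCommGroup G'] (φ : G' →+ G)
    (hφ : Function.Surjective φ) (l : G') (hl : ∀ x, φ x = 0 ↔ x ∈ AddSubgroup.zmultiples l)
    {F : Set G} (h : Aper F) : ∃ F' : Set (G' × ℤ), Aper F' := by
  obtain ⟨f0, hf0⟩ := Aper.nonempty' h
  exact ⟨_, step φ (Function.surjInv hφ) (Function.surjInv_eq hφ) l hl h hf0⟩

theorem lift_list {G : Type} [AddCommGroup G] {F : Set G} (h : Aper F) :
    ∀ (n : ℕ) (G' : Type) [AddCommGroup G'] (L : List G') (φ : G' →+ G), L.length = n →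
      Function.Surjective φ → φ.ker = AddSubgroup.closure {x | x ∈ L} →
      ∃ (H : Type) (_ : AddCommGroup H) (_ : Module.Free ℤ H) (_ : Module.Finite ℤ H)
        (F' : Set (G' × H)), Aper F' := by
  intro n
  induction n with
  | zero =>
    intro G' _ L φ hL hφ hk
    rw [List.length_eq_zero_iff] at hL
    subst hL
    obtain ⟨F', hF'⟩ := step' φ hφ 0 (fun x => by
      rw [← AddMonoidHom.mem_ker, hk]
      simp) h
    exact ⟨ℤ, inferInstance, inferInstance, inferInstance, F', hF'⟩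
  | succ n ih =>
    intro G' _ L φ hL hφ hk
    obtain ⟨l, L, rfl⟩ := List.exists_cons_of_length_eq_add_one hL
    have hl : AddSubgroup.zmultiples l ≤ φ.ker := by
      apply AddSubgroup.zmultiples_le_of_mem
      rw [hk]
      exact AddSubgroup.subset_closure (by simp)
    let π := QuotientAddGroup.mk' (AddSubgroup.zmultiples l)
    let ψ := QuotientAddGroup.lift (AddSubgroup.zmultiples l) φ hl
    obtain ⟨H, _, _, _, F', hF'⟩ := ih _ (L.map π) ψ (by simpa using hL)
      (fun x => by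
        obtain ⟨y, rfl⟩ := hφ x
        exact ⟨π y, rfl⟩)
      (by
        rw [QuotientAddGroup.ker_lift, hk, AddMonoidHom.map_closure]
        apply le_antisymm
        · rw [AddSubgroup.closure_le]
          rintro _ ⟨x, hx, rfl⟩
          rcases List.mem_cons.1 hx with rfl | hx
          · have : π x = 0 := (QuotientAddGroup.eq_zero_iff x).2 (AddSubgroup.mem_zmultiples x)
            exact this ▸ AddSubgroup.zero_mem _
          · exact AddSubgroup.subset_closure (List.mem_map_of_mem hx)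
        · apply AddSubgroup.closure_mono
          intro y hy
          obtain ⟨x, hx, rfl⟩ := List.mem_map.1 hy
          exact ⟨x, List.mem_cons_of_mem _ hx, rfl⟩)
    obtain ⟨F'', hF''⟩ := step' (π.prodMap (AddMonoidHom.id H))
      (Function.Surjective.prodMap (QuotientAddGroup.mk'_surjective _) Function.surjective_id)
      (l, 0) (by
        rintro ⟨x, y⟩
        rw [AddSubgroup.mem_zmultiples_iff]
        constructor
        · intro h0
          have h1 : π x = 0 := congrArg Prod.fst h0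
          have h2 : y = 0 := congrArg Prod.snd h0
          obtain ⟨k, hk⟩ := AddSubgroup.mem_zmultiples_iff.1 ((QuotientAddGroup.eq_zero_iff x).1 h1)
          exact ⟨k, by simp [hk, h2]⟩
        · rintro ⟨k, hk⟩
          have h1 : k • l = x := congrArg Prod.fst hk
          have h2 : k • (0 : H) = y := congrArg Prod.snd hk
          refine Prod.ext ((QuotientAddGroup.eq_zero_iff x).2 ⟨k, h1⟩) ?_
          simpa using h2.symm) hF'
    exact ⟨H × ℤ, inferInstance, inferInstance, inferInstance, _,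
      aper_image AddEquiv.prodAssoc hF''⟩

end Lift

theorem aper_lift {G : Type} [AddCommGroup G] [AddGroup.FG G] (F0 : Set G) (h : Aper F0) :
    ∃ (d : ℕ) (F : Set (Fin d → ℤ)) (c : Fin d) (g : Fin d → ℤ),
      Aper F ∧ g ∈ F ∧ g c = -1 ∧ ∀ f ∈ F, f ≠ g → f c = 0 := by
  haveI : Module.Finite ℤ G := Module.Finite.iff_addGroup_fg.2 inferInstance
  obtain ⟨k, φ, hφ⟩ := Module.Finite.exists_fin' ℤ G
  obtain ⟨S, hS⟩ := IsNoetherian.noetherian (LinearMap.ker φ)
  obtain ⟨H, _, _, _, F1, hF1⟩ := Lift.lift_list h _ (Fin k → ℤ) S.toList φ.toAddMonoidHom rfl hφ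
    (by
      have e : {x | x ∈ S.toList} = (S : Set (Fin k → ℤ)) := by ext x; simp
      rw [e, ← Submodule.span_int_eq_addSubgroupClosure, hS]
      rfl)
  obtain ⟨f0, hf0⟩ := Lift.Aper.nonempty' hF1
  have h2 := Lift.step (AddMonoidHom.snd ℤ ((Fin k → ℤ) × H)) (fun x => (0, x)) (fun _ => rfl)
    (1, 0) (by
      rintro ⟨x, y⟩
      rw [AddSubgroup.mem_zmultiples_iff]
      constructor
      · intro h0
        have h2 : y = 0 := h0
        exact ⟨x, by simp [h2]⟩
      · rintro ⟨k, hk⟩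
        have h2 := congrArg Prod.snd hk
        simpa using h2.symm) hF1 hf0
  let b := (Module.finBasis ℤ (((Fin k → ℤ) × H) × ℤ)).equivFun
  let e : (ℤ × ((Fin k → ℤ) × H)) × ℤ ≃+
      (Fin (Module.finrank ℤ (((Fin k → ℤ) × H) × ℤ) + 1) → ℤ) :=
    (AddEquiv.prodAssoc.trans ((AddEquiv.refl ℤ).prodCongr b.toAddEquiv)).trans
      (Fin.consLinearEquiv ℤ (fun _ => ℤ)).toAddEquiv
  have he : ∀ p, e p 0 = p.1.1 := fun p => rfl
  refine ⟨_, _, 0, e ((-1, f0), 2), Lift.aper_image e h2, ⟨_, ⟨f0, hf0, by norm_num, by norm_num, ?_⟩,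
    rfl⟩, rfl, ?_⟩
  · simp [Lift.sec]
  · rintro _ ⟨⟨x, t⟩, ⟨f, hf, h0, h5, hx⟩, rfl⟩ hne
    rw [he]
    simp only at hx ⊢
    rw [hx, Lift.sec]
    split_ifs with hc
    · exfalso
      apply hne
      rw [hx, Lift.sec, if_pos hc, hc.1, hc.2]
      simp
    · rfl

end Pool.Agent.H790Z.PT
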