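import Mathlib
import Pool.Agent.H790Z.PT.Defs

/-! Tiles of prime size, and generic positive functionals. -/

set_option autoImplicit false

namespace Pool.Agent.H790Z.PT

namespace Prime

/-- The shift operator. -/
def sh {G : Type*} [AddCommGroup G] (K : Type) [Field K] (r : G) : Module.End K (G → K) where
  toFun f := fun x => f (x - r)
  map_add' _ _ := rfl
  map_smul' _ _ := rfl

theorem sh_apply {G : Type*} [AddCommGroup G] (K : Type) [Field K] (r : G) (f : G → K) (x : G) :
    sh K r f x = f (x - r) := rfl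

theorem sh_comm {G : Type*} [AddCommGroup G] (K : Type) [Field K] (r s : G) :
    Commute (sh K r) (sh K s) := by
  refine LinearMap.ext fun f => funext fun x => ?_
  change f (x - r - s) = f (x - s - r)
  rw [sub_right_comm]

theorem sh_pow {G : Type*} [AddCommGroup G] (K : Type) [Field K] (r : G) (n : ℕ) :
    sh K r ^ n = sh K (n • r) := by
  induction n with
  | zero =>
    refine LinearMap.ext fun f => funext fun x => ?_
    simp [sh_apply]
  | succ n ih =>
    rw [pow_succ, ih]
    refine LinearMap.ext fun f => funext fun x => ?_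
    change f (x - n • r - r) = f (x - (n + 1) • r)
    rw [succ_nsmul, sub_sub]

theorem sum_pow {G : Type*} [AddCommGroup G] (p : ℕ) [Fact p.Prime] (R : Finset G) :
    (∑ r ∈ R, sh (ZMod p) r) ^ p = ∑ r ∈ R, sh (ZMod p) (p • r) := by
  classical
  haveI : CharP (Module.End (ZMod p) (G → ZMod p)) p :=
    charP_of_injective_algebraMap (algebraMap (ZMod p) _).injective p
  induction R using Finset.induction_on with
  | empty => simp [(Fact.out : p.Prime).ne_zero]
  | insert a R ha ih =>
    rw [Finset.sum_insert ha, Finset.sum_insert ha, add_pow_char_of_commute, ih, sh_pow]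
    exact Commute.sum_right _ _ _ fun r _ => sh_comm _ a r

end Prime

theorem prime_tile {G : Type*} [AddCommGroup G] (B : Set G) (R : Finset G) (hp : R.card.Prime)
    (h : Tiles B (R : Set G)) : ∀ b ∈ B, ∀ r ∈ R, ∀ r' ∈ R, b + R.card • (r - r') ∈ B := by
  classical
  intro b hb r hr r' hr'
  set p := R.card with hpdef
  haveI : Fact p.Prime := ⟨hp⟩
  let S : Module.End (ZMod p) (G → ZMod p) := ∑ r ∈ R, Prime.sh (ZMod p) r
  let f : G → ZMod p := fun x => if x ∈ B then 1 else 0
  have hS : ∀ (g : G → ZMod p) (x : G), S g x = ∑ r ∈ R, g (x - r) := by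
    intro g x
    simp only [S, LinearMap.sum_apply, Finset.sum_apply, Prime.sh_apply]
  have h1 : S f = fun _ => 1 := by
    funext x
    obtain ⟨a, ⟨ha, hx⟩, huniq⟩ := h x
    rw [hS, Finset.sum_eq_single_of_mem (x - a) hx]
    · simp [f, ha]
    · intro s hs hne
      refine if_neg fun hB => hne ?_
      rw [← huniq (x - s) ⟨hB, by simpa using hs⟩, sub_sub_cancel]
  have h2 : S (fun _ => 1) = 0 := by
    funext x
    rw [hS]
    simp [← hpdef]
  have h3 : (S ^ p) f = 0 := by
    obtain ⟨k, hk⟩ : ∃ k, p = k + 1 + 1 := ⟨p - 2, by have := hp.two_le; omega⟩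
    have e : S ^ p = S ^ k * S * S := by rw [← pow_succ, ← pow_succ, ← hk]
    rw [e, Module.End.mul_apply, Module.End.mul_apply, h1, h2, map_zero]
  have h4 := congrFun h3 (b + p • r)
  rw [Prime.sum_pow] at h4
  simp only [LinearMap.sum_apply, Finset.sum_apply, Prime.sh_apply, f, Finset.sum_boole,
    Pi.zero_apply] at h4
  rw [ZMod.natCast_eq_zero_iff] at h4
  have h5 : 0 < (R.filter fun s => b + p • r - p • s ∈ B).card :=
    Finset.card_pos.2 ⟨r, Finset.mem_filter.2 ⟨hr, by simpa using hb⟩⟩
  have h6 := Finset.eq_of_subset_of_card_le (Finset.filter_subset (fun s => b + p • r - p • s ∈ B) R)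
    (Nat.le_of_dvd h5 h4)
  rw [← h6] at hr'
  have h7 := (Finset.mem_filter.1 hr').2
  rwa [smul_sub, ← add_sub_assoc]

theorem exists_functional {J : Type*} [Fintype J] (S : Set (J → ℤ)) (hS : S.Finite) :
    ∃ k : J → ℤ, (∀ j, 0 < k j) ∧ ∀ s ∈ S, ∑ j, k j * s j = 0 → s = 0 := by
  classical
  let e := Fintype.equivFin J
  let P : (J → ℤ) → Polynomial ℤ := fun s => ∑ j, Polynomial.monomial (e j : ℕ) (s j)
  have hP : ∀ s, P s = 0 → s = 0 := by
    intro s hs
    funext j
    have h1 := congrArg (fun q => Polynomial.coeff q (e j : ℕ)) hs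
    simp only [P, Polynomial.finset_sum_coeff, Polynomial.coeff_monomial,
      Polynomial.coeff_zero] at h1
    rw [Finset.sum_eq_single j] at h1
    · simpa using h1
    · intro i _ hij
      exact if_neg fun h2 => hij (e.injective (Fin.ext h2))
    · simp
  have hfin : (⋃ s ∈ S \ {0}, {x : ℤ | (P s).IsRoot x}).Finite :=
    (hS.subset Set.diff_subset).biUnion fun s hs =>
      Polynomial.finite_setOf_isRoot fun h0 => hs.2 (hP s h0)
  obtain ⟨M, hM, hM'⟩ := (Set.Ioi_infinite (0 : ℤ)).exists_notMem_finite hfin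
  refine ⟨fun j => M ^ (e j : ℕ), fun j => pow_pos hM _, fun s hs h0 => ?_⟩
  by_contra hne
  refine hM' (Set.mem_biUnion (x := s) ⟨hs, hne⟩ ?_)
  change Polynomial.eval M (P s) = 0
  simp only [P, Polynomial.eval_finset_sum, Polynomial.eval_monomial]
  rw [← h0]
  exact Finset.sum_congr rfl fun j _ => mul_comm _ _

end Pool.Agent.H790Z.PT
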