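import Pool.Agent.H790Z.PT.Defs

/-!
Polycube tilings of `ℝ^D` versus tilings of `ℤ^D` (task T7, helper358).
-/

set_option autoImplicit false

namespace Pool.Agent.H790Z.PT

open MeasureTheory

namespace RealT

variable {D : ℕ}

/-- an integer vector as a point of the Euclidean space -/
noncomputable def cast (a : Fin D → ℤ) : EuclideanSpace ℝ (Fin D) :=
  WithLp.toLp 2 (fun i => (a i : ℝ))

@[simp] theorem cast_apply (a : Fin D → ℤ) (i : Fin D) : cast a i = (a i : ℝ) := rfl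

/-- the coordinatewise floor -/
noncomputable def fl (x : EuclideanSpace ℝ (Fin D)) : Fin D → ℤ := fun i => ⌊x i⌋

theorem ae_ne (i : Fin D) (c : ℝ) :
    ∀ᵐ x ∂(volume : Measure (EuclideanSpace ℝ (Fin D))), x i ≠ c := by
  have h : ∀ᵐ y ∂(volume : Measure (Fin D → ℝ)), y i ≠ c :=
    Measure.ae_eval_ne (fun _ : Fin D => (volume : Measure ℝ)) i c
  exact (PiLp.volume_preserving_ofLp (Fin D)).quasiMeasurePreserving.tendsto_ae.eventually h

theorem mem_cubes_iff (X : Set (Fin D → ℤ)) (y : EuclideanSpace ℝ (Fin D))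
    (hy : ∀ i, ∀ n : ℤ, y i ≠ (n : ℝ)) : y ∈ cubes X ↔ fl y ∈ X := by
  constructor
  · rintro ⟨x, hx, h⟩
    have : fl y = x := by
      funext i
      unfold fl
      rw [Int.floor_eq_iff]
      refine ⟨(h i).1, lt_of_le_of_ne (h i).2 ?_⟩
      have := hy i (x i + 1)
      push_cast at this
      exact this
    rw [this]
    exact hx
  · intro h
    exact ⟨fl y, h, fun i => ⟨Int.floor_le _, (Int.lt_floor_add_one _).le⟩⟩

theorem fl_add_cast (y : EuclideanSpace ℝ (Fin D)) (z : Fin D → ℤ) :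
    fl (y + cast z) = fl y + z := by
  funext i
  simp [fl]

theorem isOpen_box (lo hi : Fin D → ℝ) :
    IsOpen {x : EuclideanSpace ℝ (Fin D) | ∀ c, lo c < x c ∧ x c < hi c} := by
  rw [Set.ofPred_forall]
  refine isOpen_iInter_of_finite fun c => ?_
  have hc : Continuous fun x : EuclideanSpace ℝ (Fin D) => x c := by fun_prop
  exact (isOpen_lt continuous_const hc).inter (isOpen_lt hc continuous_const)

theorem box_nonempty (lo hi : Fin D → ℝ) (h : ∀ c, lo c < hi c) :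
    {x : EuclideanSpace ℝ (Fin D) | ∀ c, lo c < x c ∧ x c < hi c}.Nonempty := by
  refine ⟨WithLp.toLp 2 (fun c => (lo c + hi c) / 2), fun c => ?_⟩
  have := h c
  constructor
  · show lo c < (lo c + hi c) / 2
    linarith
  · show (lo c + hi c) / 2 < hi c
    linarith

theorem countable_of_tiling (X : Set (Fin D → ℤ)) (Λ : Set (EuclideanSpace ℝ (Fin D)))
    (hΛ : ∀ᵐ x ∂(volume : Measure (EuclideanSpace ℝ (Fin D))), ∃! t, t ∈ Λ ∧ x - t ∈ cubes X) :
    Λ.Countable := by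
  obtain ⟨y, t0, ⟨-, x0, hx0, -⟩, -⟩ := hΛ.exists
  have hd := Measure.dense_of_ae hΛ
  let s : EuclideanSpace ℝ (Fin D) → Set (EuclideanSpace ℝ (Fin D)) := fun t =>
    {x | ∀ c, t c + x0 c < x c ∧ x c < t c + x0 c + 1}
  have hs : ∀ t, IsOpen (s t) := fun t => isOpen_box _ _
  have hmem : ∀ t x, x ∈ s t → x - t ∈ cubes X := by
    intro t x hx
    refine ⟨x0, hx0, fun i => ?_⟩
    have := hx i
    simp only [PiLp.sub_apply]
    constructor <;> linarith [this.1, this.2]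
  refine Set.PairwiseDisjoint.countable_of_isOpen (s := s) ?_ (fun t _ => hs t)
    (fun t _ => box_nonempty _ _ fun c => by linarith)
  intro t ht t' ht' hne
  by_contra hcon
  have hcon' : (s t ∩ s t').Nonempty := Set.not_disjoint_iff_nonempty_inter.1 hcon
  obtain ⟨x, hx1, hx2⟩ := hd.exists_mem_open ((hs t).inter (hs t')) hcon'
  exact hne (hx1.unique ⟨ht, hmem t x hx2.1⟩ ⟨ht', hmem t' x hx2.2⟩)

/-- generic points -/
def Gen (X : Set (Fin D → ℤ)) (Λ : Set (EuclideanSpace ℝ (Fin D)))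
    (x : EuclideanSpace ℝ (Fin D)) : Prop :=
  (∀ z : Fin D → ℤ, ∃! t, t ∈ Λ ∧ x + cast z - t ∈ cubes X) ∧
    ∀ t ∈ Λ, ∀ i, ∀ n : ℤ, x i ≠ t i + n

theorem ae_gen (X : Set (Fin D → ℤ)) (Λ : Set (EuclideanSpace ℝ (Fin D)))
    (hΛ : ∀ᵐ x ∂(volume : Measure (EuclideanSpace ℝ (Fin D))), ∃! t, t ∈ Λ ∧ x - t ∈ cubes X) :
    ∀ᵐ x ∂(volume : Measure (EuclideanSpace ℝ (Fin D))), Gen X Λ x := by
  refine Filter.Eventually.and ?_ ?_
  · rw [ae_all_iff]
    intro z
    exact (eventually_add_right_iff volume (cast z)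
      (p := fun x => ∃! t, t ∈ Λ ∧ x - t ∈ cubes X)).2 hΛ
  · rw [ae_ball_iff (countable_of_tiling X Λ hΛ)]
    intro t _
    rw [ae_all_iff]
    intro i
    rw [ae_all_iff]
    intro n
    exact ae_ne i _

/-- the integer tiling seen from a generic point -/
def disc (Λ : Set (EuclideanSpace ℝ (Fin D))) (x : EuclideanSpace ℝ (Fin D)) :
    Set (Fin D → ℤ) := {a | ∃ t ∈ Λ, a = -fl (x - t)}

theorem tiles_disc (X : Set (Fin D → ℤ)) (Λ : Set (EuclideanSpace ℝ (Fin D)))
    (x : EuclideanSpace ℝ (Fin D)) (hx : Gen X Λ x) : Tiles (disc Λ x) X := by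
  intro z
  have key : ∀ t ∈ Λ, (x + cast z - t ∈ cubes X ↔ z - -fl (x - t) ∈ X) := by
    intro t ht
    rw [mem_cubes_iff]
    · have : x + cast z - t = x - t + cast z := by abel
      rw [this, fl_add_cast]
      have : fl (x - t) + z = z - -fl (x - t) := by abel
      rw [this]
    · intro i n h
      apply hx.2 t ht i (n - z i)
      simp only [PiLp.sub_apply, PiLp.add_apply, cast_apply] at h
      push_cast
      linarith
  obtain ⟨t, ⟨ht, h1⟩, huniq⟩ := hx.1 z
  refine ⟨-fl (x - t), ⟨⟨t, ht, rfl⟩, (key t ht).1 h1⟩, ?_⟩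
  rintro a ⟨⟨t', ht', rfl⟩, h2⟩
  rw [huniq t' ⟨ht', (key t' ht').2 h2⟩]

/-- the translations that preserve `Λ` -/
def stab (Λ : Set (EuclideanSpace ℝ (Fin D))) : AddSubgroup (EuclideanSpace ℝ (Fin D)) where
  carrier := {w | ∀ t ∈ Λ, t + w ∈ Λ ∧ t - w ∈ Λ}
  zero_mem' := fun t ht => by simpa using ht
  add_mem' := by
    intro a b ha hb t ht
    constructor
    · rw [← add_assoc]
      exact (hb _ (ha t ht).1).1
    · rw [← sub_sub]
      exact (hb _ (ha t ht).2).2
  neg_mem' := by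
    intro a ha t ht
    constructor
    · rw [← sub_eq_add_neg]
      exact (ha t ht).2
    · rw [sub_neg_eq_add]
      exact (ha t ht).1

/-- simultaneous approximation -/
theorem approx (v : Fin D → ℝ) (N : ℕ) (hN : 0 < N) :
    ∃ n : ℤ, n ≠ 0 ∧ ∃ z : Fin D → ℤ, ∀ c, |(n : ℝ) * v c - N * z c| < 1 / 4 := by
  have : NeZero (4 * N) := ⟨by omega⟩
  obtain ⟨n, m, hnm, h⟩ := Finite.exists_ne_map_eq_of_infinite
    (fun n : ℤ => fun c : Fin D => ((⌊4 * ((n : ℝ) * v c)⌋ : ℤ) : ZMod (4 * N)))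
  refine ⟨m - n, sub_ne_zero.2 hnm.symm, ?_⟩
  have h2 : ∀ c, ∃ k : ℤ, ⌊4 * ((m : ℝ) * v c)⌋ - ⌊4 * ((n : ℝ) * v c)⌋ = ((4 * N : ℕ) : ℤ) * k :=
    fun c => (ZMod.intCast_eq_intCast_iff_dvd_sub _ _ _).1 (congrFun h c)
  choose z hz using h2
  refine ⟨z, fun c => ?_⟩
  have h3 : ((⌊4 * ((m : ℝ) * v c)⌋ : ℤ) : ℝ) - ((⌊4 * ((n : ℝ) * v c)⌋ : ℤ) : ℝ) =
      4 * (N * z c) := by
    have := congrArg (fun a : ℤ => (a : ℝ)) (hz c)
    push_cast at this
    linarith
  have h4 := Int.floor_le (4 * ((m : ℝ) * v c))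
  have h5 := Int.lt_floor_add_one (4 * ((m : ℝ) * v c))
  have h6 := Int.floor_le (4 * ((n : ℝ) * v c))
  have h7 := Int.lt_floor_add_one (4 * ((n : ℝ) * v c))
  push_cast
  rw [abs_lt, sub_mul]
  constructor <;> linarith

/-- the periods of a tiling by a rigid tile are rational -/
theorem rational_of_rigid (X : Set (Fin D → ℤ)) (hR : Rigid X)
    (Λ : Set (EuclideanSpace ℝ (Fin D)))
    (hΛ : ∀ᵐ x ∂(volume : Measure (EuclideanSpace ℝ (Fin D))), ∃! t, t ∈ Λ ∧ x - t ∈ cubes X)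
    (v : EuclideanSpace ℝ (Fin D)) (hv : v ∈ stab Λ) (i : Fin D) :
    ∃ n : ℤ, n ≠ 0 ∧ ∃ k : ℤ, (n : ℝ) * v i = k := by
  obtain ⟨N, hN, hrig⟩ := hR
  by_contra hcon
  push Not at hcon
  have h1 : ∃ (n : ℤ) (z : Fin D → ℤ), (∀ c, |(n : ℝ) * v c - N * z c| < 1 / 4) ∧
      0 < (n : ℝ) * v i - N * z i := by
    obtain ⟨n, hn, z, hz⟩ := approx (fun c => v c) N hN
    have h0 : (n : ℝ) * v i - N * z i ≠ 0 := by
      have := hcon n hn (N * z i)
      push_cast at this
      exact sub_ne_zero.2 this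
    rcases lt_or_gt_of_ne h0 with h | h
    · refine ⟨-n, -z, fun c => ?_, ?_⟩
      · have := hz c
        rw [abs_lt] at this ⊢
        simp only [Pi.neg_apply]
        push_cast
        constructor <;> linarith [this.1, this.2]
      · simp only [Pi.neg_apply]
        push_cast
        linarith
    · exact ⟨n, z, hz, h⟩
  obtain ⟨n, z, hz, hpos⟩ := h1
  obtain ⟨y, t0, ⟨ht0, -⟩, -⟩ := hΛ.exists
  have ht1 : t0 + n • v ∈ Λ := ((stab Λ).zsmul_mem hv n t0 ht0).1
  have hd := Measure.dense_of_ae (ae_gen X Λ hΛ)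
  obtain ⟨x, hx, hb⟩ := hd.exists_mem_open
    (isOpen_box (fun c => if c = i then t0 c else t0 c + 1 / 4)
      (fun c => if c = i then t0 c + ((n : ℝ) * v i - N * z i) else t0 c + 3 / 4))
    (box_nonempty _ _ fun c => by split_ifs <;> linarith)
  have e0 : fl (x - t0) = 0 := by
    funext c
    have h2 := hb c
    have h3 := abs_lt.1 (hz i)
    simp only [fl, PiLp.sub_apply, Pi.zero_apply]
    rw [Int.floor_eq_iff]
    push_cast
    by_cases hc : c = i
    · simp only [if_pos hc] at h2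
      constructor <;> linarith [h2.1, h2.2, h3.2]
    · simp only [if_neg hc] at h2
      constructor <;> linarith [h2.1, h2.2]
  have e1 : -fl (x - (t0 + n • v)) = -fl (x - t0) + N • z + Pi.single i 1 := by
    rw [e0, neg_zero, zero_add, neg_eq_iff_eq_neg]
    funext c
    have h2 := hb c
    have h3 := abs_lt.1 (hz c)
    have h4 : (N • z) c = (N : ℤ) * z c := by
      rw [Pi.smul_apply, nsmul_eq_mul]
    simp only [fl, PiLp.sub_apply, PiLp.add_apply, PiLp.smul_apply, zsmul_eq_mul, Pi.neg_apply,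
      Pi.add_apply, h4]
    rw [Int.floor_eq_iff]
    by_cases hc : c = i
    · subst hc
      simp only [if_true] at h2
      rw [Pi.single_eq_same]
      push_cast
      constructor <;> linarith [h2.1, h2.2, h3.2]
    · simp only [if_neg hc] at h2
      rw [Pi.single_eq_of_ne hc]
      push_cast
      constructor <;> linarith [h2.1, h2.2, h3.1, h3.2]
  exact hrig _ (tiles_disc X Λ x hx) _ ⟨t0, ht0, rfl⟩ _ ⟨_, ht1, rfl⟩ z i e1

/-- a lattice with rational generators contains a multiple of `ℤ^D` -/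
theorem exists_mul_mem (S : AddSubgroup (EuclideanSpace ℝ (Fin D)))
    (v : Fin D → EuclideanSpace ℝ (Fin D)) (hv : LinearIndependent ℝ v) (hS : ∀ j, v j ∈ S)
    (hq : ∀ j c, ∃ n : ℤ, n ≠ 0 ∧ ∃ k : ℤ, (n : ℝ) * v j c = k) :
    ∃ N : ℕ, 0 < N ∧ ∀ g : Fin D → ℤ, cast (N • g) ∈ S := by
  classical
  choose n hn k hk using hq
  set M : ℤ := ∏ p : Fin D × Fin D, n p.1 p.2 with hM
  have hM0 : M ≠ 0 := Finset.prod_ne_zero_iff.2 fun p _ => hn p.1 p.2
  have h1 : ∀ j c, ∃ b : ℤ, (M : ℝ) * v j c = b := by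
    intro j c
    obtain ⟨d, hd⟩ : n j c ∣ M :=
      Finset.dvd_prod_of_mem (fun p : Fin D × Fin D => n p.1 p.2) (Finset.mem_univ (j, c))
    refine ⟨d * k j c, ?_⟩
    rw [hd]
    push_cast
    rw [← hk j c]
    ring
  choose b hb using h1
  let B : Matrix (Fin D) (Fin D) ℤ := Matrix.of b
  have hB : ∀ j, cast (B j) = M • v j := by
    intro j
    ext c
    simp only [cast_apply, PiLp.smul_apply, zsmul_eq_mul]
    exact (hb j c).symm
  have hdet : B.det ≠ 0 := by
    intro h0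
    obtain ⟨u, hu0, hu⟩ := Matrix.exists_vecMul_eq_zero_iff.2 h0
    apply hu0
    have h2 : ∑ j, ((u j : ℝ) * M) • v j = 0 := by
      ext c
      have h3 := congrArg (fun a : ℤ => (a : ℝ)) (congrFun hu c)
      simp only [Matrix.vecMul, dotProduct, Pi.zero_apply] at h3
      push_cast at h3
      simp only [WithLp.ofLp_sum, Finset.sum_apply, PiLp.smul_apply, smul_eq_mul,
        PiLp.zero_apply]
      rw [← h3]
      refine Finset.sum_congr rfl fun j _ => ?_
      rw [mul_assoc, hb j c]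
      rfl
    funext j
    have h4 := Fintype.linearIndependent_iff.1 hv _ h2 j
    rcases mul_eq_zero.1 h4 with h | h
    · exact_mod_cast h
    · exact absurd (by exact_mod_cast h) hM0
  have key : ∀ g : Fin D → ℤ, cast (B.det • g) ∈ S := by
    intro g
    have h2 : B.det • g = Matrix.vecMul (Matrix.vecMul g B.adjugate) B := by
      rw [Matrix.vecMul_vecMul, Matrix.adjugate_mul, Matrix.vecMul_smul, Matrix.vecMul_one]
    have h3 : cast (B.det • g) = ∑ j, (Matrix.vecMul g B.adjugate j) • cast (B j) := by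
      rw [h2]
      generalize Matrix.vecMul g B.adjugate = u
      ext c
      simp only [cast_apply, Matrix.vecMul, dotProduct, WithLp.ofLp_sum, Finset.sum_apply,
        PiLp.smul_apply, zsmul_eq_mul]
      push_cast
      rfl
    rw [h3]
    refine S.sum_mem fun j _ => S.zsmul_mem ?_ _
    rw [hB]
    exact S.zsmul_mem (hS j) _
  refine ⟨B.det.natAbs, Int.natAbs_pos.2 hdet, fun g => ?_⟩
  rcases Int.natAbs_eq B.det with h | h
  · have : B.det.natAbs • g = B.det • g := by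
      rw [← natCast_zsmul, ← h]
    rw [this]
    exact key g
  · have : B.det.natAbs • g = B.det • (-g) := by
      rw [← natCast_zsmul, smul_neg, ← neg_smul]
      congr 1
      omega
    rw [this]
    exact key (-g)

end RealT

open RealT

theorem real_of_tiles {D : ℕ} (X A : Set (Fin D → ℤ)) (h : Tiles A X) :
    ∃ Λ : Set (EuclideanSpace ℝ (Fin D)),
      ∀ᵐ x ∂(volume : Measure (EuclideanSpace ℝ (Fin D))), ∃! t, t ∈ Λ ∧ x - t ∈ cubes X := by
  refine ⟨RealT.cast '' A, ?_⟩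
  have h1 : ∀ᵐ x ∂(volume : Measure (EuclideanSpace ℝ (Fin D))),
      ∀ i, ∀ n : ℤ, x i ≠ (n : ℝ) := by
    rw [ae_all_iff]
    intro i
    rw [ae_all_iff]
    intro n
    exact ae_ne i _
  filter_upwards [h1] with x hx
  have key : ∀ a : Fin D → ℤ, (x - RealT.cast a ∈ cubes X ↔ fl x - a ∈ X) := by
    intro a
    rw [mem_cubes_iff]
    · have e : fl (x - RealT.cast a) = fl x - a := by
        funext i
        simp [fl]
      rw [e]
    · intro i n h2
      apply hx i (n + a i)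
      simp only [PiLp.sub_apply, cast_apply] at h2
      push_cast
      linarith
  obtain ⟨a, ⟨ha, h2⟩, huniq⟩ := h (fl x)
  refine ⟨RealT.cast a, ⟨⟨a, ha, rfl⟩, (key a).2 h2⟩, ?_⟩
  rintro t ⟨⟨a', ha', rfl⟩, h3⟩
  rw [huniq a' ⟨ha', (key a').1 h3⟩]

theorem per_of_real {D : ℕ} (X : Set (Fin D → ℤ)) (hR : Rigid X)
    (Λ : Set (EuclideanSpace ℝ (Fin D)))
    (hΛ : ∀ᵐ x ∂(volume : Measure (EuclideanSpace ℝ (Fin D))), ∃! t, t ∈ Λ ∧ x - t ∈ cubes X)
    (v : Fin D → EuclideanSpace ℝ (Fin D)) (hv : LinearIndependent ℝ v)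
    (hp : ∀ i, ∀ t ∈ Λ, t + v i ∈ Λ ∧ t - v i ∈ Λ) :
    ∃ A, Tiles A X ∧ Per A := by
  obtain ⟨N, hN, hS⟩ := exists_mul_mem (stab Λ) v hv (fun j => hp j)
    (fun j c => rational_of_rigid X hR Λ hΛ (v j) (hp j) c)
  obtain ⟨x, hx⟩ := (ae_gen X Λ hΛ).exists
  refine ⟨disc Λ x, tiles_disc X Λ x hx, N, hN, ?_⟩
  rintro a ⟨t, ht, rfl⟩ g
  refine ⟨t + RealT.cast (N • g), (hS g t ht).1, ?_⟩
  have e : x - t = x - (t + RealT.cast (N • g)) + RealT.cast (N • g) := by abel
  rw [e, fl_add_cast]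
  abel

end Pool.Agent.H790Z.PT
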