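import Pool.Agent.H790Z.PT.Defs

set_option autoImplicit false

namespace Pool.Agent.H790Z.PT

namespace Sudoku

abbrev K := ZMod 53

instance : Fact (Nat.Prime 53) := ⟨by norm_num⟩

def LineW (g : ℕ → K) (a b : K) : Prop :=
  (∀ n : ℕ, n < 159 → a * n + b ≠ 0 → g n = a * n + b) ∧
    ∀ n0 : ℕ, n0 < 53 → a * n0 + b = 0 → ∃ b' : K, ∀ t : ℕ, t < 3 → a * t + b' ≠ 0 → g (n0 + 53 * t) = a * t + b'

def Line (g : ℕ → K) : Prop := ∃ a b : K, (a ≠ 0 ∨ b ≠ 0) ∧ LineW g a b

def IsSud (F : ℕ → ℤ → K) : Prop := ∀ i j : ℤ, Line (fun n => F n (j + i * n))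

theorem p_zero : ((53 : ℕ) : K) = 0 := ZMod.natCast_self 53

theorem p_zero' : (53 : K) = 0 := p_zero

theorem cast_inj {s t : ℕ} (hs : s < 53) (ht : t < 53) (h : (s : K) = t) : s = t := by
  have := (ZMod.natCast_eq_natCast_iff' s t 53).1 h
  rwa [Nat.mod_eq_of_lt hs, Nat.mod_eq_of_lt ht] at this

theorem two_zero {x y : K} {s t : ℕ} (hs : s < 53) (ht : t < 53) (hst : s ≠ t)
    (h1 : x * s + y = 0) (h2 : x * t + y = 0) : x = 0 ∧ y = 0 := by
  have h3 : x * ((s : K) - t) = 0 := by linear_combination h1 - h2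
  rcases mul_eq_zero.1 h3 with h | h
  · exact ⟨h, by rw [h] at h1; simpa using h1⟩
  · exact absurd (cast_inj hs ht (sub_eq_zero.1 h)) hst

theorem four_cells {g : ℕ → K} {a b a' b' : K} (hab : a ≠ 0 ∨ b ≠ 0) (hab' : a' ≠ 0 ∨ b' ≠ 0)
    (hg : LineW g a b) (n1 : ℕ) (hn : n1 + 3 < 159)
    (h : ∀ t : ℕ, t < 4 → a' * (n1 + t : ℕ) + b' ≠ 0 → g (n1 + t) = a' * (n1 + t : ℕ) + b') :
    a = a' ∧ b = b' := by
  have key : ∀ t : Fin 4, ∃ k : Fin 3, (![a, a', a - a'] k) * ((t : ℕ) : K) +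
      (![a * n1 + b, a' * n1 + b', (a - a') * n1 + (b - b')] k) = 0 := by
    intro t
    by_cases h1 : a * (n1 + t : ℕ) + b = 0
    · exact ⟨0, by push_cast at h1; simp only [Matrix.cons_val_zero]; linear_combination h1⟩
    by_cases h2 : a' * (n1 + t : ℕ) + b' = 0
    · refine ⟨1, ?_⟩
      push_cast at h2
      simp only [Matrix.cons_val_one, Matrix.cons_val_zero]; linear_combination h2
    have h3 := hg.1 (n1 + t) (by omega) h1
    rw [h t t.2 h2] at h3
    refine ⟨2, ?_⟩
    push_cast at h3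
    simp only [Matrix.cons_val]; linear_combination -h3
  choose k hk using key
  obtain ⟨s, t, hst, he⟩ := Fintype.exists_ne_map_eq_of_card_lt k (by simp)
  have h1 := hk s
  have h2 := hk t
  rw [← he] at h2
  obtain ⟨e1, e2⟩ := two_zero (by omega) (by omega) (fun h => hst (Fin.ext h)) h1 h2
  generalize k s = c at e1 e2
  fin_cases c
  · simp only [Fin.zero_eta, Matrix.cons_val_zero] at e1 e2
    rw [e1] at e2
    rcases hab with h | h
    · exact absurd e1 h
    · exact absurd (by simpa using e2) h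
  · simp only [Fin.mk_one, Matrix.cons_val_one, Matrix.cons_val_zero] at e1 e2
    rw [e1] at e2
    rcases hab' with h | h
    · exact absurd e1 h
    · exact absurd (by simpa using e2) h
  · simp only [Fin.reduceFinMk, Matrix.cons_val] at e1 e2
    rw [e1] at e2
    exact ⟨sub_eq_zero.1 e1, sub_eq_zero.1 (by simpa using e2)⟩

/-- The conditional affine law at a cell. -/
def PP (F : ℕ → ℤ → K) (A B C : K) (n : ℕ) (m : ℤ) : Prop :=
  A * n + B * m + C ≠ 0 → F n m = A * n + B * m + C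

theorem line_wit {F : ℕ → ℤ → K} (hF : IsSud F) (A B C : K) (i j : ℤ) (n1 : ℕ)
    (hn : n1 + 3 < 159) (h : ∀ t : ℕ, t < 4 → PP F A B C (n1 + t) (j + i * (n1 + t : ℕ)))
    (hne : A + B * i ≠ 0 ∨ B * j + C ≠ 0) :
    LineW (fun n => F n (j + i * n)) (A + B * i) (B * j + C) := by
  obtain ⟨a, b, hab, hg⟩ := hF i j
  obtain ⟨e1, e2⟩ := four_cells hab hne hg n1 hn (fun t ht h0 => by
    have e : A * ((n1 + t : ℕ) : K) + B * ((j + i * (n1 + t : ℕ) : ℤ) : K) + C =
        (A + B * i) * (n1 + t : ℕ) + (B * j + C) := by push_cast; ring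
    have := h t ht (by rw [e]; exact h0)
    rw [e] at this; exact this)
  rw [← e1, ← e2]; exact hg

theorem line_all {F : ℕ → ℤ → K} (hF : IsSud F) (A B C : K) (i j : ℤ) (n1 : ℕ)
    (hn : n1 + 3 < 159) (h : ∀ t : ℕ, t < 4 → PP F A B C (n1 + t) (j + i * (n1 + t : ℕ))) :
    ∀ n : ℕ, n < 159 → PP F A B C n (j + i * n) := by
  intro n hn' h0
  have e : A * (n : K) + B * ((j + i * n : ℤ) : K) + C = (A + B * i) * n + (B * j + C) := by
    push_cast; ring
  rw [e] at h0 ⊢
  refine (line_wit hF A B C i j n1 hn h ?_).1 n hn' h0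
  by_contra hc
  push Not at hc
  rw [hc.1, hc.2] at h0
  simp at h0

theorem per_mul {F : ℕ → ℤ → K} {M : ℕ} (hM : ∀ n m, F n (m + M) = F n m) (n : ℕ) (m c : ℤ) :
    F n (m + M * c) = F n m := by
  induction c using Int.induction_on with
  | zero => simp
  | succ c ih => rw [mul_add, mul_one, ← add_assoc, hM, ih]
  | pred c ih => rw [← hM, ← ih]; congr 1; ring

theorem good_block {F : ℕ → ℤ → K} (hF : IsSud F) {M : ℕ} (hM0 : 0 < M)
    (hM : ∀ n m, F n (m + M) = F n m) : ∃ (la lb : (ℕ → K) → K) (c : ℕ) (r : ℤ), c + 3 < 53 ∧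
      (∀ i j : ℤ, LineW (fun n => F n (j + i * n)) (la fun n => F n (j + i * n))
        (lb fun n => F n (j + i * n))) ∧
      ∀ u : ℕ, u < 4 → ∀ v : ℕ, v < 4 → ∀ s : ℤ, (s = 0 ∨ s = 1 ∨ s = -1) →
        la (fun n => F n ((r + (v : ℕ) - s * (c + u : ℕ)) + s * n)) * (c + u : ℕ) +
          lb (fun n => F n ((r + (v : ℕ) - s * (c + u : ℕ)) + s * n)) ≠ 0 := by
  have hch : ∀ g : ℕ → K, Line g → ∃ a b : K, (a ≠ 0 ∨ b ≠ 0) ∧ LineW g a b := fun g h => h
  choose! la lb h1 h2 using hch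
  have : NeZero M := ⟨hM0.ne'⟩
  by_contra hcon
  have hbad : ∀ x : Fin 13 × ZMod M, ∃ y : Fin 3 × Fin 4, ∃ u : ℕ, u < 4 ∧
      la (fun n => F n (((x.2.val : ℤ) + (y.2 : ℕ) - ((y.1 : ℕ) - 1) * (4 * x.1 + u : ℕ)) +
          ((y.1 : ℕ) - 1) * n)) * (4 * x.1 + u : ℕ) +
        lb (fun n => F n (((x.2.val : ℤ) + (y.2 : ℕ) - ((y.1 : ℕ) - 1) * (4 * x.1 + u : ℕ)) +
          ((y.1 : ℕ) - 1) * n)) = 0 := by
    intro x
    by_contra hx
    push Not at hx
    refine hcon ⟨la, lb, 4 * x.1, x.2.val, by omega, fun i j => h2 _ (hF i j), ?_⟩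
    intro u hu v hv s hs
    rcases hs with rfl | rfl | rfl
    · exact hx (1, ⟨v, hv⟩) u hu
    · exact hx (2, ⟨v, hv⟩) u hu
    · exact hx (0, ⟨v, hv⟩) u hu
  choose y u hu hy using hbad
  let φ : Fin 13 × ZMod M → (Fin 3 × Fin 4) × ZMod M := fun x =>
    (y x, (((x.2.val : ℤ) + ((y x).2 : ℕ) - (((y x).1 : ℕ) - 1) * (4 * x.1 + u x : ℕ) : ℤ) : ZMod M))
  obtain ⟨x, x', hne, he⟩ := Fintype.exists_ne_map_eq_of_card_lt φ (by
    simp only [Fintype.card_prod, Fintype.card_fin, ZMod.card]; omega)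
  simp only [φ, Prod.mk.injEq] at he
  obtain ⟨e1, e2⟩ := he
  have a1 := hy x
  have a2 := hy x'
  rw [← e1] at a2 e2
  obtain ⟨c, hc⟩ := (ZMod.intCast_eq_intCast_iff_dvd_sub _ _ _).1 e2
  set s : ℤ := (((y x).1 : ℕ) : ℤ) - 1
  set j : ℤ := (x.2.val : ℤ) + ((y x).2 : ℕ) - s * (4 * x.1 + u x : ℕ) with hj
  set j' : ℤ := (x'.2.val : ℤ) + ((y x).2 : ℕ) - s * (4 * x'.1 + u x' : ℕ) with hj'
  have e3 : (fun n : ℕ => F n (j' + s * n)) = fun n : ℕ => F n (j + s * n) := by
    funext n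
    rw [← per_mul hM n (j + s * n) c]; congr 1; linarith
  rw [e3] at a2
  have hx1 := x.1.2
  have hx2 := x'.1.2
  have b1 := hu x
  have b2 := hu x'
  have e4 : 4 * x.1 + u x = 4 * x'.1 + u x' := by
    by_contra hn
    obtain ⟨z1, z2⟩ := two_zero (by omega) (by omega) hn a1 a2
    rcases h1 _ (hF s j) with h | h
    · exact h z1
    · exact h z2
  apply hne
  refine Prod.ext (Fin.ext (by omega)) ?_
  have e5 : ((x.2.val : ℤ) : ZMod M) = ((x'.2.val : ℤ) : ZMod M) := by
    rw [ZMod.intCast_eq_intCast_iff_dvd_sub]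
    exact ⟨c, by rw [← hc, hj, hj', e4]; ring⟩
  simpa using e5

theorem two_ne : (2 : K) ≠ 0 := by decide

theorem struct {F : ℕ → ℤ → K} (hF : IsSud F) {M : ℕ} (hM0 : 0 < M)
    (hM : ∀ n m, F n (m + M) = F n m) : ∃ A B C : K,
      (∃ n0 : ℕ, n0 < 53 ∧ ∃ m0 : ℤ, A * n0 + B * m0 + C ≠ 0) ∧ ∀ n : ℕ, n < 159 → ∀ m, PP F A B C n m := by
  obtain ⟨la, lb, c, r, hc, hW, hg⟩ := good_block hF hM0 hM
  have val : ∀ u : ℕ, u < 4 → ∀ v : ℕ, v < 4 → ∀ s j : ℤ, (s = 0 ∨ s = 1 ∨ s = -1) →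
      j = r + (v : ℕ) - s * (c + u : ℕ) →
      F (c + u) (r + (v : ℕ)) = la (fun n => F n (j + s * n)) * (c + u : ℕ) +
        lb (fun n => F n (j + s * n)) := by
    intro u hu v hv s j hs hj
    have := (hW s j).1 (c + u) (by omega) (by rw [hj]; exact hg u hu v hv s hs)
    rw [← this, hj]; congr 1; ring
  obtain ⟨a, ha⟩ : ∃ a : ℕ → K, ∀ v, a v = la (fun n => F n ((r + (v : ℕ)) + 0 * n)) :=
    ⟨_, fun _ => rfl⟩
  obtain ⟨b, hb⟩ : ∃ b : ℕ → K, ∀ v, b v = lb (fun n => F n ((r + (v : ℕ)) + 0 * n)) :=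
    ⟨_, fun _ => rfl⟩
  have row : ∀ u : ℕ, u < 4 → ∀ v : ℕ, v < 4 → F (c + u) (r + (v : ℕ)) = a v * (c + u : ℕ) + b v := by
    intro u hu v hv
    rw [ha, hb]; exact val u hu v hv 0 _ (Or.inl rfl) (by ring)
  have d1 : ∀ u : ℕ, u < 2 → ∀ v : ℕ, v < 2 → F (c + u) (r + (v : ℕ)) + F (c + (u + 2)) (r + (v + 2 : ℕ)) =
      2 * F (c + (u + 1)) (r + (v + 1 : ℕ)) := by
    intro u hu v hv
    rw [val u (by omega) v (by omega) 1 _ (by simp) rfl,
      val (u + 1) (by omega) (v + 1) (by omega) 1 (r + (v : ℕ) - 1 * (c + u : ℕ)) (by simp)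
        (by push_cast; ring),
      val (u + 2) (by omega) (v + 2) (by omega) 1 (r + (v : ℕ) - 1 * (c + u : ℕ)) (by simp)
        (by push_cast; ring)]
    push_cast; ring
  have d2 : ∀ u : ℕ, u < 2 → ∀ v : ℕ, v < 2 → F (c + u) (r + (v + 2 : ℕ)) + F (c + (u + 2)) (r + (v : ℕ)) =
      2 * F (c + (u + 1)) (r + (v + 1 : ℕ)) := by
    intro u hu v hv
    rw [val u (by omega) (v + 2) (by omega) (-1) _ (by simp) rfl,
      val (u + 1) (by omega) (v + 1) (by omega) (-1) (r + (v + 2 : ℕ) - -1 * (c + u : ℕ)) (by simp)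
        (by push_cast; ring),
      val (u + 2) (by omega) v (by omega) (-1) (r + (v + 2 : ℕ) - -1 * (c + u : ℕ)) (by simp)
        (by push_cast; ring)]
    push_cast; ring
  have step : ∀ v : ℕ, v < 2 → a (v + 1) = a v ∧ a (v + 2) = a v ∧ b v + b (v + 2) = 2 * b (v + 1) := by
    intro v hv
    have e1 := d1 0 (by omega) v hv
    have e2 := d1 1 (by omega) v hv
    have e3 := d2 0 (by omega) v hv
    rw [row _ (by omega) _ (by omega), row _ (by omega) _ (by omega),
      row _ (by omega) _ (by omega)] at e1 e2 e3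
    push_cast at e1 e2 e3
    have f1 : a (v + 2) = a v := mul_left_cancel₀ two_ne (by linear_combination e1 - e3)
    have f2 : a (v + 1) = a v := mul_left_cancel₀ two_ne (by linear_combination e1 - e2 + f1)
    refine ⟨f2, f1, ?_⟩
    rw [f1, f2] at e1
    linear_combination e1
  obtain ⟨s1, s2, s3⟩ := step 0 (by omega)
  obtain ⟨s4, s5, s6⟩ := step 1 (by omega)
  norm_num at s1 s2 s3 s4 s5 s6
  have aff : ∀ v : ℕ, v < 4 → ∀ n : ℕ, a v * n + b v =
      a 0 * n + (b 1 - b 0) * ((r + (v : ℕ) : ℤ) : K) + (b 0 - (b 1 - b 0) * r) := by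
    intro v hv n
    interval_cases v <;> push_cast
    · ring
    · rw [s1]; ring
    · rw [s2]; linear_combination s3
    · rw [s5, s1]; linear_combination s6 + 2 * s3
  refine ⟨a 0, b 1 - b 0, b 0 - (b 1 - b 0) * r, ⟨c + 0, by omega, r + (0 : ℕ), ?_⟩, ?_⟩
  · rw [← aff 0 (by omega), ha, hb]
    have := hg 0 (by omega) 0 (by omega) 0 (Or.inl rfl)
    simpa using this
  set A := a 0
  set B := b 1 - b 0
  set C := b 0 - B * r
  have rowall : ∀ (m : ℤ) (n1 : ℕ), n1 + 3 < 159 → (∀ t : ℕ, t < 4 → PP F A B C (n1 + t) m) →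
      ∀ n : ℕ, n < 159 → PP F A B C n m := by
    intro m n1 hn h n hn'
    have := line_all hF A B C 0 m n1 hn (by simpa using h) n hn'
    simpa using this
  have all : ∀ m : ℤ, ∀ v : ℕ, v < 4 → ∀ n : ℕ, n < 159 → PP F A B C n (r + m + (v : ℕ)) := by
    intro m
    induction m using Int.induction_on with
    | zero =>
      intro v hv
      refine rowall _ c (by omega) fun t ht _ => ?_
      rw [add_zero, row t ht v hv, aff v hv]
    | succ m ih =>
      intro v hv
      by_cases h3 : v < 3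
      · have := ih (v + 1) (by omega)
        have e : r + ((m : ℤ) + 1) + (v : ℕ) = r + m + (v + 1 : ℕ) := by push_cast; ring
        rw [e]; exact this
      · obtain rfl : v = 3 := by omega
        refine rowall _ 4 (by omega) fun t ht => ?_
        have := line_all hF A B C 1 (r + m - t) t (by omega) (fun t' ht' => by
          have e : r + m - t + 1 * ((t + t' : ℕ) : ℤ) = r + m + (t' : ℕ) := by push_cast; ring
          rw [e]; exact ih t' ht' _ (by omega)) (4 + t) (by omega)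
        have e : r + m - t + 1 * ((4 + t : ℕ) : ℤ) = r + ((m : ℤ) + 1) + (3 : ℕ) := by
          push_cast; ring
        rwa [e] at this
    | pred m ih =>
      intro v hv
      by_cases h3 : v = 0
      · subst h3
        refine rowall _ 0 (by omega) fun t ht => ?_
        have := line_all hF A B C 1 (r - m - 1 - t) (t + 1) (by omega) (fun t' ht' => by
          have e : r - m - 1 - t + 1 * ((t + 1 + t' : ℕ) : ℤ) = r + -(m : ℤ) + (t' : ℕ) := by
            push_cast; ring
          rw [e]; exact ih t' ht' _ (by omega)) (0 + t) (by omega)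
        have e : r - m - 1 - t + 1 * ((0 + t : ℕ) : ℤ) = r + (-(m : ℤ) - 1) + (0 : ℕ) := by
          push_cast; ring
        rwa [e] at this
      · obtain ⟨v, rfl⟩ : ∃ v', v = v' + 1 := ⟨v - 1, by omega⟩
        have := ih v (by omega)
        have e : r + (-(m : ℤ) - 1) + (v + 1 : ℕ) = r + -(m : ℤ) + (v : ℕ) := by push_cast; ring
        rw [e]; exact this
  intro n hn m
  have := all (m - r) 0 (by omega) n hn
  simpa using this

theorem descent (M : ℕ) : ∀ (F : ℕ → ℤ → K), IsSud F → 0 < M → (∀ n m, F n (m + M) = F n m) →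
    ∀ A B C : K, B ≠ 0 → (∀ n : ℕ, n < 159 → ∀ m, PP F A B C n m) → False := by
  induction M using Nat.strong_induction_on with
  | _ M ih =>
  intro F hF hM0 hM A B C hB hP
  have hdvd : 53 ∣ M := by
    rw [← ZMod.natCast_eq_zero_iff]
    have key : ∀ t : ℕ, B * t + C = 0 ∨ B * t + (B * M + C) = 0 ∨ (M : K) = 0 := by
      intro t
      by_contra hc
      push Not at hc
      obtain ⟨h1, h2, h3⟩ := hc
      have a1 := hP 0 (by omega) t (by simpa using h1)
      have a2 := hP 0 (by omega) (t + M) (by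
        intro h; apply h2; push_cast at h; linear_combination h)
      rw [hM, a1] at a2
      push_cast at a2
      exact h3 (mul_left_cancel₀ hB (by linear_combination -a2))
    by_contra hc
    rcases key 0 with h0 | h0 | h0 <;> rcases key 1 with h1 | h1 | h1 <;>
      rcases key 2 with h2 | h2 | h2 <;>
      first
      | exact hc (by assumption)
      | exact hB (two_zero (by omega) (by omega) (by omega) h0 h1).1
      | exact hB (two_zero (by omega) (by omega) (by omega) h0 h2).1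
      | exact hB (two_zero (by omega) (by omega) (by omega) h1 h2).1
  obtain ⟨M', rfl⟩ := hdvd
  obtain ⟨α, hα⟩ := ZMod.intCast_surjective (-A / B)
  obtain ⟨β, hβ⟩ := ZMod.intCast_surjective (-C / B)
  have eα : A + B * α = 0 := by rw [hα]; field_simp; ring
  have eβ : B * β + C = 0 := by rw [hβ]; field_simp; ring
  let F' : ℕ → ℤ → K := fun n m => F n (α * n + β + 53 * m)
  have hF' : IsSud F' := by
    intro i j
    have := hF (α + 53 * i) (β + 53 * j)
    have e : (fun n : ℕ => F' n (j + i * n)) =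
        fun n : ℕ => F n (β + 53 * j + (α + 53 * i) * n) := by
      funext n
      simp only [F']; congr 1; ring
    rw [e]; exact this
  have hM' : ∀ n m, F' n (m + M') = F' n m := by
    intro n m
    simp only [F']
    rw [← hM n (α * n + β + 53 * m)]; congr 1; push_cast; ring
  obtain ⟨A', B', C', ⟨n0, hn0, m0, h0⟩, hP'⟩ := struct hF' (by omega) hM'
  refine ih M' (by omega) F' hF' (by omega) hM' A' B' C' ?_ hP'
  intro hB'
  subst hB'
  have c1 : ∀ t : ℕ, t < 3 → F' (n0 + 53 * t) t = A' * n0 + C' := by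
    intro t ht
    have e : A' * ((n0 + 53 * t : ℕ) : K) + 0 * ((t : ℤ) : K) + C' = A' * n0 + C' := by
      push_cast; rw [p_zero']; ring
    have := hP' (n0 + 53 * t) (by omega) t (by rw [e]; simpa using h0)
    rwa [e] at this
  have e1 : A + B * ((α + 1 : ℤ) : K) = B := by push_cast; linear_combination eα
  have e2 : B * ((β - n0 : ℤ) : K) + C = -(B * n0) := by push_cast; linear_combination eβ
  have hw := line_wit hF A B C (α + 1) (β - n0) 0 (by omega) (fun t ht => hP _ (by omega) _)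
    (Or.inl (by rw [e1]; exact hB))
  rw [e1, e2] at hw
  obtain ⟨b', hb'⟩ := hw.2 n0 hn0 (by ring)
  have key : ∀ t : ℕ, t < 3 → B * t + b' = 0 ∨ B * t + (b' - (A' * n0 + C')) = 0 := by
    intro t ht
    by_cases h : B * t + b' = 0
    · exact Or.inl h
    · right
      have a1 := hb' t ht h
      have a2 := c1 t ht
      have e : β - n0 + (α + 1) * ((n0 + 53 * t : ℕ) : ℤ) =
          α * ((n0 + 53 * t : ℕ) : ℤ) + β + 53 * t := by push_cast; ring
      simp only [F'] at a1 a2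
      rw [e, a2] at a1
      linear_combination -a1
  rcases key 0 (by omega) with h0 | h0 <;> rcases key 1 (by omega) with h1 | h1 <;>
    rcases key 2 (by omega) with h2 | h2 <;>
    first
    | exact hB (two_zero (by omega) (by omega) (by omega) h0 h1).1
    | exact hB (two_zero (by omega) (by omega) (by omega) h0 h2).1
    | exact hB (two_zero (by omega) (by omega) (by omega) h1 h2).1

/-- Last nonzero digit in base 53. -/
def dig (m : ℤ) : K := if _h : m = 0 then 1 else if _h2 : 53 ∣ m then dig (m / 53) else m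
termination_by m.natAbs
decreasing_by omega

theorem dig_zero : dig 0 = 1 := by rw [dig]; simp

theorem dig_mul (m : ℤ) : dig (53 * m) = dig m := by
  by_cases h : m = 0
  · simp [h]
  · rw [dig, dif_neg (by omega), dif_pos (dvd_mul_right _ _), Int.mul_ediv_cancel_left _ (by norm_num)]

theorem dig_of_ne {m : ℤ} (h : (m : K) ≠ 0) : dig m = m := by
  have h1 : ¬ (53 : ℤ) ∣ m := fun h2 => h ((ZMod.intCast_zmod_eq_zero_iff_dvd m 53).2 h2)
  rw [dig, dif_neg (by rintro rfl; simp at h1), dif_neg h1]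

theorem dig_line (N : ℕ) : ∀ i j : ℤ, i.natAbs + j.natAbs ≤ N →
    Line (fun n => dig (j + i * n)) := by
  induction N using Nat.strong_induction_on with
  | _ N ih =>
  intro i j hN
  by_cases h0 : i = 0 ∧ j = 0
  · obtain ⟨rfl, rfl⟩ := h0
    refine ⟨0, 1, Or.inr one_ne_zero, fun n _ _ => by simp [dig_zero], fun n0 _ h => ?_⟩
    simp at h
  by_cases h1 : (53 : ℤ) ∣ i ∧ (53 : ℤ) ∣ j
  · obtain ⟨⟨i', rfl⟩, ⟨j', rfl⟩⟩ := h1
    have := ih (i'.natAbs + j'.natAbs) (by omega) i' j' le_rfl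
    convert this using 2 with n
    rw [← dig_mul (j' + i' * n)]; congr 1; ring
  refine ⟨i, j, ?_, fun n _ h => ?_, fun n0 _ h => ?_⟩
  · by_contra hc
    push Not at hc
    exact h1 ⟨(ZMod.intCast_zmod_eq_zero_iff_dvd i 53).1 hc.1,
      (ZMod.intCast_zmod_eq_zero_iff_dvd j 53).1 hc.2⟩
  · have e : ((j + i * n : ℤ) : K) = i * n + j := by push_cast; ring
    show dig (j + i * n) = _
    rw [dig_of_ne (by rw [e]; exact h), e]
  · obtain ⟨b', hb'⟩ := (ZMod.intCast_zmod_eq_zero_iff_dvd (j + i * n0) 53).1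
      (by push_cast; linear_combination h)
    refine ⟨b', fun t _ ht => ?_⟩
    have e : j + i * ((n0 + 53 * t : ℕ) : ℤ) = 53 * (b' + i * t) := by
      push_cast at hb' ⊢; linear_combination hb'
    have e2 : ((b' + i * t : ℤ) : K) = i * t + b' := by push_cast; ring
    show dig (j + i * ((n0 + 53 * t : ℕ) : ℤ)) = _
    rw [e, dig_mul, dig_of_ne (by rw [e2]; exact ht), e2]

theorem line_congr {g g' : ℕ → K} (h : ∀ n : ℕ, n < 159 → g n = g' n) (hg : Line g) : Line g' := by
  obtain ⟨a, b, h1, h2, h3⟩ := hg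
  refine ⟨a, b, h1, fun n hn h0 => by rw [← h n hn]; exact h2 n hn h0, fun n0 hn h0 => ?_⟩
  obtain ⟨b', hb'⟩ := h3 n0 hn h0
  exact ⟨b', fun t ht h4 => by rw [← h _ (by omega)]; exact hb' t ht h4⟩

/-- Extension of a function on `Fin 159` to the natural numbers. -/
def extd (s : Fin 159 → K × Bool) (n : ℕ) : K := if h : n < 159 then (s ⟨n, h⟩).1 else 0

end Sudoku

open Sudoku in
theorem exists_puzzle : ∃ (w : Fin 159 → ℤ × ℤ) (d : ZMod 53 × Bool → ZMod 53)
    (Ω : Set (Fin 159 → ZMod 53 × Bool)), Puzzle 53 w d Ω := by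
  refine ⟨fun n => (1, -(n : ℕ)), fun s => if s.2 then 0 else s.1, {s | Line (extd s)}, ?_, ?_⟩
  · refine ⟨fun x n => (dig (x.2 + x.1 * (n : ℕ)), decide (((x.2 + x.1 * (n : ℕ) : ℤ) : K) = 0)),
      ⟨fun x => ?_, fun x n => ?_⟩, fun x n => ?_⟩
    · exact line_congr (fun n hn => by simp [extd, hn]) (dig_line _ x.1 x.2 le_rfl)
    · have e : (x + (1, -((n : ℕ) : ℤ))).2 + (x + (1, -((n : ℕ) : ℤ))).1 * (n : ℕ) =
          x.2 + x.1 * (n : ℕ) := by simp only [Prod.snd_add, Prod.fst_add]; ring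
      simp only [e]
    · have hd : ∀ m : ℤ, (if decide ((m : K) = 0) then (0 : K) else dig m) = m := by
        intro m
        by_cases h : (m : K) = 0
        · simp [h]
        · simp [h, dig_of_ne h]
      intro k k' hk
      simp only [hd, Prod.snd_add, Prod.fst_add] at hk
      push_cast at hk
      exact Fin.ext (cast_inj k.2 k'.2 (by linear_combination hk))
  · intro φ hφ hinj N hN hper
    have inv : ∀ (n : Fin 159) (i j : ℤ), φ (i, j) n = φ (0, j + i * (n : ℕ)) n := by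
      intro n i
      induction i using Int.induction_on with
      | zero => intro j; simp
      | succ i ih =>
        intro j
        have := hφ.2 ((i : ℤ), j + (n : ℕ)) n
        simp only [Prod.mk_add_mk, add_neg_cancel_right] at this
        rw [this, ih]; congr 2; ring
      | pred i ih =>
        intro j
        have := hφ.2 (-(i : ℤ) - 1, j) n
        simp only [Prod.mk_add_mk, sub_add_cancel] at this
        rw [← this, ih]; congr 2; ring
    let F : ℕ → ℤ → K := fun n m => extd (φ (0, m)) n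
    have hF : IsSud F := fun i j => line_congr (fun n hn => by
      simp only [F, extd, hn, dif_pos]; rw [inv]) (hφ.1 (i, j))
    have hM : ∀ n m, F n (m + N) = F n m := by
      intro n m
      have := hper (0, m) (0, 1)
      simp only [Prod.smul_mk, smul_zero, Prod.mk_add_mk, add_zero, nsmul_eq_mul, mul_one] at this
      simp only [F, this]
    obtain ⟨A, B, C, ⟨n0, hn0, m0, h0⟩, hP⟩ := struct hF hN hM
    refine descent N F hF hN hM A B C ?_ hP
    intro hB
    subst hB
    have hn : n0 < 159 := by omega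
    have c1 : ∀ m : ℤ, (φ (0, m) ⟨n0, hn⟩).1 = A * n0 + C := by
      intro m
      have := hP n0 hn m (by simpa using h0)
      simpa [F, extd, hn] using this
    obtain ⟨s, t, hst, he⟩ := Fintype.exists_ne_map_eq_of_card_lt
      (fun k : Fin 53 => (φ (0, ((k : ℕ) : ℤ)) ⟨n0, hn⟩).2) (by simp)
    refine hst (hinj (0, 0) ⟨n0, hn⟩ ?_)
    simp only [Prod.mk_add_mk, zero_add]
    exact Prod.ext (by rw [c1, c1]) he

end Pool.Agent.H790Z.PT
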