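import Pool.Agent.H790Z.PT.Prime
import Pool.Agent.H790Z.PT.Lift

/-!
Algebra: a direct sum `ι F ⊕ R` with `R` a transversal of a subgroup of prime index is
aperiodic and rigid; transport along a relabelling of the coordinates.
-/

set_option autoImplicit false

namespace Pool.Agent.H790Z.PT.TreeT

section alg

variable {G Γ Z : Type} [AddCommGroup G] [AddCommGroup Γ] [AddCommGroup Z]

lemma aper_sum (ι : G →+ Γ) (β : Γ →+ G) (hβ : ∀ b, β (ι b) = b) (χ : Γ →+ Z)
    (hχ : ∀ b, χ (ι b) = 0) {R : Set Γ} (hR : R.Finite) (hinj : Set.InjOn χ R)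
    (hsurj : ∀ y, ∃ r ∈ R, χ r = y) {F : Set G} (hF : Aper F) :
    Aper ((fun j : G × Γ => ι j.1 + j.2) '' (F ×ˢ R)) := by
  obtain ⟨hfin, ⟨A, hA⟩, hno⟩ := hF
  have direct : ∀ f f' r r', r ∈ R → r' ∈ R → ι f + r = ι f' + r' → f = f' ∧ r = r' := by
    intro f f' r r' hr hr' h
    have h1 := congrArg χ h
    rw [map_add, map_add, hχ, hχ, zero_add, zero_add] at h1
    have h2 := hinj hr hr' h1
    subst h2
    have h3 := congrArg β (add_right_cancel h)
    rw [hβ, hβ] at h3
    exact ⟨h3, rfl⟩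
  refine ⟨(hfin.prod hR).image _, ⟨{z | χ z = 0 ∧ β z ∈ A}, fun x => ?_⟩, fun A' hA' hper => ?_⟩
  · obtain ⟨r, hr, hχr⟩ := hsurj (χ x)
    obtain ⟨a, ⟨ha, hf⟩, huniq⟩ := hA (β (x - r))
    refine ⟨x - r - ι (β (x - r) - a), ⟨⟨?_, ?_⟩, (β (x - r) - a, r), ⟨hf, hr⟩, ?_⟩, ?_⟩
    · rw [map_sub, map_sub, hχ, hχr]
      simp
    · rw [map_sub β (x - r), hβ]
      simpa using ha
    · simp only
      abel
    · rintro b ⟨⟨hb1, hb2⟩, ⟨f, r'⟩, ⟨hf', hr'⟩, e⟩
      simp only at e hf' hr'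
      have h1 := congrArg χ e
      rw [map_add, map_sub, hχ, hb1, zero_add, sub_zero, ← hχr] at h1
      have h2 := hinj hr' hr h1
      subst h2
      have h3 : b = x - r' - ι f := by
        rw [sub_sub, add_comm r', e]
        abel
      have h4 : β b = β (x - r') - f := by
        rw [h3, map_sub β (x - r'), hβ]
      have h5 := huniq (β b) ⟨hb2, by rw [h4]; simpa using hf'⟩
      rw [← h5, h4, h3]
      simp
  · refine hno {b | ∃ a ∈ A', ∃ r ∈ R, ι b = a + r} (fun x => ?_) ?_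
    · obtain ⟨a, ⟨ha, ⟨f, r⟩, ⟨hf, hr⟩, e⟩, huniq⟩ := hA' (ι x)
      simp only at e hf hr
      refine ⟨x - f, ⟨⟨a, ha, r, hr, ?_⟩, by simpa using hf⟩, ?_⟩
      · rw [map_sub, sub_eq_iff_eq_add, add_assoc, add_comm r, e]
        abel
      · rintro b ⟨⟨a', ha', r', hr', e'⟩, hf'⟩
        have e2 : ι (x - b) + r' = ι x - a' := by
          rw [map_sub, e']
          abel
        have h1 := huniq a' ⟨ha', (x - b, r'), ⟨hf', hr'⟩, e2⟩
        rw [h1, ← e] at e2
        rw [← (direct _ _ _ _ hr' hr e2).1]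
        simp
    · obtain ⟨N, hN, h⟩ := hper
      refine ⟨N, hN, ?_⟩
      rintro b ⟨a, ha, r, hr, e⟩ x
      refine ⟨a + N • ι x, h a ha _, r, hr, ?_⟩
      rw [map_add, map_nsmul, e]
      abel

lemma tiles_R (ι : G →+ Γ) (χ : Γ →+ Z) (hχ : ∀ b, χ (ι b) = 0) {R : Set Γ}
    (hinj : Set.InjOn χ R) {F : Set G} {A : Set Γ}
    (hA : Tiles A ((fun j : G × Γ => ι j.1 + j.2) '' (F ×ˢ R))) :
    Tiles {b | ∃ a ∈ A, ∃ f ∈ F, b = a + ι f} R := by
  intro x
  obtain ⟨a, ⟨ha, ⟨f, r⟩, ⟨hf, hr⟩, e⟩, huniq⟩ := hA x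
  simp only at e hf hr
  have e0 : x - (a + ι f) = r := by
    rw [← sub_sub, ← e]
    abel
  refine ⟨a + ι f, ⟨⟨a, ha, f, hf, rfl⟩, by rwa [e0]⟩, ?_⟩
  rintro b ⟨⟨a', ha', f', hf', rfl⟩, hr'⟩
  have e2 : ι f' + (x - (a' + ι f')) = x - a' := by abel
  have h1 := huniq a' ⟨ha', (f', x - (a' + ι f')), ⟨hf', hr'⟩, e2⟩
  subst h1
  have h2 := congrArg χ (e.trans e2.symm)
  rw [map_add, map_add, hχ, hχ, zero_add, zero_add] at h2
  have h3 := hinj hr hr' h2
  rw [← e0] at h3
  exact (sub_right_injective h3).symm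

end alg

lemma rigid_sum {G C : Type} [AddCommGroup G] [Fintype C] [DecidableEq C] {p : ℕ} (hp : p.Prime)
    (ι : G →+ (C → ℤ)) (χ : (C → ℤ) →+ ZMod p) (hχ : ∀ b, χ (ι b) = 0) {R : Set (C → ℤ)}
    (hR : R.Finite) (hinj : Set.InjOn χ R) (hsurj : ∀ y, ∃ r ∈ R, χ r = y)
    (h0 : (0 : C → ℤ) ∈ R) (h1 : ∀ c, (Pi.single c (-1) : C → ℤ) ∈ R) {F : Set G}
    (hF : F.Nonempty) : Rigid ((fun j : G × (C → ℤ) => ι j.1 + j.2) '' (F ×ˢ R)) := by
  haveI : NeZero p := ⟨hp.ne_zero⟩
  have hcard : hR.toFinset.card = p := by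
    rw [← ZMod.card p, ← Finset.card_univ]
    refine Finset.card_nbij χ (fun _ _ => Finset.mem_coe.2 (Finset.mem_univ _)) ?_ ?_
    · simpa using hinj
    · intro y _
      obtain ⟨r, hr, e⟩ := hsurj y
      exact ⟨r, by simpa using hr, e⟩
  obtain ⟨f0, hf0⟩ := hF
  refine ⟨p, hp.pos, fun A hA a ha a' ha' z i e => ?_⟩
  have hB := tiles_R ι χ hχ hinj hA
  set B := {b | ∃ a ∈ A, ∃ f ∈ F, b = a + ι f} with hBdef
  have key := prime_tile B hR.toFinset (by rwa [hcard]) (by simpa using hB)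
  rw [hcard] at key
  have m0 : (0 : C → ℤ) ∈ hR.toFinset := by simpa using h0
  have m1 : ∀ c, (Pi.single c (-1) : C → ℤ) ∈ hR.toFinset := fun c => by simpa using h1 c
  have step : ∀ (c : C) (n : ℤ), ∀ b ∈ B, b + p • (Pi.single c n : C → ℤ) ∈ B := by
    intro c n
    induction n using Int.induction_on with
    | zero => simp
    | succ n ih =>
      intro b hb
      have := key _ (ih b hb) _ m0 _ (m1 c)
      convert this using 1
      rw [add_assoc, ← smul_add, zero_sub, ← Pi.single_neg, ← Pi.single_add, neg_neg]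
    | pred n ih =>
      intro b hb
      have := key _ (ih b hb) _ (m1 c) _ m0
      convert this using 1
      rw [add_assoc, ← smul_add, sub_zero, ← Pi.single_add, sub_eq_add_neg]
  have all : ∀ z : C → ℤ, ∀ b ∈ B, b + p • z ∈ B := by
    intro z
    induction z using Pi.single_induction with
    | zero => simp
    | add x y hx hy =>
      intro b hb
      rw [smul_add, ← add_assoc]
      exact hy _ (hx b hb)
    | single c n => exact step c n
  have b1 : a + ι f0 + p • z ∈ B := all z _ ⟨a, ha, f0, hf0, rfl⟩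
  have b2 : a' + ι f0 ∈ B := ⟨a', ha', f0, hf0, rfl⟩
  have := (hB (a + ι f0 + p • z)).unique ⟨b1, by simpa using h0⟩ ⟨b2, by
    have : a + ι f0 + p • z - (a' + ι f0) = Pi.single i (-1) := by
      rw [e, Pi.single_neg]
      abel
    rw [this]
    exact h1 i⟩
  rw [e] at this
  have h2 := congrFun this i
  simp only [Pi.add_apply, Pi.single_eq_same] at h2
  omega

section transport

variable {C C' : Type} [DecidableEq C] [DecidableEq C'] (e : C ≃ C')

/-- Relabelling of coordinates. -/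
def relab : (C → ℤ) ≃+ (C' → ℤ) where
  toFun z := fun c => z (e.symm c)
  invFun z := fun c => z (e c)
  left_inv z := by funext c; simp
  right_inv z := by funext c; simp
  map_add' _ _ := rfl

lemma relab_single (c : C) (a : ℤ) : relab e (Pi.single c a) = Pi.single (e c) a := by
  funext c'
  change (Pi.single c a : C → ℤ) (e.symm c') = _
  simp only [Pi.single_apply, Equiv.symm_apply_eq]

lemma tree_relab {J : Type} {pos : J → C → ℤ} {rk : J → ℕ} {s : Set J} {j0 : J}
    (h : Tree pos rk s j0) : Tree (fun j => relab e (pos j)) rk s j0 := by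
  refine ⟨h.1, h.2.1, fun j hj hne => ?_⟩
  obtain ⟨j', hj', i, h1, h2, h3⟩ := h.2.2 j hj hne
  refine ⟨j', hj', e i, h1, ?_, fun k hk hkj hr hc => ?_⟩
  · rcases h2 with h2 | h2
    · left
      simp only [h2, map_add, relab_single]
    · right
      simp only [h2, map_sub, relab_single]
  · have := h3 k hk hkj hr fun c => by
      have := hc (e c)
      simpa [relab] using this
    simpa [relab] using this

lemma rigid_relab {X : Set (C → ℤ)} (h : Rigid X) : Rigid (relab e '' X) := by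
  obtain ⟨N, hN, h⟩ := h
  refine ⟨N, hN, fun A hA a ha a' ha' z i h1 => ?_⟩
  have hA' : Tiles (relab e ⁻¹' A) X := by
    intro x
    obtain ⟨b, ⟨hb, y, hy, e1⟩, huniq⟩ := hA (relab e x)
    refine ⟨(relab e).symm b, ⟨by simpa using hb, ?_⟩, fun b' hb' => ?_⟩
    · have : x - (relab e).symm b = y := (relab e).injective (by rw [map_sub, e1]; simp)
      rwa [this]
    · have := huniq (relab e b') ⟨hb'.1, x - b', hb'.2, by rw [map_sub]⟩
      rw [← this]
      simp
  refine h _ hA' ((relab e).symm a) (by simpa using ha) ((relab e).symm a') (by simpa using ha')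
    ((relab e).symm z) (e.symm i) ((relab e).injective ?_)
  rw [map_add, map_add, map_nsmul, relab_single, h1]
  simp

end transport

end Pool.Agent.H790Z.PT.TreeT
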