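import Pool.Agent.H790Z.PT.Defs

/-!
Geometry of the thin fundamental domain: a root cube, arms in all negative coordinate
directions and monotone staircase tentacles.
-/

set_option autoImplicit false

namespace Pool.Agent.H790Z.PT.TreeT

/-- The monotone staircase from `0` to `E` which fills the coordinates in the order `ρ`. -/
def Path {C : Type} (E : C → ℤ) (ρ : C → ℕ) : Set (C → ℤ) :=
  {z | (∀ c, 0 ≤ z c ∧ z c ≤ E c) ∧ ∀ c c', ρ c < ρ c' → 0 < z c' → z c = E c}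

section path
variable {C : Type} {E : C → ℤ} {ρ : C → ℕ}

lemma chain (hinj : ∀ c c', 0 < E c → 0 < E c' → ρ c = ρ c' → c = c') {z z' : C → ℤ}
    (hz : z ∈ Path E ρ) (hz' : z' ∈ Path E ρ) : (∀ c, z c ≤ z' c) ∨ ∀ c, z' c ≤ z c := by
  by_contra h
  push Not at h
  obtain ⟨⟨c, hc⟩, c', hc'⟩ := h
  have a1 := hz.1 c
  have a2 := hz'.1 c
  have a3 := hz.1 c'
  have a4 := hz'.1 c'
  rcases lt_trichotomy (ρ c) (ρ c') with h | h | h
  · have := hz'.2 c c' h (by omega)
    omega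
  · have := hinj c c' (by omega) (by omega) h
    subst this
    omega
  · have := hz.2 c' c h (by omega)
    omega

lemma exists_cur [Fintype C] [DecidableEq C]
    (hinj : ∀ c c', 0 < E c → 0 < E c' → ρ c = ρ c' → c = c') {z : C → ℤ}
    (hz : z ∈ Path E ρ) (h0 : z ≠ 0) :
    ∃ i, 0 < z i ∧ z - Pi.single i 1 ∈ Path E ρ ∧
      ∀ z' ∈ Path E ρ, (∀ c, z' c ≤ z c) → z' ≠ z → z' i < z i := by
  have hne : (Finset.univ.filter fun c => 0 < z c).Nonempty := by
    by_contra h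
    apply h0
    funext c
    have h1 : ¬ 0 < z c := fun hc => h ⟨c, by simpa using hc⟩
    have := hz.1 c
    change z c = 0
    omega
  obtain ⟨i, hi, hmax⟩ := Finset.exists_max_image _ ρ hne
  have hi' : 0 < z i := by simpa using hi
  have hmax' : ∀ c, 0 < z c → ρ c ≤ ρ i := fun c hc => hmax c (by simpa using hc)
  refine ⟨i, hi', ⟨fun c => ?_, fun c c' hlt hpos => ?_⟩, fun z' hz' hle hne' => ?_⟩
  · have := hz.1 c
    by_cases hc : c = i
    · subst hc
      simp only [Pi.sub_apply, Pi.single_eq_same]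
      omega
    · simp only [Pi.sub_apply, Pi.single_eq_of_ne hc]
      omega
  · have hpos' : 0 < z c' := by
      by_cases hc : c' = i
      · subst hc
        exact hi'
      · simpa only [Pi.sub_apply, Pi.single_eq_of_ne hc, sub_zero] using hpos
    have h1 := hmax' c' hpos'
    have hc : c ≠ i := by
      rintro rfl
      omega
    simp only [Pi.sub_apply, Pi.single_eq_of_ne hc, sub_zero]
    exact hz.2 c c' hlt hpos'
  · by_contra h
    have hi2 : z' i = z i := le_antisymm (hle i) (by omega)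
    apply hne'
    funext c
    have a1 := hz.1 c
    have a2 := hz'.1 c
    have a3 := hle c
    have a4 := hz.1 i
    by_cases hc : 0 < z c
    · rcases lt_or_eq_of_le (hmax' c hc) with h1 | h1
      · have := hz'.2 c i h1 (by omega)
        omega
      · have := hinj c i (by omega) (by omega) h1
        subst this
        exact hi2
    · omega

end path

/-- The data of the construction. -/
structure Data (G T C : Type) [AddCommGroup G] where
  ι : G →+ (C → ℤ)
  μ : G →+ ℤ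
  Δ : T → G
  al : T → C
  be : T → C
  ga : C
  ρ : T → C → ℕ
  ι_al : ∀ b t, ι b (al t) = 8 * μ b
  ι_be : ∀ b t, ι b (be t) = 8 * μ b
  ι_ga : ∀ b, ι b ga = 8 * μ b
  al_inj : Function.Injective al
  be_inj : Function.Injective be
  al_ne_be : ∀ t t', al t ≠ be t'
  ga_ne_al : ∀ t, ga ≠ al t
  ga_ne_be : ∀ t, ga ≠ be t
  pos : ∀ t, 0 < μ (Δ t)
  nonneg : ∀ t c, 0 ≤ ι (Δ t) c
  ρ_inj : ∀ t c c', 0 < ι (Δ t) c → 0 < ι (Δ t) c' → ρ t c = ρ t c' → c = c'
  ρ_al : ∀ t c, c ≠ al t → 0 < ι (Δ t) c → ρ t (al t) < ρ t c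
  ρ_be : ∀ t c, c ≠ be t → 0 < ι (Δ t) c → ρ t c < ρ t (be t)
  ρ_ba : ∀ t t', t' ≠ t → ρ t (be t') < ρ t (al t')

namespace Data

variable {G T C : Type} [AddCommGroup G] (D : Data G T C)

/-- The tentacle of type `t`. -/
def Tent (t : T) : Set (C → ℤ) :=
  {z | z ∈ Path (D.ι (D.Δ t)) (D.ρ t) ∧ z ≠ 0 ∧ z (D.be t) ≤ 8 * D.μ (D.Δ t) - 2}

variable [DecidableEq C]

/-- The thin tile: root, arms and tentacles. -/
def R : Set (C → ℤ) :=
  {z | z = 0 ∨ (∃ c, z = Pi.single c (-1)) ∨ ∃ t, z ∈ D.Tent t}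

/-- `z` lies on a coordinate axis through the lattice point `ι u`, close to it. -/
def Loc (z : C → ℤ) (u : G) (c : C) (a : ℤ) : Prop :=
  z = D.ι u + Pi.single c a ∧ ((u = 0 ∧ (a = 0 ∨ a = -1)) ∨
    (∃ t, z ∈ D.Tent t ∧ u = 0 ∧ c = D.al t ∧ 1 ≤ a ∧ a ≤ 3) ∨
    ∃ t, z ∈ D.Tent t ∧ u = D.Δ t ∧ c = D.be t ∧ -3 ≤ a ∧ a ≤ -2)

variable {D}

lemma start_form {t : T} {z : C → ℤ} (hz : z ∈ Path (D.ι (D.Δ t)) (D.ρ t))
    (h : z (D.al t) < 8 * D.μ (D.Δ t)) : z = Pi.single (D.al t) (z (D.al t)) := by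
  funext c
  by_cases hc : c = D.al t
  · subst hc
    simp
  · rw [Pi.single_eq_of_ne hc]
    by_contra h0
    have a1 := hz.1 c
    have := hz.2 _ c (D.ρ_al t c hc (by omega)) (by omega)
    rw [D.ι_al] at this
    omega

lemma end_form {t : T} {z : C → ℤ} (hz : z ∈ Path (D.ι (D.Δ t)) (D.ρ t))
    (h : 0 < z (D.be t)) :
    z = D.ι (D.Δ t) + Pi.single (D.be t) (z (D.be t) - 8 * D.μ (D.Δ t)) := by
  funext c
  by_cases hc : c = D.be t
  · subst hc
    simp [D.ι_be]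
  · rw [Pi.add_apply, Pi.single_eq_of_ne hc, add_zero]
    have a1 := hz.1 c
    by_cases h0 : 0 < D.ι (D.Δ t) c
    · exact hz.2 c _ (D.ρ_be t c hc h0) h
    · omega

lemma tent_D {t : T} {z : C → ℤ} (hz : z ∈ D.Tent t) : 1 ≤ z (D.al t) - z (D.be t) := by
  obtain ⟨h1, h2, h3⟩ := hz
  have a1 := h1.1 (D.al t)
  rw [D.ι_al] at a1
  by_cases h : z (D.al t) < 8 * D.μ (D.Δ t)
  · have e := start_form h1 h
    have e2 : z (D.be t) = 0 := by
      rw [e, Pi.single_eq_of_ne (D.al_ne_be t t).symm]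
    have e3 : z (D.al t) ≠ 0 := by
      intro h0
      apply h2
      rw [e, h0]
      simp
    omega
  · omega

omit [DecidableEq C] in
lemma tent_D' {t t' : T} (htt : t ≠ t') {z : C → ℤ} (hz : z ∈ D.Tent t') :
    z (D.al t) - z (D.be t) ≤ 0 := by
  obtain ⟨h1, -, -⟩ := hz
  have a1 := h1.1 (D.al t)
  have a2 := h1.1 (D.be t)
  rw [D.ι_al] at a1
  by_cases h : 0 < z (D.al t)
  · have := h1.2 _ _ (D.ρ_ba t' t htt) h
    rw [D.ι_be] at this
    omega
  · omega

lemma tent_unique {t t' : T} {z : C → ℤ} (hz : z ∈ D.Tent t) (hz' : z ∈ D.Tent t') : t = t' := by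
  by_contra h
  have := tent_D hz
  have := tent_D' h hz'
  omega

lemma loc_or_big {z : C → ℤ} (hz : z ∈ D.R) :
    (∃ u c a, D.Loc z u c a) ∨ ∃ t, z ∈ D.Tent t ∧ 4 ≤ z (D.al t) - z (D.be t) := by
  rcases hz with rfl | ⟨c, rfl⟩ | ⟨t, hz⟩
  · exact Or.inl ⟨0, D.ga, 0, by simp, Or.inl ⟨rfl, Or.inl rfl⟩⟩
  · exact Or.inl ⟨0, c, -1, by simp, Or.inl ⟨rfl, Or.inr rfl⟩⟩
  · by_cases h : 4 ≤ z (D.al t) - z (D.be t)
    · exact Or.inr ⟨t, hz, h⟩
    left
    have a0 := tent_D hz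
    have a1 := hz.1.1 (D.al t)
    have a2 := hz.1.1 (D.be t)
    have a3 := D.pos t
    have a4 := hz.2.2
    rw [D.ι_al] at a1
    by_cases h1 : z (D.al t) < 8 * D.μ (D.Δ t)
    · have e := start_form hz.1 h1
      have e2 : z (D.be t) = 0 := by
        rw [e, Pi.single_eq_of_ne (D.al_ne_be t t).symm]
      exact ⟨0, D.al t, z (D.al t), by simpa using e,
        Or.inr (Or.inl ⟨t, hz, rfl, rfl, by omega, by omega⟩)⟩
    · exact ⟨D.Δ t, D.be t, _, end_form hz.1 (by omega),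
        Or.inr (Or.inr ⟨t, hz, rfl, rfl, by omega, by omega⟩)⟩

lemma tent_or_small {z : C → ℤ} (hz : z ∈ D.R) (t : T) :
    z ∈ D.Tent t ∨ z (D.al t) - z (D.be t) ≤ 1 := by
  rcases hz with rfl | ⟨c, rfl⟩ | ⟨t', hz⟩
  · right
    simp
  · right
    simp only [Pi.single_apply]
    split_ifs <;> omega
  · by_cases h : t = t'
    · subst h
      exact Or.inl hz
    · right
      have := tent_D' h hz
      omega

lemma same_aux {t : T} {z z' : C → ℤ} (hz : z ∈ D.Tent t) (hz' : z' ∈ D.Tent t) {s : ℤ}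
    (hle : ∀ c, z c ≤ z' c)
    (h1 : |8 * s + z (D.al t) - z' (D.al t)| ≤ 1) (h2 : |8 * s + z (D.be t) - z' (D.be t)| ≤ 1)
    (h3 : |8 * s + z D.ga - z' D.ga| ≤ 1) : s = 0 := by
  rw [abs_le] at h1 h2 h3
  have a1 := hle (D.al t)
  have a2 := hz'.1.1 (D.al t)
  have a3 := hz.1.1 (D.be t)
  have a4 := hz'.2.2
  rw [D.ι_al] at a2
  by_contra hs
  have e := start_form hz.1 (by omega)
  have e' := end_form hz'.1 (by omega)
  have b1 : z D.ga = 0 := by rw [e, Pi.single_eq_of_ne (D.ga_ne_al t)]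
  have b2 : z' D.ga = 8 * D.μ (D.Δ t) := by
    rw [e', Pi.add_apply, Pi.single_eq_of_ne (D.ga_ne_be t), D.ι_ga, add_zero]
  have b3 : z (D.be t) = 0 := by rw [e, Pi.single_eq_of_ne (D.al_ne_be t t).symm]
  omega

lemma same {t : T} {z z' : C → ℤ} (hz : z ∈ D.Tent t) (hz' : z' ∈ D.Tent t) {δ : G}
    (h : ∀ c, |D.ι δ c + z c - z' c| ≤ 1) : D.μ δ = 0 := by
  have h1 := h (D.al t)
  have h2 := h (D.be t)
  have h3 := h D.ga
  rw [D.ι_al] at h1
  rw [D.ι_be] at h2
  rw [D.ι_ga] at h3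
  rcases chain (D.ρ_inj t) hz.1 hz'.1 with hle | hle
  · exact same_aux hz hz' hle h1 h2 h3
  · have := same_aux (s := -D.μ δ) hz' hz hle (by rw [abs_le] at *; omega)
      (by rw [abs_le] at *; omega) (by rw [abs_le] at *; omega)
    omega

lemma Loc.bound {z : C → ℤ} {u : G} {c : C} {a : ℤ} (h : D.Loc z u c a) : -3 ≤ a ∧ a ≤ 3 := by
  rcases h.2 with ⟨-, h | h⟩ | ⟨t, -, -, -, h1, h2⟩ | ⟨t, -, -, -, h1, h2⟩ <;> omega

lemma loc_loc {z z' : C → ℤ} {u u' : G} {c c' : C} {a a' : ℤ} (hz : D.Loc z u c a)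
    (hz' : D.Loc z' u' c' a') {δ : G} (h : ∀ c, |D.ι δ c + z c - z' c| ≤ 1) :
    D.μ (δ + u - u') = 0 := by
  have h3 := h D.ga
  have b := hz.bound
  have b' := hz'.bound
  rw [hz.1, hz'.1] at h3
  simp only [Pi.add_apply, D.ι_ga, Pi.single_apply, abs_le] at h3
  rw [map_sub, map_add]
  split_ifs at h3 <;> omega

/-- Classification of contacts between two lattice translates of `R`. -/
lemma near {z z' : C → ℤ} (hz : z ∈ D.R) (hz' : z' ∈ D.R) {δ : G}
    (h : ∀ c, |D.ι δ c + z c - z' c| ≤ 1) :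
    (∃ t, z ∈ D.Tent t ∧ z' ∈ D.Tent t ∧ D.μ δ = 0) ∨
      ∃ u c a u' c' a', D.Loc z u c a ∧ D.Loc z' u' c' a' ∧ D.μ (δ + u - u') = 0 := by
  have key : ∀ t, |(z (D.al t) - z (D.be t)) - (z' (D.al t) - z' (D.be t))| ≤ 2 := by
    intro t
    have h1 := h (D.al t)
    have h2 := h (D.be t)
    rw [D.ι_al] at h1
    rw [D.ι_be] at h2
    rw [abs_le] at *
    omega
  rcases loc_or_big hz with ⟨u, c, a, hl⟩ | ⟨t, ht, hb⟩
  · rcases loc_or_big hz' with ⟨u', c', a', hl'⟩ | ⟨t, ht, hb⟩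
    · exact Or.inr ⟨u, c, a, u', c', a', hl, hl', loc_loc hl hl' h⟩
    · rcases tent_or_small hz t with h1 | h1
      · exact Or.inl ⟨t, h1, ht, same h1 ht h⟩
      · have := key t
        rw [abs_le] at this
        omega
  · rcases tent_or_small hz' t with h1 | h1
    · exact Or.inl ⟨t, ht, h1, same ht h1 h⟩
    · have := key t
      rw [abs_le] at this
      omega

lemma single_eq_single {c c' : C} {a a' : ℤ}
    (h : (Pi.single c a : C → ℤ) = Pi.single c' a') : a = a' ∧ (a = 0 ∨ c = c') := by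
  have h1 := congrFun h c
  have h2 := congrFun h c'
  by_cases hc : c = c'
  · subst hc
    exact ⟨by simpa using h1, Or.inr rfl⟩
  · rw [Pi.single_eq_same, Pi.single_eq_of_ne hc] at h1
    rw [Pi.single_eq_same, Pi.single_eq_of_ne (Ne.symm hc)] at h2
    exact ⟨by omega, Or.inl h1⟩

/-- No two points of `R` differ by a lattice vector. -/
lemma inj_mod (h1 : ∀ δ, D.μ δ = 0 → (∀ c, 0 ≤ D.ι δ c) → δ = 0)
    (h2 : ∀ δ, D.μ δ = 0 → (∀ c, |D.ι δ c| ≤ 6) → δ = 0)
    {z z' : C → ℤ} (hz : z ∈ D.R) (hz' : z' ∈ D.R) {δ : G} (h : z' = D.ι δ + z) : z = z' := by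
  have hc : ∀ c, |D.ι δ c + z c - z' c| ≤ 1 := by
    intro c
    rw [h]
    simp
  rcases near hz hz' hc with ⟨t, ht, ht', h0⟩ | ⟨u, c, a, u', c', a', hl, hl', h0⟩
  · have : δ = 0 := by
      rcases chain (D.ρ_inj t) ht.1 ht'.1 with hle | hle
      · refine h1 δ h0 fun c => ?_
        have := hle c
        rw [h, Pi.add_apply] at this
        omega
      · have := h1 (-δ) (by simp [h0]) fun c => by
          have := hle c
          rw [h, Pi.add_apply] at this
          rw [map_neg, Pi.neg_apply]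
          omega
        simpa using this
    rw [h, this]
    simp
  · have e : D.ι (δ + u - u') = Pi.single c' a' - Pi.single c a := by
      rw [map_sub, map_add]
      have := h
      rw [hl.1, hl'.1] at this
      funext i
      have := congrFun this i
      simp only [Pi.add_apply, Pi.sub_apply] at *
      omega
    have b := hl.bound
    have b' := hl'.bound
    have e0 := h2 _ h0 fun i => by
      rw [e]
      simp only [Pi.sub_apply, Pi.single_apply, abs_le]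
      split_ifs <;> omega
    rw [e0, map_zero, eq_comm, sub_eq_zero] at e
    obtain ⟨ea, ec⟩ := single_eq_single e
    have eu : u = u' := by
      rcases hl.2 with ⟨r1, r2⟩ | ⟨t, -, r1, r2, r3, r4⟩ | ⟨t, -, r1, r2, r3, r4⟩ <;>
      rcases hl'.2 with ⟨s1, s2⟩ | ⟨t', -, s1, s2, s3, s4⟩ | ⟨t', -, s1, s2, s3, s4⟩ <;>
      first
        | (rw [r1, s1]; done)
        | omega
        | skip
      have : D.be t' = D.be t := by
        rw [← r2, ← s2]
        exact ec.resolve_left (by omega)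
      rw [r1, s1, D.be_inj this]
    rw [hl.1, hl'.1, eu, e]

end Data

end Pool.Agent.H790Z.PT.TreeT
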