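import Pool.Agent.H790Z.PT.TreeShell
import Pool.Agent.H790Z.PT.TreeAlg

/-!
From an aperiodic tile with a hub point to an aperiodic rigid tile which is a tree of cubes.
-/

set_option autoImplicit false

namespace Pool.Agent.H790Z.PT

namespace TreeT

lemma path_finite {C : Type} [Fintype C] (E : C → ℤ) (ρ : C → ℕ) : (Path E ρ).Finite := by
  classical
  exact (Set.finite_Icc (0 : C → ℤ) E).subset
    fun _ hz => ⟨fun c => (hz.1 c).1, fun c => (hz.1 c).2⟩

namespace Data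

variable {G T C : Type} [AddCommGroup G] (D : Data G T C)

lemma R_finite [Fintype T] [Fintype C] [DecidableEq C] : D.R.Finite := by
  have h1 : (⋃ t, Path (D.ι (D.Δ t)) (D.ρ t)).Finite :=
    Set.finite_iUnion fun t => path_finite _ _
  have h2 := Set.finite_range fun c : C => (Pi.single c (-1) : C → ℤ)
  refine (((Set.finite_singleton 0).union h2).union h1).subset ?_
  rintro z (rfl | ⟨c, rfl⟩ | ⟨t, ht⟩)
  · exact Or.inl (Or.inl rfl)
  · exact Or.inl (Or.inr ⟨c, rfl⟩)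
  · exact Or.inr (Set.mem_iUnion.2 ⟨t, ht.1⟩)

/-- Adding idle coordinates. -/
def ext (L : Type) : Data G T (C ⊕ L) where
  ι := AddMonoidHom.mk' (fun b => Sum.elim (D.ι b) 0) fun a b => by
    funext c
    cases c <;> simp
  μ := D.μ
  Δ := D.Δ
  al t := Sum.inl (D.al t)
  be t := Sum.inl (D.be t)
  ga := Sum.inl D.ga
  ρ t := Sum.elim (D.ρ t) 0
  ι_al := D.ι_al
  ι_be := D.ι_be
  ι_ga := D.ι_ga
  al_inj _ _ h := D.al_inj (Sum.inl_injective h)
  be_inj _ _ h := D.be_inj (Sum.inl_injective h)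
  al_ne_be t t' h := D.al_ne_be t t' (Sum.inl_injective h)
  ga_ne_al t h := D.ga_ne_al t (Sum.inl_injective h)
  ga_ne_be t h := D.ga_ne_be t (Sum.inl_injective h)
  pos := D.pos
  nonneg t c := by
    cases c with
    | inl c => exact D.nonneg t c
    | inr c => exact le_rfl
  ρ_inj t c c' h h' e := by
    cases c with
    | inr c => exact (lt_irrefl _ h).elim
    | inl c =>
      cases c' with
      | inr c' => exact (lt_irrefl _ h').elim
      | inl c' => rw [D.ρ_inj t c c' h h' e]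
  ρ_al t c hc h := by
    cases c with
    | inr c => exact (lt_irrefl _ h).elim
    | inl c => exact D.ρ_al t c (fun e => hc (by rw [e])) h
  ρ_be t c hc h := by
    cases c with
    | inr c => exact (lt_irrefl _ h).elim
    | inl c => exact D.ρ_be t c (fun e => hc (by rw [e])) h
  ρ_ba := D.ρ_ba

variable {D} [DecidableEq C] {L : Type} [DecidableEq L]

lemma single_inl (c : C) (a : ℤ) :
    (Pi.single (Sum.inl c) a : C ⊕ L → ℤ) = Sum.elim (Pi.single c a) 0 := by
  funext i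
  cases i <;> simp [Pi.single_apply]

lemma ext_mem {z : C → ℤ} (hz : z ∈ D.R) : Sum.elim z (0 : L → ℤ) ∈ (D.ext L).R := by
  rcases hz with rfl | ⟨c, rfl⟩ | ⟨t, ⟨h1, h2⟩, h3, h4⟩
  · left
    funext i
    cases i <;> rfl
  · exact Or.inr (Or.inl ⟨Sum.inl c, (single_inl c _).symm⟩)
  · refine Or.inr (Or.inr ⟨t, ⟨fun c => ?_, fun c c' hlt hpos => ?_⟩, fun h => h3 ?_, h4⟩)
    · cases c with
      | inl c => exact h1 c
      | inr c => exact ⟨le_rfl, le_rfl⟩
    · cases c with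
      | inr c => rfl
      | inl c =>
        cases c' with
        | inr c' => exact (lt_irrefl _ hpos).elim
        | inl c' => exact h2 c c' hlt hpos
    · funext c
      exact congrFun h (Sum.inl c)

lemma ext_cases {z : C ⊕ L → ℤ} (hz : z ∈ (D.ext L).R) :
    (∃ z0 ∈ D.R, z = Sum.elim z0 0) ∨ ∃ y : L, z = Pi.single (Sum.inr y) (-1) := by
  rcases hz with rfl | ⟨c, rfl⟩ | ⟨t, ⟨h1, h2⟩, h3, h4⟩
  · refine Or.inl ⟨0, Or.inl rfl, ?_⟩
    funext i
    cases i <;> rfl
  · cases c with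
    | inl c => exact Or.inl ⟨_, Or.inr (Or.inl ⟨c, rfl⟩), single_inl c _⟩
    | inr y => exact Or.inr ⟨y, rfl⟩
  · have e : z = Sum.elim (fun c => z (Sum.inl c)) 0 := by
      funext i
      cases i with
      | inl c => rfl
      | inr y => exact le_antisymm (h1 (Sum.inr y)).2 (h1 (Sum.inr y)).1
    refine Or.inl ⟨fun c => z (Sum.inl c), Or.inr (Or.inr ⟨t, ⟨fun c => h1 (Sum.inl c),
      fun c c' hlt hpos => h2 (Sum.inl c) (Sum.inl c') hlt hpos⟩, fun h => h3 ?_, h4⟩), e⟩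
    rw [e, h]
    funext i
    cases i <;> rfl

lemma exists_chi0 [Fintype T] [Fintype C] (β : (C → ℤ) →+ G) (hβ : ∀ b, β (D.ι b) = b)
    (h1 : ∀ δ, D.μ δ = 0 → (∀ c, 0 ≤ D.ι δ c) → δ = 0)
    (h2 : ∀ δ, D.μ δ = 0 → (∀ c, |D.ι δ c| ≤ 6) → δ = 0) :
    ∃ χ : (C → ℤ) →+ ℤ, (∀ b, χ (D.ι b) = 0) ∧ Set.InjOn χ D.R := by
  let κ : (C → ℤ) →+ (C → ℤ) := AddMonoidHom.id _ - D.ι.comp β
  have hκ : ∀ z, κ z = z - D.ι (β z) := fun _ => rfl
  obtain ⟨k, -, hk⟩ := exists_functional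
    ((fun j : (C → ℤ) × (C → ℤ) => κ (j.1 - j.2)) '' (D.R ×ˢ D.R))
    ((D.R_finite.prod D.R_finite).image _)
  let ν : (C → ℤ) →+ ℤ := AddMonoidHom.mk' (fun s => ∑ c, k c * s c) fun a b => by
    simp only [Pi.add_apply, mul_add, Finset.sum_add_distrib]
  refine ⟨ν.comp κ, fun b => ?_, fun z hz z' hz' e => ?_⟩
  · rw [AddMonoidHom.comp_apply, hκ, hβ, sub_self, map_zero]
  · have e1 : ν (κ (z' - z)) = 0 := by
      rw [map_sub, map_sub, sub_eq_zero]
      exact e.symm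
    have e2 := hk _ ⟨(z', z), ⟨hz', hz⟩, rfl⟩ e1
    simp only [hκ] at e2
    exact inj_mod h1 h2 hz hz' (δ := β (z' - z)) (by rw [← sub_eq_zero.1 e2]; abel)

lemma finish [Fintype T] [Fintype C] {F : Set G} {g : G} (H : Hub D F g) (hF : Aper F)
    (β : (C → ℤ) →+ G) (hβ : ∀ b, β (D.ι b) = b)
    (h1 : ∀ δ, D.μ δ = 0 → (∀ c, 0 ≤ D.ι δ c) → δ = 0)
    (h2 : ∀ δ, D.μ δ = 0 → (∀ c, |D.ι δ c| ≤ 6) → δ = 0) :
    ∃ (n : ℕ) (J : Type) (pos : J → Fin n → ℤ) (rk : J → ℕ) (s : Set J) (j0 : J),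
      s.Finite ∧ Tree pos rk s j0 ∧ Aper (pos '' s) ∧ Rigid (pos '' s) := by
  classical
  obtain ⟨χ0, hχ0, hinj0⟩ := exists_chi0 β hβ h1 h2
  obtain ⟨B, hB⟩ := (D.R_finite.image fun z => (χ0 z).natAbs).bddAbove
  have hB' : ∀ z ∈ D.R, (χ0 z).natAbs ≤ B := fun z hz => hB ⟨z, hz, rfl⟩
  obtain ⟨p, hpB, hp⟩ := Nat.exists_infinite_primes (2 * B + 1)
  haveI : NeZero p := ⟨hp.ne_zero⟩
  have hinj1 : ∀ z ∈ D.R, ∀ z' ∈ D.R, (χ0 z : ZMod p) = χ0 z' → z = z' := by
    intro z hz z' hz' e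
    have e1 := (ZMod.intCast_eq_intCast_iff_dvd_sub _ _ p).1 e
    have b := hB' z hz
    have b' := hB' z' hz'
    have e2 := Int.eq_zero_of_abs_lt_dvd e1 (by rw [abs_lt]; omega)
    exact hinj0 hz hz' (by omega)
  let L : Type := {y : ZMod p // ∀ z ∈ D.R, (χ0 z : ZMod p) ≠ y}
  let χ : (C ⊕ L → ℤ) →+ ZMod p := AddMonoidHom.mk'
    (fun z => (χ0 (fun c => z (Sum.inl c)) : ZMod p) - ∑ y : L, (z (Sum.inr y) : ZMod p) * y.1)
    fun a b => by
      have : (fun c => (a + b) (Sum.inl c)) =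
          (fun c => a (Sum.inl c)) + fun c => b (Sum.inl c) := rfl
      rw [this, map_add]
      simp only [Pi.add_apply, Int.cast_add, add_mul, Finset.sum_add_distrib]
      ring
  have χ1 : ∀ z : C → ℤ, χ (Sum.elim z 0) = χ0 z := fun z => by simp [χ]
  have χ2 : ∀ y : L, χ (Pi.single (Sum.inr y) (-1)) = y.1 := fun y => by
    have e : (fun c => (Pi.single (Sum.inr y) (-1) : C ⊕ L → ℤ) (Sum.inl c)) = 0 := by
      funext c
      simp
    simp only [χ, AddMonoidHom.mk'_apply, e, map_zero, Int.cast_zero, zero_sub]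
    rw [Finset.sum_eq_single y]
    · simp
    · intro y' _ hy
      rw [Pi.single_eq_of_ne fun h => hy (Sum.inr_injective h)]
      simp
    · simp
  have hχ : ∀ b, χ ((D.ext L).ι b) = 0 := fun b => by
    have := χ1 (D.ι b)
    rw [hχ0, Int.cast_zero] at this
    exact this
  have hinj : Set.InjOn χ (D.ext L).R := by
    intro z hz z' hz' e
    rcases ext_cases hz with ⟨z0, h0, rfl⟩ | ⟨y, rfl⟩ <;>
    rcases ext_cases hz' with ⟨z0', h0', rfl⟩ | ⟨y', rfl⟩
    · rw [χ1, χ1] at e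
      rw [hinj1 z0 h0 z0' h0' e]
    · rw [χ1, χ2] at e
      exact (y'.2 z0 h0 e).elim
    · rw [χ1, χ2] at e
      exact (y.2 z0' h0' e.symm).elim
    · rw [χ2, χ2] at e
      rw [Subtype.ext e]
  have hsurj : ∀ y, ∃ r ∈ (D.ext L).R, χ r = y := by
    intro y
    by_cases hy : ∀ z ∈ D.R, (χ0 z : ZMod p) ≠ y
    · exact ⟨_, Or.inr (Or.inl ⟨Sum.inr ⟨y, hy⟩, rfl⟩), χ2 ⟨y, hy⟩⟩
    · push Not at hy
      obtain ⟨z, hz, e⟩ := hy
      exact ⟨_, ext_mem hz, by rw [χ1, e]⟩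
  let β' : (C ⊕ L → ℤ) →+ G :=
    β.comp (AddMonoidHom.mk' (fun z c => z (Sum.inl c)) fun _ _ => rfl)
  have hβ' : ∀ b, β' ((D.ext L).ι b) = b := hβ
  have H' : Hub (D.ext L) F g := ⟨H.mem, H.inj, H.uniq, H.sep⟩
  have hA := aper_sum (D.ext L).ι β' hβ' χ hχ (D.ext L).R_finite hinj hsurj hF
  have hR := rigid_sum hp (D.ext L).ι χ hχ (D.ext L).R_finite hinj hsurj (Or.inl rfl)
    (fun c => Or.inr (Or.inl ⟨c, rfl⟩)) (F := F) ⟨g, (H.mem g).2 (Or.inl rfl)⟩
  let e := Fintype.equivFin (C ⊕ L)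
  have him : (fun j => relab e ((D.ext L).pos' j)) '' (F ×ˢ (D.ext L).R) =
      relab e '' ((fun j : G × (C ⊕ L → ℤ) => (D.ext L).ι j.1 + j.2) '' (F ×ˢ (D.ext L).R)) := by
    rw [Set.image_image]
    rfl
  refine ⟨_, _, fun j => relab e ((D.ext L).pos' j), (D.ext L).rk g, F ×ˢ (D.ext L).R, (g, 0),
    hF.1.prod (D.ext L).R_finite, tree_relab e (tree H'), ?_, ?_⟩
  · rw [him]
    exact Lift.aper_image _ hA
  · rw [him]
    exact rigid_relab e hR

end Data

open Classical in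
/-- The order of the coordinates along the tentacle of type `t`. -/
noncomputable def ord {T C : Type} [Fintype C] (al be : T → C) (t : T) (c : C) : ℕ :=
  (if c = al t then 0 else if c = be t then 3 * Fintype.card C
    else if ∃ t', c = be t' then Fintype.card C else 2 * Fintype.card C) +
    (Fintype.equivFin C c : ℕ)

/-- The concrete data. -/
noncomputable def mkData {d : ℕ} {T : Type} [Fintype T] (μ : (Fin d → ℤ) →+ ℤ)
    (Δ : T → Fin d → ℤ) (hpos : ∀ t, 0 < μ (Δ t)) (hnn : ∀ t j, 0 ≤ Δ t j + 8 * μ (Δ t)) :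
    Data (Fin d → ℤ) T (Fin d ⊕ Option (T × Bool)) where
  ι := AddMonoidHom.mk' (fun b => Sum.elim (fun j => b j + 8 * μ b) fun _ => 8 * μ b)
    fun a b => by
      funext c
      cases c <;> simp <;> ring
  μ := μ
  Δ := Δ
  al t := Sum.inr (some (t, true))
  be t := Sum.inr (some (t, false))
  ga := Sum.inr none
  ρ := ord (fun t => Sum.inr (some (t, true))) fun t => Sum.inr (some (t, false))
  ι_al _ _ := rfl
  ι_be _ _ := rfl
  ι_ga _ := rfl
  al_inj _ _ h := by simpa using h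
  be_inj _ _ h := by simpa using h
  al_ne_be _ _ := by simp
  ga_ne_al _ := by simp
  ga_ne_be _ := by simp
  pos := hpos
  nonneg t c := by
    cases c with
    | inl j => exact hnn t j
    | inr c =>
      have := hpos t
      change 0 ≤ 8 * μ (Δ t)
      omega
  ρ_inj t c c' _ _ e := by
    have a1 := (Fintype.equivFin _ c).2
    have a2 := (Fintype.equivFin _ c').2
    apply (Fintype.equivFin _).injective
    apply Fin.ext
    unfold ord at e
    split_ifs at e <;> omega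
  ρ_al t c hc _ := by
    have a1 := (Fintype.equivFin (Fin d ⊕ Option (T × Bool)) (Sum.inr (some (t, true)))).2
    unfold ord
    rw [if_pos rfl, if_neg hc]
    split_ifs <;> omega
  ρ_be t c hc _ := by
    have a1 := (Fintype.equivFin _ c).2
    unfold ord
    rw [if_neg hc, if_pos rfl, if_neg (show ¬ (Sum.inr (some (t, false)) :
      Fin d ⊕ Option (T × Bool)) = Sum.inr (some (t, true)) by simp)]
    split_ifs <;> omega
  ρ_ba t t' h := by
    have a1 := (Fintype.equivFin (Fin d ⊕ Option (T × Bool)) (Sum.inr (some (t', false)))).2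
    unfold ord
    rw [if_neg (by simp), if_neg (by simpa using h), if_pos ⟨t', rfl⟩,
      if_neg (by simpa using h), if_neg (by simp), if_neg (by simp)]
    omega

end TreeT

open TreeT in
theorem exists_tree_tile {d : ℕ} (F : Set (Fin d → ℤ)) (c : Fin d) (g : Fin d → ℤ)
    (hF : Aper F) (hg : g ∈ F) (hc : g c = -1) (h0 : ∀ f ∈ F, f ≠ g → f c = 0) :
    ∃ (D : ℕ) (J : Type) (pos : J → Fin D → ℤ) (rk : J → ℕ) (s : Set J) (j0 : J),
      s.Finite ∧ Tree pos rk s j0 ∧ Aper (pos '' s) ∧ Rigid (pos '' s) := by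
  classical
  obtain ⟨B0, hB0⟩ := (hF.1.image nrm).bddAbove
  have hB : ∀ f ∈ F, ∀ j, |f j| ≤ (B0 : ℤ) := by
    intro f hf j
    have h1 : nrm f ≤ B0 := hB0 ⟨f, hf, rfl⟩
    have h2 : (f j).natAbs ≤ nrm f :=
      Finset.single_le_sum (f := fun c => (f c).natAbs) (fun _ _ => Nat.zero_le _)
        (Finset.mem_univ j)
    rw [abs_le]
    omega
  have hBn : (0 : ℤ) ≤ B0 := Int.natCast_nonneg _
  generalize (B0 : ℤ) = B at hB hBn
  let S : Set (Fin d → ℤ) := {δ | ∀ j, |δ j| ≤ 6 + 6 * B}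
  have hS : S.Finite := (Set.finite_Icc (fun _ => -(6 + 6 * B)) fun _ => 6 + 6 * B).subset
    fun δ h => ⟨fun j => (abs_le.1 (h j)).1, fun j => (abs_le.1 (h j)).2⟩
  obtain ⟨k, hk0, hk⟩ := exists_functional S hS
  set M : ℤ := ∑ j, k j * (6 + 6 * B) with hM
  have hM0 : ∀ δ ∈ S, |∑ j, k j * δ j| ≤ M := fun δ h =>
    (Finset.abs_sum_le_sum_abs _ _).trans (Finset.sum_le_sum fun j _ => by
      rw [abs_mul, abs_of_pos (hk0 j)]
      exact mul_le_mul_of_nonneg_left (h j) (hk0 j).le)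
  have hMn : 0 ≤ M := (abs_nonneg _).trans (hM0 0 fun j => by simp; omega)
  let μ : (Fin d → ℤ) →+ ℤ := AddMonoidHom.mk'
    (fun δ => ∑ j, k j * δ j + (M + 1 + 2 * B) * δ c) fun a b => by
      simp only [Pi.add_apply, mul_add, Finset.sum_add_distrib]
      ring
  have hμ : ∀ δ, μ δ = ∑ j, k j * δ j + (M + 1 + 2 * B) * δ c := fun _ => rfl
  have μ1 : ∀ δ ∈ S, μ δ = 0 → δ = 0 := by
    intro δ hδ e
    have h1 := abs_le.1 (hM0 δ hδ)
    rw [hμ] at e
    rcases lt_trichotomy (δ c) 0 with h | h | h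
    · nlinarith
    · rw [h, mul_zero, add_zero] at e
      exact hk δ hδ e
    · nlinarith
  have μ2 : ∀ δ, μ δ = 0 → (∀ j, 0 ≤ δ j) → δ = 0 := by
    intro δ e h
    have h1 : 0 ≤ ∑ j, k j * δ j := Finset.sum_nonneg fun j _ => mul_nonneg (hk0 j).le (h j)
    have h2 : 0 ≤ (M + 1 + 2 * B) * δ c := mul_nonneg (by omega) (h c)
    rw [hμ] at e
    have h3 := (Finset.sum_eq_zero_iff_of_nonneg
      fun j _ => mul_nonneg (hk0 j).le (h j)).1 (show ∑ j, k j * δ j = 0 by omega)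
    funext j
    exact (mul_eq_zero.1 (h3 j (Finset.mem_univ j))).resolve_left (hk0 j).ne'
  let T : Type := {f // f ∈ F ∧ f ≠ g}
  haveI : Finite T := (hF.1.subset (s := F) (t := {f | f ∈ F ∧ f ≠ g}) fun _ h => h.1).to_subtype
  letI : Fintype T := Fintype.ofFinite T
  let Δ : T → Fin d → ℤ := fun t => t.1 - g
  have Δb : ∀ t j, |Δ t j| ≤ 2 * B := fun t j => by
    have h1 := hB t.1 t.2.1 j
    have h2 := hB g hg j
    change |t.1 j - g j| ≤ 2 * B
    rw [abs_le] at *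
    omega
  have Δc : ∀ t, Δ t c = 1 := fun t => by
    change t.1 c - g c = 1
    rw [h0 t.1 t.2.1 t.2.2, hc]
    rfl
  have Δμ : ∀ t, 1 + 2 * B ≤ μ (Δ t) := fun t => by
    have h1 := abs_le.1 (hM0 (Δ t) fun j => (Δb t j).trans (by omega))
    rw [hμ, Δc]
    omega
  let D := mkData μ Δ (fun t => by have := Δμ t; omega) fun t j => by
    have := Δμ t
    have := abs_le.1 (Δb t j)
    omega
  have ιl : ∀ b j, D.ι b (Sum.inl j) = b j + 8 * μ b := fun _ _ => rfl
  have H : Data.Hub D F g := by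
    refine ⟨fun f => ⟨fun hf => ?_, ?_⟩, fun t t' h => ?_, fun f hf t ht => ?_,
      fun f hf f' hf' u u' hu hu' e => ?_⟩
    · by_cases h : f = g
      · exact Or.inl h
      · exact Or.inr ⟨⟨f, hf, h⟩, by change f = g + (f - g); abel⟩
    · rintro (rfl | ⟨t, rfl⟩)
      · exact hg
      · have : g + D.Δ t = t.1 := by change g + (t.1 - g) = t.1; abel
        rw [this]
        exact t.2.1
    · exact Subtype.ext (sub_left_injective h)
    · by_contra h
      have h1 := h0 f hf h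
      have h2 : (f + D.Δ t) c = 1 := by
        change f c + Δ t c = 1
        rw [h1, Δc, zero_add]
      by_cases h3 : f + D.Δ t = g
      · rw [h3, hc] at h2
        omega
      · rw [h0 _ ht h3] at h2
        omega
    · have ub : ∀ u : Fin d → ℤ, (u = 0 ∨ ∃ t, u = D.Δ t) → ∀ j, |u j| ≤ 2 * B := by
        rintro u (rfl | ⟨t, rfl⟩) j
        · simpa using hBn
        · exact Δb t j
      have := μ1 (f - f' + u - u') (fun j => by
        have h1 := hB f hf j
        have h2 := hB f' hf' j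
        have h3 := ub u hu j
        have h4 := ub u' hu' j
        simp only [Pi.add_apply, Pi.sub_apply]
        rw [abs_le] at *
        omega) e
      rw [← sub_eq_zero, ← this]
      abel
  refine Data.finish H hF (AddMonoidHom.mk' (fun z j => z (Sum.inl j) - z (Sum.inr none))
    fun a b => ?_) (fun b => ?_) (fun δ e h => μ2 δ e fun j => ?_) fun δ e h => μ1 δ (fun j => ?_) e
  · funext j
    simp only [Pi.add_apply]
    ring
  · funext j
    change b j + 8 * μ b - 8 * μ b = b j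
    ring
  · have := h (Sum.inl j)
    rw [ιl, show μ δ = 0 from e] at this
    omega
  · have := h (Sum.inl j)
    rw [ιl, show μ δ = 0 from e, abs_le] at this
    rw [abs_le]
    omega

end Pool.Agent.H790Z.PT
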