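import Pool.Agent.H790Z.PT.TreeGeo

/-!
The translates of the thin tile placed at the points of `F` form a tree of cubes.
-/

set_option autoImplicit false

namespace Pool.Agent.H790Z.PT.TreeT

/-- The `ℓ¹` norm. -/
def nrm {C : Type} [Fintype C] (z : C → ℤ) : ℕ := ∑ c, (z c).natAbs

section nrm
variable {C : Type} [Fintype C]

lemma nrm_zero : nrm (0 : C → ℤ) = 0 := by simp [nrm]

lemma nrm_single [DecidableEq C] (c : C) (a : ℤ) : nrm (Pi.single c a : C → ℤ) = a.natAbs := by
  unfold nrm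
  rw [Finset.sum_eq_single c]
  · simp
  · intro b _ hb
    simp [Pi.single_eq_of_ne hb]
  · simp

lemma nrm_le {z z' : C → ℤ} (h0 : ∀ c, 0 ≤ z c) (h : ∀ c, z c ≤ z' c) : nrm z ≤ nrm z' :=
  Finset.sum_le_sum fun c _ => by
    have := h0 c
    have := h c
    omega

lemma nrm_lt {z z' : C → ℤ} (h0 : ∀ c, 0 ≤ z c) (h : ∀ c, z c ≤ z' c) (hne : z ≠ z') :
    nrm z < nrm z' := by
  obtain ⟨i, hi⟩ := Function.ne_iff.1 hne
  refine Finset.sum_lt_sum (fun c _ => ?_) ⟨i, Finset.mem_univ _, ?_⟩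
  · have := h0 c
    have := h c
    omega
  · have := h0 i
    have := h i
    omega

end nrm

namespace Data

variable {G T C : Type} [AddCommGroup G] [Fintype T] [Fintype C] [DecidableEq C]
  (D : Data G T C) (g : G)

/-- A bound for the norms of the points of `R`. -/
def W : ℕ := 2 + ∑ t, nrm (D.ι (D.Δ t))

open Classical in
/-- The order in which the cubes are added. -/
noncomputable def rk (j : G × (C → ℤ)) : ℕ :=
  if j.1 = g then nrm j.2
  else if ∃ t, j.1 = g + D.Δ t ∧ j.2 = Pi.single (D.be t) (-1) then D.W else D.W + 1 + nrm j.2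

/-- The position of a cube. -/
def pos' (j : G × (C → ℤ)) : C → ℤ := D.ι j.1 + j.2

variable {D g}

omit [Fintype T] [Fintype C] [DecidableEq C] in
lemma add_ne (t : T) : g + D.Δ t ≠ g := by
  intro h
  have h1 : D.Δ t = 0 := by simpa using h
  have := D.pos t
  rw [h1] at this
  simp at this

lemma rk_hub (z : C → ℤ) : D.rk g (g, z) = nrm z := by simp [rk]

lemma rk_spec (t : T) : D.rk g (g + D.Δ t, Pi.single (D.be t) (-1)) = D.W := by
  unfold rk
  rw [if_neg (add_ne t), if_pos ⟨t, rfl, rfl⟩]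

lemma rk_other {f : G} (hf : f ≠ g) {z : C → ℤ}
    (h : ¬ ∃ t, f = g + D.Δ t ∧ z = Pi.single (D.be t) (-1)) :
    D.rk g (f, z) = D.W + 1 + nrm z := by
  unfold rk
  rw [if_neg hf, if_neg h]

omit [Fintype T] [Fintype C] in
lemma not_spec {f : G} {z : C → ℤ} (hz : ∀ c, 0 ≤ z c) :
    ¬ ∃ t, f = g + D.Δ t ∧ z = Pi.single (D.be t) (-1) := by
  rintro ⟨t, -, h⟩
  have := hz (D.be t)
  rw [h] at this
  simp at this

lemma rk_ge {f : G} (hf : f ≠ g) (z : C → ℤ) : D.W ≤ D.rk g (f, z) := by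
  unfold rk
  rw [if_neg hf]
  split_ifs <;> omega

omit [DecidableEq C] in
lemma nrm_tent {t : T} {z : C → ℤ} (hz : z ∈ D.Tent t) : nrm z < D.W := by
  have h1 := nrm_le (fun c => (hz.1.1 c).1) (fun c => (hz.1.1 c).2)
  have h2 : nrm (D.ι (D.Δ t)) ≤ ∑ t, nrm (D.ι (D.Δ t)) :=
    Finset.single_le_sum (f := fun t => nrm (D.ι (D.Δ t))) (fun _ _ => Nat.zero_le _)
      (Finset.mem_univ t)
  unfold W
  omega

lemma rk_cmp (f : G) {z z' : C → ℤ} (hz : ∀ c, 0 ≤ z c) (hz' : ∀ c, 0 ≤ z' c) :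
    D.rk g (f, z) < D.rk g (f, z') ↔ nrm z < nrm z' := by
  by_cases hf : f = g
  · subst hf
    rw [rk_hub, rk_hub]
  · rw [rk_other hf (not_spec hz), rk_other hf (not_spec hz')]
    omega

omit [Fintype T] [Fintype C] in
lemma Loc.centre {z : C → ℤ} {u : G} {c : C} {a : ℤ} (h : D.Loc z u c a) :
    u = 0 ∨ ∃ t, u = D.Δ t := by
  rcases h.2 with ⟨h, -⟩ | ⟨t, -, h, -⟩ | ⟨t, -, h, -⟩
  · exact Or.inl h
  · exact Or.inl h
  · exact Or.inr ⟨t, h⟩

omit [Fintype T] [Fintype C] in
lemma single_not_tent (c : C) (t : T) : (Pi.single c (-1) : C → ℤ) ∉ D.Tent t := by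
  intro h
  have := (h.1.1 c).1
  simp at this

omit [Fintype T] [Fintype C] in
lemma Loc.of_zero {u : G} {c : C} {a : ℤ} (h : D.Loc 0 u c a) : u = 0 ∧ a = 0 := by
  rcases h.2 with ⟨h1, -⟩ | ⟨t, h1, -⟩ | ⟨t, h1, -⟩
  · have := congrFun h.1 c
    rw [h1] at this
    exact ⟨h1, by simpa using this.symm⟩
  · exact (h1.2.1 rfl).elim
  · exact (h1.2.1 rfl).elim

omit [Fintype T] [Fintype C] in
lemma Loc.of_arm {u : G} {c c0 : C} {a : ℤ} (h : D.Loc (Pi.single c0 (-1)) u c a) :
    u = 0 ∧ a = -1 ∧ c = c0 := by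
  rcases h.2 with ⟨h1, -⟩ | ⟨t, h1, -⟩ | ⟨t, h1, -⟩
  · have h2 := h.1
    rw [h1, map_zero, zero_add] at h2
    obtain ⟨h3, h4⟩ := single_eq_single h2
    exact ⟨h1, h3.symm, (h4.resolve_left (by omega)).symm⟩
  · exact (single_not_tent _ _ h1).elim
  · exact (single_not_tent _ _ h1).elim

omit [Fintype T] [Fintype C] in
lemma Loc.of_tent {z : C → ℤ} {u : G} {c : C} {a : ℤ} {t : T} (h : D.Loc z u c a)
    (hz : z ∈ D.Tent t) :
    (u = 0 ∧ c = D.al t ∧ 1 ≤ a ∧ a ≤ 3) ∨ (u = D.Δ t ∧ c = D.be t ∧ -3 ≤ a ∧ a ≤ -2) := by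
  rcases h.2 with ⟨h1, h2 | h2⟩ | ⟨t', h1, h2⟩ | ⟨t', h1, h2⟩
  · have h3 := h.1
    rw [h1, h2] at h3
    exact (hz.2.1 (by simpa using h3)).elim
  · have h3 := h.1
    rw [h1, h2, map_zero, zero_add] at h3
    rw [h3] at hz
    exact (single_not_tent _ _ hz).elim
  · rw [tent_unique hz h1]
    exact Or.inl h2
  · rw [tent_unique hz h1]
    exact Or.inr h2

/-- The hypotheses on the set `F` of base points with hub `g`. -/
structure Hub {G T C : Type} [AddCommGroup G] (D : Data G T C) (F : Set G) (g : G) : Prop where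
  mem : ∀ f, f ∈ F ↔ f = g ∨ ∃ t, f = g + D.Δ t
  inj : Function.Injective D.Δ
  uniq : ∀ f ∈ F, ∀ t, f + D.Δ t ∈ F → f = g
  sep : ∀ f ∈ F, ∀ f' ∈ F, ∀ u u', (u = 0 ∨ ∃ t, u = D.Δ t) → (u' = 0 ∨ ∃ t, u' = D.Δ t) →
    D.μ (f - f' + u - u') = 0 → f + u = f' + u'

omit [Fintype T] [Fintype C] in
lemma contact {F : Set G} (H : Hub D F g) {f f' : G} {z z' : C → ℤ} (hf : f ∈ F) (hf' : f' ∈ F)
    (hz : z ∈ D.R) (hz' : z' ∈ D.R) (h : ∀ c, |D.pos' (f', z') c - D.pos' (f, z) c| ≤ 1) :
    (∃ t, z' ∈ D.Tent t ∧ z ∈ D.Tent t ∧ f' = f) ∨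
      ∃ u' c' a' u c a, D.Loc z' u' c' a' ∧ D.Loc z u c a ∧ f' + u' = f + u ∧
        D.pos' (f', z') = D.ι (f + u) + Pi.single c' a' ∧
        D.pos' (f, z) = D.ι (f + u) + Pi.single c a ∧
        (c' = c → |a' - a| ≤ 1) ∧ (c' ≠ c → |a| ≤ 1) := by
  have h' : ∀ c, |D.ι (f' - f) c + z' c - z c| ≤ 1 := by
    intro c
    have := h c
    simp only [pos', Pi.add_apply] at this
    rw [map_sub, Pi.sub_apply]
    convert this using 2
    ring
  rcases near hz' hz h' with ⟨t, h1, h2, h3⟩ | ⟨u', c', a', u, c, a, h1, h2, h3⟩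
  · refine Or.inl ⟨t, h1, h2, ?_⟩
    simpa using H.sep f' hf' f hf 0 0 (Or.inl rfl) (Or.inl rfl) (by simpa using h3)
  · have e := H.sep f' hf' f hf u' u h1.centre h2.centre h3
    have p1 : D.pos' (f', z') = D.ι (f + u) + Pi.single c' a' := by
      rw [← e, map_add, add_assoc, ← h1.1]
      rfl
    have p2 : D.pos' (f, z) = D.ι (f + u) + Pi.single c a := by
      rw [map_add, add_assoc, ← h2.1]
      rfl
    refine Or.inr ⟨u', c', a', u, c, a, h1, h2, e, p1, p2, fun hc => ?_, fun hc => ?_⟩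
    · have := h c
      rw [p1, p2, hc] at this
      simpa using this
    · have := h c
      rw [p1, p2] at this
      simpa [Pi.single_eq_of_ne (Ne.symm hc)] using this

omit [Fintype T] [Fintype C] in
lemma dock_mem (t : T) : D.ι (D.Δ t) + Pi.single (D.be t) (-2) ∈ D.Tent t := by
  have hp := D.pos t
  refine ⟨⟨fun c => ?_, fun c c' hlt hpos => ?_⟩, fun h => ?_, ?_⟩
  · have := D.nonneg t c
    by_cases hc : c = D.be t
    · subst hc
      simp only [Pi.add_apply, Pi.single_eq_same, D.ι_be]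
      omega
    · simp only [Pi.add_apply, Pi.single_eq_of_ne hc]
      omega
  · by_cases hc : c = D.be t
    · subst hc
      have hc' : c' ≠ D.be t := by
        rintro rfl
        omega
      simp only [Pi.add_apply, Pi.single_eq_of_ne hc', add_zero] at hpos
      have := D.ρ_be t c' hc' hpos
      omega
    · simp only [Pi.add_apply, Pi.single_eq_of_ne hc, add_zero]
  · have := congrFun h (D.be t)
    simp only [Pi.add_apply, Pi.single_eq_same, D.ι_be, Pi.zero_apply] at this
    omega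
  · simp only [Pi.add_apply, Pi.single_eq_same, D.ι_be]
    omega

theorem tree {F : Set G} (H : Hub D F g) : Tree D.pos' (D.rk g) (F ×ˢ D.R) (g, 0) := by
  have hg : g ∈ F := (H.mem g).2 (Or.inl rfl)
  refine ⟨⟨hg, Or.inl rfl⟩, by rw [rk_hub, nrm_zero], ?_⟩
  rintro ⟨f, z⟩ ⟨hf, hz⟩ hne
  change f ∈ F at hf
  change z ∈ D.R at hz
  rcases id hz with rfl | ⟨c0, rfl⟩ | ⟨t, ht⟩
  · -- the root of a target copy
    obtain ⟨t, rfl⟩ : ∃ t, f = g + D.Δ t := ((H.mem f).1 hf).resolve_left fun h => hne (by rw [h])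
    have hrk : D.rk g (g + D.Δ t, 0) = D.W + 1 := by
      rw [rk_other (add_ne t) (not_spec (z := 0) fun _ => le_rfl), nrm_zero]
    refine ⟨(g + D.Δ t, Pi.single (D.be t) (-1)), ⟨hf, Or.inr (Or.inl ⟨_, rfl⟩)⟩, D.be t,
      by rw [rk_spec, hrk]; omega, Or.inl ?_, ?_⟩
    · simp only [pos', add_assoc, ← Pi.single_add]
      simp
    rintro ⟨f', z'⟩ ⟨hf', hz'⟩ hkj hr hc
    change f' ∈ F at hf'
    change z' ∈ D.R at hz'
    rcases contact H hf hf' hz hz' hc with ⟨t', -, h2, -⟩ |
      ⟨u', c', a', u, c, a, h1, h2, e, p1, p2, q1, q2⟩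
    · exact (h2.2.1 rfl).elim
    obtain ⟨rfl, rfl⟩ := h2.of_zero
    have ha' : |a'| ≤ 1 := by
      have := hc c'
      rw [p1, p2] at this
      simpa using this
    rw [abs_le] at ha'
    have hu' : u' = 0 := by
      rcases h1.2 with ⟨h, -⟩ | ⟨t', -, h, -⟩ | ⟨t', -, -, -, -, h⟩
      · exact h
      · exact h
      · omega
    rw [hu', add_zero, add_zero] at e
    subst e
    by_cases hs : ∃ t', g + D.Δ t = g + D.Δ t' ∧ z' = Pi.single (D.be t') (-1)
    · obtain ⟨t', h3, h4⟩ := hs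
      rw [h4, ← H.inj (add_left_cancel h3)]
    · rw [rk_other (add_ne t) hs, hrk] at hr
      have h5 := h1.1
      rw [hu', map_zero, zero_add] at h5
      rw [h5, nrm_single] at hr
      have : a' = 0 := by omega
      rw [this] at h5
      exact (hkj (by rw [h5]; simp)).elim
  · by_cases hs : ∃ t, f = g + D.Δ t ∧
        (Pi.single c0 (-1) : C → ℤ) = Pi.single (D.be t) (-1)
    · -- the docking arm of a target copy
      obtain ⟨t, rfl, h0⟩ := hs
      obtain rfl : c0 = D.be t := (single_eq_single h0).2.resolve_left (by omega)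
      have hd := dock_mem (D := D) t
      refine ⟨(g, D.ι (D.Δ t) + Pi.single (D.be t) (-2)), ⟨hg, Or.inr (Or.inr ⟨t, hd⟩)⟩, D.be t,
        by rw [rk_spec, rk_hub]; exact nrm_tent hd, Or.inl ?_, ?_⟩
      · simp only [pos', add_assoc, ← Pi.single_add, map_add]
        simp
      rintro ⟨f', z'⟩ ⟨hf', hz'⟩ hkj hr hc
      change f' ∈ F at hf'
      change z' ∈ D.R at hz'
      rcases contact H hf hf' hz hz' hc with ⟨t', -, h2, -⟩ |
        ⟨u', c', a', u, c, a, h1, h2, e, p1, p2, q1, q2⟩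
      · exact (single_not_tent _ _ h2).elim
      obtain ⟨rfl, rfl, rfl⟩ := h2.of_arm
      rw [rk_spec] at hr
      rw [add_zero] at e p1
      have hu : u' ≠ 0 := by
        rintro rfl
        rw [add_zero] at e
        subst e
        by_cases hs : ∃ t', g + D.Δ t = g + D.Δ t' ∧ z' = Pi.single (D.be t') (-1)
        · obtain ⟨t', h3, h4⟩ := hs
          exact hkj (by rw [h4, ← H.inj (add_left_cancel h3)])
        · rw [rk_other (add_ne t) hs] at hr
          omega
      rcases h1.2 with ⟨h, -⟩ | ⟨t', -, h, -⟩ | ⟨t', -, h3, h4, h5, h6⟩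
      · exact (hu h).elim
      · exact (hu h).elim
      subst h3 h4
      have h7 : f' = g := H.uniq f' hf' t' (by rw [e]; exact hf)
      subst h7
      obtain rfl : t' = t := H.inj (add_left_cancel e)
      have h8 := q1 rfl
      rw [abs_le] at h8
      obtain rfl : a' = -2 := by omega
      rw [p1]
      simp [pos', add_assoc]
    · -- an ordinary arm
      have hrk : D.rk g (f, 0) < D.rk g (f, Pi.single c0 (-1)) := by
        by_cases hfg : f = g
        · subst hfg
          rw [rk_hub, rk_hub, nrm_zero, nrm_single]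
          simp
        · rw [rk_other hfg hs, rk_other hfg (not_spec (z := 0) fun _ => le_rfl), nrm_zero,
            nrm_single]
          simp
      refine ⟨(f, 0), ⟨hf, Or.inl rfl⟩, c0, hrk, Or.inr ?_, ?_⟩
      · simp only [pos', add_zero, sub_eq_add_neg, ← Pi.single_neg]
      rintro ⟨f', z'⟩ ⟨hf', hz'⟩ hkj hr hc
      change f' ∈ F at hf'
      change z' ∈ D.R at hz'
      rcases contact H hf hf' hz hz' hc with ⟨t', -, h2, -⟩ |
        ⟨u', c', a', u, c, a, h1, h2, e, p1, p2, q1, q2⟩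
      · exact (single_not_tent _ _ h2).elim
      obtain ⟨rfl, rfl, rfl⟩ := h2.of_arm
      rw [add_zero] at e p1
      rw [p1]
      by_cases hcc : c' = c
      swap
      · simp [pos', Pi.single_eq_of_ne (Ne.symm hcc)]
      subst hcc
      have h8 := q1 rfl
      rw [abs_le] at h8
      rcases h1.2 with ⟨h3, h4 | h4⟩ | ⟨t', -, -, -, h, -⟩ | ⟨t', -, h3, h4, h5, h6⟩
      · simp [pos', h4]
      · have h5 := h1.1
        rw [h3, h4, map_zero, zero_add] at h5
        rw [h3, add_zero] at e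
        exact (hkj (by rw [e, h5])).elim
      · omega
      · subst h3 h4
        have h7 : f' = g := H.uniq f' hf' t' (by rw [e]; exact hf)
        exact (hs ⟨t', by rw [← e, h7], rfl⟩).elim
  · -- a tentacle cube
    obtain ⟨i, hi, hpath, hpred⟩ := exists_cur (D.ρ_inj t) ht.1 ht.2.1
    have hpar : z - Pi.single i 1 ∈ D.R := by
      by_cases h0 : z - Pi.single i 1 = 0
      · exact Or.inl h0
      · refine Or.inr (Or.inr ⟨t, hpath, h0, ?_⟩)
        have := ht.2.2
        simp only [Pi.sub_apply, Pi.single_apply]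
        split_ifs <;> omega
    have hz0 : ∀ c, 0 ≤ z c := fun c => (ht.1.1 c).1
    refine ⟨(f, z - Pi.single i 1), ⟨hf, hpar⟩, i, ?_, Or.inl (by simp only [pos']; abel), ?_⟩
    · rw [rk_cmp f (fun c => (hpath.1 c).1) hz0]
      refine nrm_lt (fun c => (hpath.1 c).1) (fun c => ?_) fun h => ?_
      · simp only [Pi.sub_apply, Pi.single_apply]
        split_ifs <;> omega
      · have := congrFun h i
        simp at this
    rintro ⟨f', z'⟩ ⟨hf', hz'⟩ hkj hr hc
    change f' ∈ F at hf'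
    change z' ∈ D.R at hz'
    have caseA : z' ∈ D.Tent t → f' = f →
        D.pos' (f', z') i = D.pos' (f, z - Pi.single i 1) i := by
      rintro ht' rfl
      have hzz : z' ≠ z := fun h => hkj (by rw [h])
      have hz0' : ∀ c, 0 ≤ z' c := fun c => (ht'.1.1 c).1
      have hn : ¬ nrm z < nrm z' := by
        rw [← rk_cmp (D := D) (g := g) f' hz0 hz0']
        omega
      have hle : ∀ c, z' c ≤ z c :=
        (chain (D.ρ_inj t) ht'.1 ht.1).resolve_right fun h => hn (nrm_lt hz0 h hzz.symm)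
      have h1 := hpred z' ht'.1 hle hzz
      have h2 := hc i
      simp only [pos', Pi.add_apply, Pi.sub_apply, Pi.single_eq_same, abs_le] at h2 ⊢
      omega
    rcases contact H hf hf' hz hz' hc with ⟨t', h1, h2, h3⟩ |
      ⟨u', c', a', u, c, a, h1, h2, e, p1, p2, q1, q2⟩
    · exact caseA (by rwa [tent_unique ht h2]) h3
    have goal : c = i → (Pi.single c' a' : C → ℤ) c = a - 1 →
        D.pos' (f', z') i = D.pos' (f, z - Pi.single i 1) i := by
      rintro rfl h
      have h4 := congrFun p2 c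
      rw [p1]
      simp only [pos', Pi.add_apply, Pi.sub_apply, Pi.single_eq_same] at h4 ⊢
      omega
    rcases h2.of_tent ht with ⟨rfl, rfl, b1, b2⟩ | ⟨rfl, rfl, b1, b2⟩
    · have hi' : D.al t = i := by
        by_contra h
        rw [h2.1, map_zero, zero_add, Pi.single_eq_of_ne (Ne.symm h)] at hi
        omega
      by_cases hcc : c' = D.al t
      swap
      · have := q2 hcc
        rw [abs_le] at this
        exact goal hi' (by rw [Pi.single_eq_of_ne (Ne.symm hcc)]; omega)
      subst hcc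
      have h8 := q1 rfl
      rw [abs_le] at h8
      rcases h1.2 with ⟨h3, h4⟩ | ⟨t', h3, h4, h5, -⟩ | ⟨t', -, -, h5, -⟩
      · exact goal hi' (by rw [Pi.single_eq_same]; omega)
      · rw [h4] at e
        exact caseA (by rwa [D.al_inj h5]) (by simpa using e)
      · exact (D.al_ne_be _ _ h5).elim
    · have hp := D.pos t
      have hi' : D.be t = i := by
        by_contra h
        have h3 : 0 < (z - Pi.single i 1 : C → ℤ) (D.be t) := by
          rw [Pi.sub_apply, Pi.single_eq_of_ne h, h2.1, Pi.add_apply, D.ι_be, Pi.single_eq_same]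
          omega
        have h4 := congrFun (end_form hpath h3) i
        have h5 := congrFun h2.1 i
        simp only [Pi.add_apply, Pi.sub_apply, Pi.single_eq_same,
          Pi.single_eq_of_ne (Ne.symm h)] at h4 h5
        omega
      by_cases hcc : c' = D.be t
      swap
      · have := q2 hcc
        rw [abs_le] at this
        omega
      subst hcc
      have h8 := q1 rfl
      rw [abs_le] at h8
      rcases h1.2 with ⟨h3, h4⟩ | ⟨t', -, -, h5, -⟩ | ⟨t', h3, h4, h5, -⟩
      · rw [h3, add_zero] at e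
        have h7 : f = g := H.uniq f hf t (by rw [← e]; exact hf')
        subst h7
        have h9 := rk_ge (D := D) (g := f) (f := f') (by rw [e]; exact add_ne t) z'
        have h10 := nrm_tent ht
        rw [rk_hub] at hr
        omega
      · exact (D.al_ne_be _ _ h5.symm).elim
      · obtain rfl : t = t' := D.be_inj h5
        rw [h4] at e
        exact caseA h3 (add_right_cancel e)

end Data

end Pool.Agent.H790Z.PT.TreeT
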